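import Pool.Agent.Run7.h673.SP.Cl
import Pool.Agent.N193.PS.Tl2

/-!
# The large spectrum of the multiples of the values is thin
-/

set_option autoImplicit false

namespace Pool.Agent.Run7.h673.SP

open Finset Filter Topology
open Pool.Agent.N193.PS (few_near)
open Pool.Agent.H807R2.Dav (ee norm_ee ee_add)
open Pool.Agent.Y885 (TLaw Thin Spec)

variable {g : ℝ → ℝ} {δ C L₀ : ℝ}

/-- the large spectrum of the multiples of the values is thin -/
theorem Fast.tlaw15 (h : Fast g δ C L₀) (a : ℕ) (κ : ℤ) (hκ : κ ≠ 0) (H V : ℕ) : ∃ C₀ m₀ : ℕ, ∀ m : ℕ, m₀ ≤ m → ∀ p, SB g a m p →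
    ∀ e j : ℕ, 2 ^ e ≤ m ^ H → 1 ≤ j → j ≤ m ^ H → ∀ cc : ℤ, ∀ K, K = m + e →
    TLaw 2 15 C₀ V K (range (2 ^ m)) p (fun v => (j : ℤ) * (cc + κ * (v : ℕ))) := by
  obtain ⟨V', hV'⟩ : ∃ V', V' = 2 * (V + a) + 1 := ⟨_, rfl⟩
  obtain ⟨A, hA⟩ := h.valsum V'
  obtain ⟨X₀, hX₀⟩ := eventually_atTop.mp hA
  obtain ⟨X₁, hX₁⟩ := eventually_atTop.mp ((Real.tendsto_log_atTop.comp (tendsto_natCast_atTop_atTop (R := ℝ))).eventually
    (eventually_ge_atTop (2 ^ (V + a) + 1 : ℝ)))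
  obtain ⟨m₀, hm₀⟩ := h.sizes a (X₀ + X₁ + 3)
  obtain ⟨m₂, hm₂⟩ : ∃ m₂ : ℕ, ∀ m : ℕ, m₂ ≤ m → m ^ H < 2 ^ m := by
    have h1 := (isLittleO_pow_const_const_pow_of_one_lt (R := ℝ) H (by norm_num : (1 : ℝ) < 2)).bound
      (show (0 : ℝ) < 1 / 2 by norm_num)
    obtain ⟨m₂, h2⟩ := eventually_atTop.mp h1
    refine ⟨m₂, fun m hm => ?_⟩
    have h3 := h2 m hm
    rw [Real.norm_of_nonneg (by positivity), Real.norm_of_nonneg (by positivity)] at h3
    have h4 : (0 : ℝ) < 2 ^ m := by positivity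
    have h5 : (m : ℝ) ^ H < 2 ^ m := by linarith
    exact_mod_cast h5
  obtain ⟨E, hE⟩ : ∃ E, E = H + A + a + 2 := ⟨_, rfl⟩
  refine ⟨2 * E + 1, m₀ + m₂ + κ.natAbs + 15, fun m hm p hp e j he hg1 hg2 cc K hK => ?_⟩
  have hsum := SB_sum a m p hp
  have hm15 : 15 ≤ m := by omega
  have hem : e < m := by
    by_contra hcon
    push Not at hcon
    have h1 : 2 ^ m ≤ 2 ^ e := Nat.pow_le_pow_right (by norm_num) hcon
    have h2 := hm₂ m (by omega)
    omega
  have hK2 : K ≤ 2 * m := by omega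
  obtain ⟨x, y, hxy, hy, hyl, hval, hsize, hpv⟩ := id hp
  have hvalx : val g x < 2 ^ m := hval x (mem_Ioc.2 ⟨hxy, le_rfl⟩)
  obtain ⟨hxX, hs1, hs2⟩ := hm₀ m (by omega) x hvalx hsize
  have hlogx := hX₁ x (by omega)
  simp only [Function.comp] at hlogx
  have hm1 : (1 : ℝ) ≤ m := by exact_mod_cast (by omega : 1 ≤ m)
  have hm0 : (0 : ℝ) < m := by linarith
  have hK1 : (1 : ℝ) ≤ K := by exact_mod_cast (by omega : 1 ≤ K)
  have hmK : (m : ℝ) ≤ K := by exact_mod_cast (by omega : m ≤ K)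
  have hK2r : (K : ℝ) ≤ 2 * m := by exact_mod_cast hK2
  have hx0 : (0 : ℝ) < x := by exact_mod_cast (by omega : 0 < x)
  have hl0 : 0 < Real.log x := by
    have : (0 : ℝ) < 2 ^ (V + a) + 1 := by positivity
    linarith
  have hfx := ff_pos g x
  have hN0 : (0 : ℝ) < ((x - y : ℕ) : ℝ) := by exact_mod_cast (by omega : 0 < x - y)
  obtain ⟨G, hG⟩ : ∃ G : ℤ, G = j * κ := ⟨_, rfl⟩
  have hG0 : G ≠ 0 := by
    rw [hG]
    exact mul_ne_zero (by exact_mod_cast (by omega : j ≠ 0)) hκ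
  obtain ⟨M, hM⟩ : ∃ M : ℕ, M = 2 ^ (K + 1) := ⟨_, rfl⟩
  have hMpos : 0 < M := by rw [hM]; positivity
  have hM0 : (0 : ℝ) < M := by exact_mod_cast hMpos
  -- the elements of the spectrum
  have hspec : ∀ t ∈ Spec 2 V K (range (2 ^ m)) p (fun v => (j : ℤ) * (cc + κ * (v : ℕ))),
      ∃ q : ℤ, |G * t - q * M| ≤ (m ^ E : ℕ) := by
    intro t ht
    unfold Spec at ht
    rw [mem_filter, ← hM] at ht
    obtain ⟨_, ht⟩ := ht
    by_contra hcon
    push Not at hcon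
    obtain ⟨θ0, hθ0⟩ : ∃ θ0, θ0 = (t : ℝ) / (M : ℝ) := ⟨_, rfl⟩
    rw [← hθ0] at ht
    have hcond : ∀ q : ℤ, (Real.log x) ^ A ≤ |(G : ℝ) * θ0 - q| * ff g x := by
      intro q
      have h1 : ((m ^ E : ℕ) : ℤ) < |G * t - q * M| := hcon q
      have h2 : (m : ℝ) ^ E ≤ |(G : ℝ) * t - q * M| := by
        have h3 : ((m ^ E : ℕ) : ℝ) ≤ ((|G * t - q * M| : ℤ) : ℝ) := by exact_mod_cast h1.le
        rw [Int.cast_abs] at h3
        push_cast at h3
        exact h3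
      have h3 : |(G : ℝ) * t - q * M| = |(G : ℝ) * θ0 - q| * M := by
        rw [hθ0]
        have : (G : ℝ) * t - q * M = ((G : ℝ) * (t / M) - q) * M := by field_simp
        rw [this, abs_mul, abs_of_pos hM0]
      rw [h3] at h2
      have h4 : (2 : ℝ) ^ m / (m : ℝ) ^ a ≤ ff g x := by
        rw [div_le_iff₀ (by positivity)]
        linarith
      have h5 : (m : ℝ) ^ E / M * (2 ^ m / (m : ℝ) ^ a) ≤ |(G : ℝ) * θ0 - q| * ff g x := by
        apply mul_le_mul _ h4 (by positivity) (abs_nonneg _)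
        rw [div_le_iff₀ hM0]
        exact h2
      refine le_trans ?_ h5
      have h6 : (m : ℝ) ^ E / M * (2 ^ m / (m : ℝ) ^ a) = (m : ℝ) ^ (H + A + 2) / (2 * 2 ^ e) := by
        rw [hM, hE, hK]
        push_cast
        have e1 : (m : ℝ) ^ (H + A + a + 2) = (m : ℝ) ^ (H + A + 2) * (m : ℝ) ^ a := by rw [← pow_add]; congr 1; ring
        have e2 : (2 : ℝ) ^ (m + e + 1) = 2 ^ m * 2 ^ e * 2 := by rw [pow_succ, pow_add]
        rw [e1, e2]
        field_simp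
      rw [h6, le_div_iff₀ (by positivity)]
      have h7 : (Real.log x) ^ A ≤ (m : ℝ) ^ A := pow_le_pow_left₀ hl0.le hs1 A
      have h8 : (2 : ℝ) ^ e ≤ (m : ℝ) ^ H := by exact_mod_cast he
      have h9 : (2 : ℝ) ≤ m := by exact_mod_cast (by omega : 2 ≤ m)
      calc (Real.log x) ^ A * (2 * 2 ^ e) ≤ (m : ℝ) ^ A * (m * (m : ℝ) ^ H) := by
            apply mul_le_mul h7 _ (by positivity) (by positivity)
            exact mul_le_mul h9 h8 (by positivity) (by positivity)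
        _ = (m : ℝ) ^ (H + A + 1) := by rw [pow_succ, pow_add]; ring
        _ ≤ (m : ℝ) ^ (H + A + 2) := pow_le_pow_right₀ hm1 (by omega)
    have hmain := hX₀ x (by omega) ((G : ℝ) * θ0) hcond y hxy.le hy
    have h3 : ∑ v ∈ range (2 ^ m), ((p v : ℝ) : ℂ) * ee (((((j : ℤ) * (cc + κ * (v : ℕ)) : ℤ)) : ℝ) * θ0) =
        (1 / (((x - y : ℕ) : ℝ) : ℂ)) * ee (j * cc * θ0) * ∑ n ∈ Finset.Ioc y x, ee ((G : ℝ) * θ0 * (val g n : ℕ)) := by
      rw [← sum_val g (Finset.Ioc y x) (2 ^ m) hval (fun v => ee ((G : ℝ) * θ0 * (v : ℕ))), mul_sum]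
      refine sum_congr rfl fun v _ => ?_
      rw [hpv, nsmul_eq_mul]
      have h4 : ee (((((j : ℤ) * (cc + κ * (v : ℕ)) : ℤ)) : ℝ) * θ0) = ee (j * cc * θ0) * ee ((G : ℝ) * θ0 * (v : ℕ)) := by
        rw [← ee_add, hG]
        congr 1
        push_cast
        ring
      rw [h4]
      push_cast
      ring
    rw [h3, norm_mul, norm_mul, norm_ee, mul_one, norm_div, norm_one, Complex.norm_real, Real.norm_of_nonneg hN0.le] at ht
    have h4 : 1 / ((x - y : ℕ) : ℝ) * ‖∑ n ∈ Finset.Ioc y x, ee ((G : ℝ) * θ0 * (val g n : ℕ))‖ ≤ 1 / (K : ℝ) ^ V := by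
      calc 1 / ((x - y : ℕ) : ℝ) * ‖∑ n ∈ Finset.Ioc y x, ee ((G : ℝ) * θ0 * (val g n : ℕ))‖ ≤
          1 / ((x - y : ℕ) : ℝ) * (x / (Real.log x) ^ V') := mul_le_mul_of_nonneg_left hmain (by positivity)
        _ ≤ 1 / ((x - y : ℕ) : ℝ) * (((m : ℝ) ^ a * ((x - y : ℕ) : ℝ)) / (Real.log x) ^ V') := by
            apply mul_le_mul_of_nonneg_left _ (by positivity)
            exact div_le_div_of_nonneg_right hyl (by positivity)
        _ = (m : ℝ) ^ a / (Real.log x) ^ V' := by field_simp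
        _ ≤ 1 / (K : ℝ) ^ V := by
            rw [div_le_div_iff₀ (by positivity) (by positivity), one_mul]
            calc (m : ℝ) ^ a * (K : ℝ) ^ V ≤ (K : ℝ) ^ a * (K : ℝ) ^ V :=
                  mul_le_mul_of_nonneg_right (pow_le_pow_left₀ (by positivity) hmK a) (by positivity)
              _ = (K : ℝ) ^ (V + a) := by rw [← pow_add, add_comm]
              _ ≤ (2 * (Real.log x) ^ 2) ^ (V + a) := by
                  apply pow_le_pow_left₀ (by positivity)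
                  linarith
              _ = 2 ^ (V + a) * (Real.log x) ^ (2 * (V + a)) := by rw [mul_pow, ← pow_mul]
              _ ≤ Real.log x * (Real.log x) ^ (2 * (V + a)) := by
                  apply mul_le_mul_of_nonneg_right _ (by positivity)
                  linarith
              _ = (Real.log x) ^ V' := by rw [hV', pow_succ]; ring
    linarith
  have hlt : ∀ t ∈ Spec 2 V K (range (2 ^ m)) p (fun v => (j : ℤ) * (cc + κ * (v : ℕ))), t < M := by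
    intro t ht
    unfold Spec at ht
    rw [mem_filter, mem_range, ← hM] at ht
    exact ht.1
  have hcard := few_near G hG0 M (m ^ E) hMpos _ hlt hspec
  obtain ⟨S, hS⟩ : ∃ S, S = Spec 2 V K (range (2 ^ m)) p (fun v => (j : ℤ) * (cc + κ * (v : ℕ))) := ⟨_, rfl⟩
  rw [← hS] at hcard hlt
  have hcard2 : S.card ≤ K ^ (2 * E + 1) := by
    have h1 : G.natAbs ≤ m ^ E := by
      rw [hG, Int.natAbs_mul, Int.natAbs_natCast, hE]
      calc j * κ.natAbs ≤ m ^ H * m := Nat.mul_le_mul hg2 (by omega)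
        _ = m ^ (H + 1) := by rw [pow_succ]
        _ ≤ m ^ (H + A + a + 2) := Nat.pow_le_pow_right (by omega) (by omega)
    have h2 : 1 ≤ m ^ E := Nat.one_le_pow _ _ (by omega)
    calc S.card ≤ (2 * (G.natAbs + m ^ E) + 1) * (2 * m ^ E + 1) := hcard
      _ ≤ (5 * m ^ E) * (3 * m ^ E) := Nat.mul_le_mul (by omega) (by omega)
      _ = 15 * (m ^ E * m ^ E) := by ring
      _ ≤ m * (m ^ E * m ^ E) := Nat.mul_le_mul_right _ hm15
      _ = m ^ (2 * E + 1) := by rw [pow_succ, two_mul, pow_add]; ring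
      _ ≤ K ^ (2 * E + 1) := Nat.pow_le_pow_left (by omega) _
  refine ⟨fun v _ => SB_nonneg a m p hp v, hsum.le, ?_⟩
  rw [← hS]
  refine ⟨fun t ht => by rw [← hM]; exact hlt t ht, fun i _ => ?_, fun j x _ => ?_, ?_⟩
  · exact Nat.mul_le_mul (card_image_le.trans hcard2) (Nat.pow_le_pow_right (by norm_num) (Nat.div_le_self _ _))
  · exact Nat.mul_le_mul ((card_filter_le _ _).trans hcard2) (Nat.pow_le_pow_right (by norm_num) (Nat.div_le_self _ _))
  · exact Nat.mul_le_mul hcard2 (Nat.pow_le_pow_right (by norm_num) (by omega))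

/-- the class for the multiples -/
theorem Fast.tcls (h : Fast g δ C L₀) (a : ℕ) (κ : ℤ) (hκ : κ ≠ 0) : Pool.Agent.N625.PT.TCls 2 κ (SB g a) := by
  refine ⟨le_rfl, hκ, fun k p hp => SB_nonneg a k p hp, fun k p hp => SB_sum a k p hp, 1, le_rfl, fun W V => ?_⟩
  obtain ⟨C₀, m₀, hlaw⟩ := h.tlaw15 a κ hκ (W + 1) V
  refine ⟨C₀, m₀ + 3, fun m hm e he h' hh1 hh2 p hp cc => ?_⟩
  have hm1 : (1 : ℝ) ≤ m := by exact_mod_cast (by omega : 1 ≤ m)
  have hm0 : (0 : ℝ) < m := by linarith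
  have h2e : (2 : ℝ) ^ e ≤ (m : ℝ) ^ W := by
    have h1 : (2 : ℝ) ^ e ≤ Real.exp e := by
      rw [← Real.exp_one_pow]
      have h3 := Real.exp_one_gt_d9
      exact pow_le_pow_left₀ (by norm_num) (by linarith) e
    have h2 : Real.exp e ≤ Real.exp (W * Real.log m) := Real.exp_le_exp.2 he
    have h4 : Real.exp (W * Real.log m) = (m : ℝ) ^ W := by
      rw [mul_comm, Real.exp_mul, Real.exp_log hm0, Real.rpow_natCast]
    linarith
  have h2e' : 2 ^ e ≤ m ^ W := by exact_mod_cast h2e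
  refine hlaw m (by omega) p hp e h' (h2e'.trans (Nat.pow_le_pow_right (by omega) (by omega))) hh1 ?_ cc (m + e) rfl
  rw [one_mul] at hh2
  have h5 : h' < 2 ^ (Nat.log 2 h' + 1) := Nat.lt_pow_succ_log_self (by norm_num) h'
  calc h' ≤ 2 ^ (Nat.log 2 h' + 1) := h5.le
    _ ≤ 2 ^ (e + 1) := Nat.pow_le_pow_right (by norm_num) (by omega)
    _ = 2 ^ e * 2 := pow_succ _ _
    _ ≤ m ^ W * m := Nat.mul_le_mul h2e' (by omega)
    _ = m ^ (W + 1) := (pow_succ _ _).symm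

end Pool.Agent.Run7.h673.SP
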