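import Pool.Agent.Run7.h673.SP.WinF

/-!
# Sparse windows between consecutive powers

Adapted from `Pool.Agent.Run7.h337.MK.Pow` (helper337, project MK), where the distributions are flat modulo `q`.
-/

set_option autoImplicit false

namespace Pool.Agent.Run7.h673.SP

open Finset Filter
open Pool.Agent.Run7.h794.MK
open Pool.Agent.N384.MQ (ev_log_pow ev_log_ge)
open Run7.h337.MK (cnt conv ev_sub pow_lower pow_upper ev_ratio ev_lnz)

/-- sparse windows between consecutive powers, for distributions with small characteristic functions off short arcs -/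
theorem pow_off (d : ℕ) (hd : 1 ≤ d) (T U : ℕ) (ε : ℝ) (hε : 0 < ε) (hε1 : ε ≤ 1) : ∃ V : ℕ, ∀ D : ℕ, ∃ C W X₀ : ℕ,
    ∀ X : ℕ, X₀ ≤ X →
    ∃ E : Finset ℕ, (E.card : ℝ) ≤ X / Real.log X ^ U ∧ ∀ n : ℕ, 1 ≤ n → n ≤ X → n ∉ E →
    ((X : ℝ) ≤ n * Real.log X ^ (U + 1) ∧ 1 ≤ Real.log n) ∧
    ∀ (q Q : ℕ) (p : ℕ → ℝ), (X : ℝ) ^ (((d + 1 : ℕ) : ℝ) / 3) * Real.log X ^ C ≤ q → q ≤ Q →
    (Q : ℝ) * Real.log X ^ W ≤ (n : ℝ) ^ d →
    Off Q q p (Real.log (((X + 1) ^ (d + 1) : ℕ) : ℝ) ^ D) (1 / Real.log (((X + 1) ^ (d + 1) : ℕ) : ℝ) ^ V) →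
    ∀ κ : ℤ, κ ≠ 0 → (κ.natAbs : ℝ) ≤ Real.log X ^ T → ∃ F : Finset ℕ, (F.card : ℝ) ≤ (n : ℝ) ^ d / Real.log X ^ U ∧
      ∀ m ∈ Ioo (n ^ (d + 1)) ((n + 1) ^ (d + 1)), m ∉ F →
        (∀ v < Q, ((n ^ (d + 1) : ℕ) : ℤ) < m + κ * (v : ℕ) ∧ m + κ * (v : ℕ) < (((n + 1) ^ (d + 1) : ℕ) : ℤ)) ∧
        (IsCoprime (m : ℤ) κ →
        |cnt Q p κ 0 m - κ.natAbs / (Nat.totient κ.natAbs : ℝ) / ((d + 1) * Real.log n)| ≤
          ε * (κ.natAbs / (Nat.totient κ.natAbs : ℝ) / ((d + 1) * Real.log n))) := by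
  classical
  obtain ⟨a, ha⟩ : ∃ a, a = U + 1 := ⟨_, rfl⟩
  obtain ⟨T₁, hT₁⟩ : ∃ T₁, T₁ = T + a * (d + 1) + 1 := ⟨_, rfl⟩
  obtain ⟨U₁, hU₁⟩ : ∃ U₁, U₁ = a * (d + 1) + 1 := ⟨_, rfl⟩
  obtain ⟨V, hV⟩ := aa_off t_maj T₁ U₁ (ε / 12) (by positivity)
  refine ⟨V, fun D => ?_⟩
  obtain ⟨C, W, Z₀, h⟩ := hV D
  obtain ⟨c, hc⟩ : ∃ c : ℝ, c = 4 * ((d : ℝ) + 1) * 2 ^ (d + 1) * (2 * ((d : ℝ) + 1)) ^ (C + W + 1) := ⟨_, rfl⟩
  obtain ⟨X₁, hev⟩ := eventually_atTop.1 ((ev_log_ge c).and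
    ((ev_lnz d a (ε / 4) (by positivity) (by linarith)).and ((ev_log_pow a 3).and (ev_log_ge 2))))
  refine ⟨C + 1, W + 1, max X₁ (max Z₀ 2), fun X hX => ?_⟩
  obtain ⟨l1, l3, l4, l5⟩ := hev X (le_trans (le_max_left _ _) hX)
  have hX2 : 2 ≤ X := le_trans (le_trans (le_max_right _ _) (le_max_right _ _)) hX
  have hXZ₀ : Z₀ ≤ X := le_trans (le_trans (le_max_left _ _) (le_max_right _ _)) hX
  have hX2r : (2 : ℝ) ≤ X := by exact_mod_cast hX2
  have hX0 : (0 : ℝ) < X := by linarith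
  obtain ⟨Z, hZ⟩ : ∃ Z : ℕ, Z = (X + 1) ^ (d + 1) := ⟨_, rfl⟩
  obtain ⟨L, hL⟩ : ∃ L, L = Real.log X := ⟨_, rfl⟩
  obtain ⟨M, hM⟩ : ∃ M, M = Real.log Z := ⟨_, rfl⟩
  rw [← hZ, ← hM] at l3
  rw [← hZ, ← hM]
  rw [← hL] at l1 l3 l4 l5 ⊢
  have hd0 : (0 : ℝ) ≤ d := Nat.cast_nonneg _
  have h2d : (1 : ℝ) ≤ 2 * ((d : ℝ) + 1) := by linarith
  have h2p : (1 : ℝ) ≤ 2 ^ (d + 1) := one_le_pow₀ (by norm_num)
  have hcc : ∀ e : ℕ, e ≤ C + W + 1 → 4 * ((d : ℝ) + 1) * 2 ^ (d + 1) * (2 * ((d : ℝ) + 1)) ^ e ≤ c := by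
    intro e he
    rw [hc]
    apply mul_le_mul_of_nonneg_left _ (by positivity)
    exact pow_le_pow_right₀ h2d he
  have hc1 : 4 * ((d : ℝ) + 1) * 2 ^ (d + 1) ≤ c := by
    have := hcc 0 (by omega)
    rwa [pow_zero, mul_one] at this
  have hL0 : 0 < L := by linarith
  have hL1 : 1 ≤ L := by linarith
  have hpow : ∀ e : ℕ, 1 ≤ L ^ e := fun e => one_le_pow₀ hL1
  have hXZ : X ≤ Z := by
    rw [hZ, pow_succ]
    calc X ≤ X + 1 := Nat.le_succ _
      _ ≤ (X + 1) ^ d * (X + 1) := Nat.le_mul_of_pos_left _ (by positivity)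
  have hZ0 : (0 : ℝ) < Z := by
    have : (X : ℝ) ≤ Z := by exact_mod_cast hXZ
    linarith
  have hZle : (Z : ℝ) ≤ 2 ^ (d + 1) * (X : ℝ) ^ (d + 1) := by
    rw [hZ, ← mul_pow]
    push_cast
    apply pow_le_pow_left₀ (by positivity)
    linarith
  have hLM : L ≤ M := by
    rw [hL, hM]
    exact Real.log_le_log hX0 (by exact_mod_cast hXZ)
  have hML : M ≤ 2 * ((d : ℝ) + 1) * L := by
    rw [hM, hL, hZ]
    push_cast
    rw [Real.log_pow]
    push_cast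
    have h1 : Real.log ((X : ℝ) + 1) ≤ 2 * Real.log X := by
      rw [two_mul, ← Real.log_mul hX0.ne' hX0.ne']
      apply Real.log_le_log (by linarith)
      nlinarith
    nlinarith [mul_le_mul_of_nonneg_left h1 (by positivity : (0 : ℝ) ≤ (d : ℝ) + 1)]
  have hM0 : 0 < M := by linarith
  have hMp : ∀ e : ℕ, M ^ e ≤ (2 * ((d : ℝ) + 1)) ^ e * L ^ e := by
    intro e
    rw [← mul_pow]
    exact pow_le_pow_left₀ hM0.le hML e
  have hMp' : ∀ e : ℕ, e ≤ C + W + 1 → 4 * ((d : ℝ) + 1) * 2 ^ (d + 1) * M ^ e ≤ L ^ (e + 1) := by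
    intro e he
    calc 4 * ((d : ℝ) + 1) * 2 ^ (d + 1) * M ^ e ≤
        4 * ((d : ℝ) + 1) * 2 ^ (d + 1) * ((2 * ((d : ℝ) + 1)) ^ e * L ^ e) :=
          mul_le_mul_of_nonneg_left (hMp e) (by positivity)
      _ = (4 * ((d : ℝ) + 1) * 2 ^ (d + 1) * (2 * ((d : ℝ) + 1)) ^ e) * L ^ e := by ring
      _ ≤ L * L ^ e := mul_le_mul_of_nonneg_right ((hcc e he).trans l1) (by positivity)
      _ = L ^ (e + 1) := by rw [pow_succ, mul_comm]
  have hMp1 : ∀ e : ℕ, e ≤ C + W + 1 → M ^ e ≤ L ^ (e + 1) := by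
    intro e he
    refine le_trans ?_ (hMp' e he)
    have h1 : (1 : ℝ) ≤ 4 * ((d : ℝ) + 1) * 2 ^ (d + 1) := by nlinarith
    have h2 : 0 ≤ M ^ e := by positivity
    nlinarith
  -- the blocks
  obtain ⟨J, hJ⟩ : ∃ J : Finset ℕ, J = (Icc 1 X).filter (fun n : ℕ => (X : ℝ) ≤ n * L ^ a) := ⟨_, rfl⟩
  have hJm : ∀ n ∈ J, 1 ≤ n ∧ n ≤ X ∧ (X : ℝ) ≤ n * L ^ a := by
    intro n hn
    rw [hJ, mem_filter, mem_Icc] at hn
    exact ⟨hn.1.1, hn.1.2, hn.2⟩
  obtain ⟨u, hu⟩ : ∃ u : ℕ → ℕ, u = fun n => n ^ (d + 1) := ⟨_, rfl⟩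
  obtain ⟨ℓ, hℓ⟩ : ∃ ℓ : ℕ → ℕ, ℓ = fun n => (n + 1) ^ (d + 1) - 1 - n ^ (d + 1) := ⟨_, rfl⟩
  have hun : ∀ n, u n = n ^ (d + 1) := fun n => by rw [hu]
  have hℓn : ∀ n, ℓ n = (n + 1) ^ (d + 1) - 1 - n ^ (d + 1) := fun n => by rw [hℓ]
  have hlow : ∀ n, 1 ≤ n → n ^ (d + 1) + n ^ d + 1 ≤ (n + 1) ^ (d + 1) := by
    intro n hn
    have h1 := pow_lower d n
    have h2 : 1 ≤ n ^ d := Nat.one_le_pow _ _ hn
    have h3 : (d + 1) * n ^ d = d * n ^ d + n ^ d := by ring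
    have h4 : n ^ d ≤ d * n ^ d := Nat.le_mul_of_pos_left _ hd
    omega
  have hul : ∀ n, 1 ≤ n → u n + ℓ n + 1 = (n + 1) ^ (d + 1) := by
    intro n hn
    rw [hun, hℓn]
    have := hlow n hn
    omega
  have hℓlow : ∀ n, 1 ≤ n → n ^ d ≤ ℓ n := by
    intro n hn
    rw [hℓn]
    have := hlow n hn
    omega
  have hℓup : ∀ n, 1 ≤ n → ℓ n ≤ (d + 1) * 2 ^ d * n ^ d := by
    intro n hn
    have h1 := pow_upper d n
    have h2 : (n + 1) ^ d ≤ (2 * n) ^ d := Nat.pow_le_pow_left (by omega) _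
    have h3 : (d + 1) * (n + 1) ^ d ≤ (d + 1) * 2 ^ d * n ^ d := by
      rw [mul_assoc, ← mul_pow]
      exact Nat.mul_le_mul_left _ h2
    rw [hℓn]
    omega
  have hblk : ∀ n, 1 ≤ n → Ioc (u n) (u n + ℓ n) = Ioo (n ^ (d + 1)) ((n + 1) ^ (d + 1)) := by
    intro n hn
    ext m
    have h1 := hul n hn
    have h2 := hun n
    rw [mem_Ioc, mem_Ioo]
    omega
  -- powers of n
  have hnd : ∀ n ∈ J, (X : ℝ) ^ d ≤ (n : ℝ) ^ d * L ^ (a * d) := by
    intro n hn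
    obtain ⟨b1, b2, b3⟩ := hJm n hn
    calc (X : ℝ) ^ d ≤ (n * L ^ a) ^ d := pow_le_pow_left₀ hX0.le b3 d
      _ = _ := by rw [mul_pow, ← pow_mul]
  have hmain := h Z (hXZ₀.trans hXZ) J u ℓ
    (fun n hn => by
      obtain ⟨b1, b2, b3⟩ := hJm n hn
      have h1 := hul n b1
      have h2 : (n + 1) ^ (d + 1) ≤ Z := by
        rw [hZ]
        exact Nat.pow_le_pow_left (by omega) _
      omega)
    (fun n hn => by
      obtain ⟨b1, b2, b3⟩ := hJm n hn
      rw [← hM, hun]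
      push_cast
      calc (Z : ℝ) ≤ 2 ^ (d + 1) * (X : ℝ) ^ (d + 1) := hZle
        _ ≤ 2 ^ (d + 1) * (n * L ^ a) ^ (d + 1) := by gcongr
        _ = (n : ℝ) ^ (d + 1) * (2 ^ (d + 1) * L ^ (a * (d + 1))) := by
            rw [mul_pow, ← pow_mul]
            ring
        _ ≤ (n : ℝ) ^ (d + 1) * (L * L ^ (a * (d + 1))) := by
            apply mul_le_mul_of_nonneg_left _ (by positivity)
            apply mul_le_mul_of_nonneg_right _ (by positivity)
            have : (2 : ℝ) ^ (d + 1) ≤ 4 * ((d : ℝ) + 1) * 2 ^ (d + 1) := by nlinarith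
            linarith
        _ = (n : ℝ) ^ (d + 1) * L ^ (a * (d + 1) + 1) := by rw [pow_succ]; ring
        _ ≤ (n : ℝ) ^ (d + 1) * M ^ T₁ := by
            apply mul_le_mul_of_nonneg_left _ (by positivity)
            refine (pow_le_pow_left₀ hL0.le hLM _).trans ?_
            exact pow_le_pow_right₀ (by linarith) (by omega))
    (fun m => by
      have h1 : (J.filter fun n => u n < m ∧ m ≤ u n + ℓ n).card ≤ 1 := by
        rw [card_le_one]
        intro x hx y hy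
        rw [mem_filter] at hx hy
        obtain ⟨bx, -, -⟩ := hJm x hx.1
        obtain ⟨by', -, -⟩ := hJm y hy.1
        have h1 := hul x bx
        have h2 := hul y by'
        have h3 := hun x
        have h4 := hun y
        by_contra hne
        rcases lt_or_gt_of_ne hne with hlt | hlt
        · have : (x + 1) ^ (d + 1) ≤ y ^ (d + 1) := Nat.pow_le_pow_left hlt _
          omega
        · have : (y + 1) ^ (d + 1) ≤ x ^ (d + 1) := Nat.pow_le_pow_left hlt _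
          omega
      rw [← hM]
      have h2 : (1 : ℝ) ≤ M ^ T₁ := one_le_pow₀ (by linarith)
      have h3 : ((J.filter fun n => u n < m ∧ m ≤ u n + ℓ n).card : ℝ) ≤ 1 := by exact_mod_cast h1
      linarith)
  obtain ⟨Bad, hBJ, hBs, hgood⟩ := hmain
  rw [← hM] at hBs hgood
  obtain ⟨S, hS⟩ : ∃ S : Finset ℕ, S = (Icc 1 X).filter (fun n : ℕ => (n : ℝ) * L ^ a < X) := ⟨_, rfl⟩
  refine ⟨Bad ∪ S, ?_, fun n hn1 hnX hnE => ?_⟩
  · have hBc : (Bad.card : ℝ) ≤ X / L ^ a := by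
      have h1 : ∀ n ∈ Bad, (X : ℝ) ^ d / L ^ (a * d) ≤ ℓ n := by
        intro n hn
        obtain ⟨b1, b2, b3⟩ := hJm n (hBJ hn)
        rw [div_le_iff₀ (by positivity)]
        refine (hnd n (hBJ hn)).trans ?_
        apply mul_le_mul_of_nonneg_right _ (by positivity)
        exact_mod_cast hℓlow n b1
      have h2 := sum_le_sum h1
      rw [sum_const, nsmul_eq_mul] at h2
      have h3 := h2.trans hBs
      have h4 : (Z : ℝ) / M ^ U₁ ≤ 2 ^ (d + 1) * (X : ℝ) ^ (d + 1) / L ^ U₁ := by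
        apply div_le_div₀ (by positivity) hZle (by positivity)
        exact pow_le_pow_left₀ hL0.le hLM _
      have h5 := h3.trans h4
      rw [le_div_iff₀ (by positivity)]
      rw [mul_div_assoc', div_le_div_iff₀ (by positivity) (by positivity)] at h5
      have h6 : L ^ U₁ = L ^ (a * d) * L ^ a * L := by
        rw [hU₁, ← pow_add, ← pow_succ]
        congr 1
      have h7 : (2 : ℝ) ^ (d + 1) ≤ L := by
        have : (2 : ℝ) ^ (d + 1) ≤ 4 * ((d : ℝ) + 1) * 2 ^ (d + 1) := by nlinarith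
        linarith
      have h8 : (Bad.card : ℝ) * L ^ a * ((X : ℝ) ^ d * L ^ (a * d) * L) ≤ X * ((X : ℝ) ^ d * L ^ (a * d) * L) := by
        calc (Bad.card : ℝ) * L ^ a * ((X : ℝ) ^ d * L ^ (a * d) * L) = Bad.card * (X : ℝ) ^ d * L ^ U₁ := by
              rw [h6]; ring
          _ ≤ 2 ^ (d + 1) * (X : ℝ) ^ (d + 1) * L ^ (a * d) := h5
          _ ≤ L * (X : ℝ) ^ (d + 1) * L ^ (a * d) := by gcongr
          _ = X * ((X : ℝ) ^ d * L ^ (a * d) * L) := by rw [pow_succ]; ring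
      exact le_of_mul_le_mul_right h8 (by positivity)
    have hSc : (S.card : ℝ) ≤ X / L ^ a := by
      have h1 : S ⊆ Icc 1 ⌊(X : ℝ) / L ^ a⌋₊ := by
        intro n hn
        rw [hS, mem_filter, mem_Icc] at hn
        rw [mem_Icc]
        refine ⟨hn.1.1, Nat.le_floor ?_⟩
        rw [le_div_iff₀ (by positivity)]
        exact hn.2.le
      have h2 := card_le_card h1
      rw [Nat.card_Icc, Nat.add_sub_cancel] at h2
      exact le_trans (by exact_mod_cast h2) (Nat.floor_le (by positivity))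
    have h1 : ((Bad ∪ S).card : ℝ) ≤ Bad.card + S.card := by exact_mod_cast card_union_le _ _
    refine h1.trans ((add_le_add hBc hSc).trans ?_)
    rw [ha, pow_succ, ← two_mul, mul_div_assoc', div_le_div_iff₀ (by positivity) (by positivity)]
    have h2 : 0 ≤ (X : ℝ) * L ^ U := by positivity
    nlinarith
  · rw [mem_union, not_or] at hnE
    obtain ⟨hnB, hnS⟩ := hnE
    have hnL : (X : ℝ) ≤ n * L ^ a := by
      by_contra hlt
      apply hnS
      rw [hS, mem_filter, mem_Icc]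
      exact ⟨⟨hn1, hnX⟩, not_le.1 hlt⟩
    have hnJ : n ∈ J := by
      rw [hJ, mem_filter, mem_Icc]
      exact ⟨⟨hn1, hnX⟩, hnL⟩
    have g2 := hgood n hnJ hnB
    have hnr : (0 : ℝ) < n := by exact_mod_cast hn1
    -- n is large
    have hnn₀ : (3 : ℝ) ≤ n := by
      have h1 : (3 : ℝ) * L ^ a ≤ n * L ^ a := l4.trans hnL
      exact le_of_mul_le_mul_right h1 (by positivity)
    have hlogn : 1 ≤ Real.log n := by
      rw [Real.le_log_iff_exp_le hnr]
      have h1 := Real.exp_one_lt_d9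
      linarith
    obtain ⟨Ln, hLn⟩ : ∃ Ln, Ln = ((d : ℝ) + 1) * Real.log n := ⟨_, rfl⟩
    have hLn0 : 0 < Ln := by rw [hLn]; positivity
    have hLnM : Ln ≤ M := by
      rw [hLn, hM, hZ]
      push_cast
      rw [Real.log_pow]
      push_cast
      apply mul_le_mul_of_nonneg_left _ (by positivity)
      apply Real.log_le_log hnr
      have : (n : ℝ) ≤ X := by exact_mod_cast hnX
      linarith
    have hMLn : (1 - ε / 4) * M ≤ Ln := by
      refine l3.trans ?_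
      rw [hLn]
      apply mul_le_mul_of_nonneg_left _ (by positivity)
      apply Real.log_le_log (by positivity)
      rw [div_le_iff₀ (by positivity)]
      exact hnL
    refine ⟨⟨by rw [← ha]; exact hnL, hlogn⟩, ?_⟩
    · intro q Q p hqC hqQ hqD hoff κ hκ hκT
      have hq0 : (0 : ℝ) ≤ Q := Nat.cast_nonneg _
      have c1 : (Z : ℝ) ^ (1 / 3 : ℝ) * M ^ C ≤ q := by
        refine le_trans ?_ hqC
        have h2 : (Z : ℝ) ^ (1 / 3 : ℝ) ≤ 2 ^ (d + 1) * (X : ℝ) ^ (((d + 1 : ℕ) : ℝ) / 3) := by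
          calc (Z : ℝ) ^ (1 / 3 : ℝ) ≤ (2 ^ (d + 1) * (X : ℝ) ^ (d + 1)) ^ (1 / 3 : ℝ) :=
                Real.rpow_le_rpow hZ0.le hZle (by norm_num)
            _ = (2 ^ (d + 1)) ^ (1 / 3 : ℝ) * ((X : ℝ) ^ (d + 1)) ^ (1 / 3 : ℝ) :=
                Real.mul_rpow (by positivity) (by positivity)
            _ ≤ 2 ^ (d + 1) * (X : ℝ) ^ (((d + 1 : ℕ) : ℝ) / 3) := by
                apply mul_le_mul
                · calc ((2 : ℝ) ^ (d + 1)) ^ (1 / 3 : ℝ) ≤ ((2 : ℝ) ^ (d + 1)) ^ (1 : ℝ) :=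
                        Real.rpow_le_rpow_of_exponent_le h2p (by norm_num)
                    _ = _ := Real.rpow_one _
                · rw [← Real.rpow_natCast, ← Real.rpow_mul hX0.le]
                  apply le_of_eq
                  congr 1
                  ring
                · positivity
                · positivity
        have h3 := hMp' C (by omega)
        have h6 : 0 < (X : ℝ) ^ (((d + 1 : ℕ) : ℝ) / 3) := by positivity
        calc (Z : ℝ) ^ (1 / 3 : ℝ) * M ^ C ≤ (2 ^ (d + 1) * (X : ℝ) ^ (((d + 1 : ℕ) : ℝ) / 3)) * M ^ C := by gcongr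
          _ = (X : ℝ) ^ (((d + 1 : ℕ) : ℝ) / 3) * (2 ^ (d + 1) * M ^ C) := by ring
          _ ≤ (X : ℝ) ^ (((d + 1 : ℕ) : ℝ) / 3) * L ^ (C + 1) := by
              apply mul_le_mul_of_nonneg_left _ h6.le
              refine le_trans ?_ h3
              have : (0 : ℝ) ≤ 2 ^ (d + 1) * M ^ C := by positivity
              nlinarith
      have c2 : (Q : ℝ) * M ^ W ≤ ℓ n := by
        have h1 : ((n ^ d : ℕ) : ℝ) ≤ ℓ n := by exact_mod_cast hℓlow n hn1
        push_cast at h1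
        refine le_trans (le_trans ?_ hqD) h1
        exact mul_le_mul_of_nonneg_left (hMp1 W (by omega)) hq0
      have c4 : (κ.natAbs : ℝ) ≤ M ^ T₁ := by
        refine hκT.trans ((pow_le_pow_left₀ hL0.le hLM _).trans ?_)
        exact pow_le_pow_right₀ (by linarith) (by omega)
      obtain ⟨F, hF1, hF2⟩ := g2 q Q p c1 hqQ c2 hoff κ hκ c4
      refine ⟨F, hF1.trans ?_, fun m hm hmF => ?_⟩
      · have h1 : (ℓ n : ℝ) ≤ ((d : ℝ) + 1) * 2 ^ d * (n : ℝ) ^ d := by exact_mod_cast hℓup n hn1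
        rw [div_le_div_iff₀ (by positivity) (by positivity)]
        have h2 : ((d : ℝ) + 1) * 2 ^ d ≤ L := by
          have : ((d : ℝ) + 1) * 2 ^ d ≤ 4 * ((d : ℝ) + 1) * 2 ^ (d + 1) := by
            rw [pow_succ]
            have : (0 : ℝ) < ((d : ℝ) + 1) * 2 ^ d := by positivity
            nlinarith
          linarith
        have h3 : L * L ^ U ≤ M ^ U₁ := by
          calc L * L ^ U = L ^ (U + 1) := by rw [pow_succ, mul_comm]
            _ ≤ M ^ (U + 1) := pow_le_pow_left₀ hL0.le hLM _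
            _ ≤ M ^ U₁ := by
                apply pow_le_pow_right₀ (by linarith)
                rw [hU₁, ha]
                nlinarith
        calc (ℓ n : ℝ) * L ^ U ≤ (((d : ℝ) + 1) * 2 ^ d * (n : ℝ) ^ d) * L ^ U := by gcongr
          _ = (n : ℝ) ^ d * ((((d : ℝ) + 1) * 2 ^ d) * L ^ U) := by ring
          _ ≤ (n : ℝ) ^ d * (L * L ^ U) := by gcongr
          _ ≤ (n : ℝ) ^ d * M ^ U₁ := by gcongr
      · have hm' : m ∈ Ioc (u n) (u n + ℓ n) := by rw [hblk n hn1]; exact hm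
        rw [mem_Ioc] at hm'
        obtain ⟨f1, f2⟩ := hF2 m hm'.1 hm'.2 hmF
        have h1 := hul n hn1
        have h2 := hun n
        refine ⟨fun v hv => ?_, fun hcop => ?_⟩
        · have h3 := f1 v hv
          rw [← h2, ← h1]
          push_cast
          constructor
          · exact h3.1
          · linarith [h3.2]
        · have h3 := f2 hcop
          rw [← hLn]
          apply conv _ _ M Ln ε hLn0 hLnM hMLn (by positivity) hε
          refine h3.trans ?_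
          apply mul_le_mul_of_nonneg_right _ (by positivity)
          linarith

end Pool.Agent.Run7.h673.SP
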