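import Pool.Agent.Run7.h673.SP.Bet

/-!
# Sparse windows between consecutive powers, formed by the values of functions of rapid growth; tuples
-/

set_option autoImplicit false

namespace Pool.Agent.Run7.h673.SP

open Finset Filter Topology
open Pool.Agent.N384.MQ (ev_log_pow ev_log_ge)
open Run7.h337.MK (cnt prod_approx delta_exists g_ge_one)

variable {g : ℝ → ℝ} {δ C L₀ : ℝ}

/-- `(y, x]` is a range of length at least `x / log ^ a X` with `X ^ ((d + 1) / 3) log ^ C X ≤ f y` and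
`f x ≤ n ^ d / log ^ W X` -/
def Rgp (g : ℝ → ℝ) (d a C W X n x y : ℕ) : Prop :=
  y < x ∧ (x : ℝ) ≤ Real.log X ^ a * ((x - y : ℕ) : ℝ) ∧
    (X : ℝ) ^ (((d + 1 : ℕ) : ℝ) / 3) * Real.log X ^ C ≤ ff g y ∧ ff g x * Real.log X ^ W ≤ (n : ℝ) ^ d

lemma Rgp.mono {d a C C' W W' X n x y : ℕ} (hL : 1 ≤ Real.log X) (hC : C ≤ C') (hW : W ≤ W')
    (h : Rgp g d a C' W' X n x y) : Rgp g d a C W X n x y := by
  obtain ⟨h1, h2, h3, h4⟩ := h
  refine ⟨h1, h2, le_trans ?_ h3, le_trans ?_ h4⟩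
  · apply mul_le_mul_of_nonneg_left _ (by positivity)
    exact pow_le_pow_right₀ hL hC
  · apply mul_le_mul_of_nonneg_left _ (ff_pos g x).le
    exact pow_le_pow_right₀ hL hW

/-- the number of the `k` in `(y, x]` for which `m + κ ⌊f k⌋` is a prime strictly between `A` and `B` -/
noncomputable def nb (g : ℝ → ℝ) (x y : ℕ) (κ : ℤ) (A B m : ℕ) : ℕ :=
  ((Ioc y x).filter fun k => (A : ℤ) < (m : ℤ) + κ * (val g k : ℕ) ∧ (m : ℤ) + κ * (val g k : ℕ) < (B : ℤ) ∧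
    ((m : ℤ) + κ * (val g k : ℕ)).toNat.Prime).card

lemma nb_le (g : ℝ → ℝ) (x y : ℕ) (κ : ℤ) (A B m : ℕ) : nb g x y κ A B m ≤ x - y := by
  unfold nb
  refine (card_filter_le _ _).trans ?_
  rw [Nat.card_Ioc]

theorem Fast.bet (h : Fast g δ C L₀) (d : ℕ) (hd : 1 ≤ d) (T U a : ℕ) (ε : ℝ) (hε : 0 < ε) (hε1 : ε ≤ 1) :
    ∃ C' W X₀ : ℕ, ∀ X : ℕ, X₀ ≤ X →
    ∃ E : Finset ℕ, (E.card : ℝ) ≤ X / Real.log X ^ U ∧ ∀ n : ℕ, 1 ≤ n → n ≤ X → n ∉ E →
    ((X : ℝ) ≤ n * Real.log X ^ (U + 1) ∧ 1 ≤ Real.log n) ∧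
    ∀ x y : ℕ, Rgp g d a C' W X n x y → ∀ κ : ℤ, κ ≠ 0 → (κ.natAbs : ℝ) ≤ Real.log X ^ T →
    ∃ F : Finset ℕ, (F.card : ℝ) ≤ (n : ℝ) ^ d / Real.log X ^ U ∧
      ∀ m ∈ Ioo (n ^ (d + 1)) ((n + 1) ^ (d + 1)), m ∉ F → IsCoprime (m : ℤ) κ →
        |(nb g x y κ (n ^ (d + 1)) ((n + 1) ^ (d + 1)) m : ℝ) -
          κ.natAbs / (Nat.totient κ.natAbs : ℝ) * (((x - y : ℕ) : ℝ) / ((d + 1) * Real.log n))| ≤
          ε * (κ.natAbs / (Nat.totient κ.natAbs : ℝ) * (((x - y : ℕ) : ℝ) / ((d + 1) * Real.log n))) := by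
  obtain ⟨V, hV⟩ := pow_off d hd T U ε hε hε1
  obtain ⟨D, N₁, h1⟩ := h.off a 1 V
  obtain ⟨C₁, W₁, N₂, h2⟩ := hV D
  obtain ⟨N₃, hev⟩ := eventually_atTop.1 ((ev_log_ge (2 ^ (d + 1) + 2)).and (ev_log_pow (U + 1 + (W₁ + 1) + 1) 2))
  refine ⟨C₁ + 1, W₁ + 1, N₁ + N₂ + N₃ + 3, fun X hX => ?_⟩
  obtain ⟨l1, l2⟩ := hev X (by omega)
  obtain ⟨E, hE1, hE2⟩ := h2 X (by omega)
  refine ⟨E, hE1, fun n hn1 hnX hnE => ?_⟩
  obtain ⟨⟨b1, b2⟩, b3⟩ := hE2 n hn1 hnX hnE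
  refine ⟨⟨b1, b2⟩, fun x y hr κ hκ hκT => ?_⟩
  obtain ⟨r1, r2, r3, r4⟩ := hr
  have hX1 : (1 : ℝ) ≤ X := by exact_mod_cast (by omega : 1 ≤ X)
  have hX0 : (0 : ℝ) < X := by linarith
  obtain ⟨L, hL⟩ : ∃ L, L = Real.log (X : ℝ) := ⟨_, rfl⟩
  obtain ⟨Z, hZ⟩ : ∃ Z : ℕ, Z = (X + 1) ^ (d + 1) := ⟨_, rfl⟩
  rw [← hZ] at b3
  rw [← hL] at l1 l2 b1 b3 hE1 r2 r3 r4 hκT ⊢
  have h2p : (1 : ℝ) ≤ 2 ^ (d + 1) := one_le_pow₀ (by norm_num)
  have hL2 : 2 ≤ L := by linarith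
  have hL0 : 0 < L := by linarith
  have hL1 : 1 ≤ L := by linarith
  have hpow : ∀ e : ℕ, 1 ≤ L ^ e := fun e => one_le_pow₀ hL1
  have hn0 : (0 : ℝ) < n := by exact_mod_cast hn1
  have hXZ : X ≤ Z := by
    rw [hZ, pow_succ]
    calc X ≤ X + 1 := Nat.le_succ _
      _ ≤ (X + 1) ^ d * (X + 1) := Nat.le_mul_of_pos_left _ (by positivity)
  have hZ0 : (0 : ℝ) < Z := by
    have : (X : ℝ) ≤ Z := by exact_mod_cast hXZ
    linarith
  have hZle : (Z : ℝ) ≤ 2 ^ (d + 1) * (X : ℝ) ^ (d + 1) := by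
    rw [hZ, ← mul_pow]
    push_cast
    apply pow_le_pow_left₀ (by positivity)
    linarith
  have hLM : L ≤ Real.log Z := by
    rw [hL]
    exact Real.log_le_log hX0 (by exact_mod_cast hXZ)
  have hX3 : 1 ≤ (X : ℝ) ^ (((d + 1 : ℕ) : ℝ) / 3) := Real.one_le_rpow hX1 (by positivity)
  have hZ3 : (Z : ℝ) ^ (1 / 3 : ℝ) ≤ ff g y := by
    have h2 : (Z : ℝ) ^ (1 / 3 : ℝ) ≤ 2 ^ (d + 1) * (X : ℝ) ^ (((d + 1 : ℕ) : ℝ) / 3) := by
      calc (Z : ℝ) ^ (1 / 3 : ℝ) ≤ (2 ^ (d + 1) * (X : ℝ) ^ (d + 1)) ^ (1 / 3 : ℝ) :=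
            Real.rpow_le_rpow hZ0.le hZle (by norm_num)
        _ = (2 ^ (d + 1)) ^ (1 / 3 : ℝ) * ((X : ℝ) ^ (d + 1)) ^ (1 / 3 : ℝ) :=
            Real.mul_rpow (by positivity) (by positivity)
        _ ≤ 2 ^ (d + 1) * (X : ℝ) ^ (((d + 1 : ℕ) : ℝ) / 3) := by
            apply mul_le_mul
            · calc ((2 : ℝ) ^ (d + 1)) ^ (1 / 3 : ℝ) ≤ ((2 : ℝ) ^ (d + 1)) ^ (1 : ℝ) :=
                    Real.rpow_le_rpow_of_exponent_le h2p (by norm_num)
                _ = _ := Real.rpow_one _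
            · rw [← Real.rpow_natCast, ← Real.rpow_mul hX0.le]
              apply le_of_eq
              congr 1
              ring
            · positivity
            · positivity
    refine h2.trans (le_trans ?_ r3)
    rw [mul_comm]
    apply mul_le_mul_of_nonneg_left _ (by linarith)
    calc (2 : ℝ) ^ (d + 1) ≤ L := by linarith
      _ = L ^ 1 := (pow_one L).symm
      _ ≤ L ^ (C₁ + 1) := pow_le_pow_right₀ hL1 (by omega)
  have hndX : (n : ℝ) ^ d ≤ Z := by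
    rw [hZ]
    have e1 : n ^ d ≤ (X + 1) ^ (d + 1) :=
      (Nat.pow_le_pow_left (by omega : n ≤ X + 1) d).trans (Nat.pow_le_pow_right (by omega) (by omega))
    exact_mod_cast e1
  have hffx : ff g x ≤ (n : ℝ) ^ d := le_trans (le_mul_of_one_le_right (ff_pos g x).le (hpow _)) r4
  obtain ⟨o1, o2, o3⟩ := h1 Z (by omega) x y r1 (r2.trans (by
    apply mul_le_mul_of_nonneg_right _ (Nat.cast_nonneg _)
    exact pow_le_pow_left₀ hL0.le hLM _)) hZ3 (by rw [Nat.cast_one, one_mul]; exact hffx.trans hndX)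
  have hq : (X : ℝ) ^ (((d + 1 : ℕ) : ℝ) / 3) * L ^ C₁ ≤ val g y := by
    have e1 : ff g y < val g y + 1 := by
      unfold val
      exact Nat.lt_floor_add_one _
    rw [pow_succ] at r3
    have e2 : 1 ≤ (X : ℝ) ^ (((d + 1 : ℕ) : ℝ) / 3) * L ^ C₁ := by
      have := hpow C₁
      nlinarith
    nlinarith
  have hQ : ((val g x + 1 : ℕ) : ℝ) * L ^ W₁ ≤ (n : ℝ) ^ d := by
    push_cast
    have e1 : (val g x : ℝ) ≤ ff g x := by
      unfold val
      exact Nat.floor_le (ff_pos g x).le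
    have e2 : ff g x * L ^ W₁ * 2 ≤ (n : ℝ) ^ d := by
      calc ff g x * L ^ W₁ * 2 ≤ ff g x * L ^ W₁ * L :=
            mul_le_mul_of_nonneg_left hL2 (mul_nonneg (ff_pos g x).le (by positivity))
        _ = ff g x * L ^ (W₁ + 1) := by rw [pow_succ]; ring
        _ ≤ (n : ℝ) ^ d := r4
    have e3 : L ^ W₁ * 2 ≤ (n : ℝ) ^ d := by
      have e5 : L ^ (W₁ + 1) * 2 ≤ n := by
        have e6 : (L ^ (W₁ + 1) * 2) * L ^ (U + 1) ≤ n * L ^ (U + 1) := by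
          calc (L ^ (W₁ + 1) * 2) * L ^ (U + 1) = 2 * L ^ (U + 1 + (W₁ + 1)) := by rw [pow_add]; ring
            _ ≤ 2 * L ^ (U + 1 + (W₁ + 1) + 1) := by
                apply mul_le_mul_of_nonneg_left _ (by norm_num)
                exact pow_le_pow_right₀ hL1 (by omega)
            _ ≤ X := l2
            _ ≤ _ := b1
        exact le_of_mul_le_mul_right e6 (by positivity)
      have e7 : (n : ℝ) ≤ (n : ℝ) ^ d := le_self_pow₀ (by exact_mod_cast hn1) (by omega)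
      have e8 : L ^ W₁ ≤ L ^ (W₁ + 1) := pow_le_pow_right₀ hL1 (by omega)
      linarith
    have e4 : (val g x : ℝ) * L ^ W₁ ≤ ff g x * L ^ W₁ := mul_le_mul_of_nonneg_right e1 (by positivity)
    linarith
  obtain ⟨F, hF1, hF2⟩ := b3 (val g y) (val g x + 1) (dis g x y) hq o2 hQ o3 κ hκ hκT
  refine ⟨F, hF1, fun m hm hmF hcop => ?_⟩
  obtain ⟨f1, f2⟩ := hF2 m hm hmF
  have h3 := f2 hcop
  rw [cnt_dis g x y _ o1] at h3
  have hK0 : (0 : ℝ) < ((x - y : ℕ) : ℝ) := by exact_mod_cast (by omega : 0 < x - y)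
  have e1 : (nb g x y κ (n ^ (d + 1)) ((n + 1) ^ (d + 1)) m : ℝ) = ((x - y : ℕ) : ℝ) *
      ((((Ioc y x).filter fun k => ((m : ℤ) + (0 + κ * (val g k : ℕ))).toNat.Prime).card : ℝ) / ((x - y : ℕ) : ℝ)) := by
    unfold nb
    have : (Ioc y x).filter (fun k => ((n ^ (d + 1) : ℕ) : ℤ) < (m : ℤ) + κ * (val g k : ℕ) ∧
        (m : ℤ) + κ * (val g k : ℕ) < (((n + 1) ^ (d + 1) : ℕ) : ℤ) ∧ ((m : ℤ) + κ * (val g k : ℕ)).toNat.Prime) =
        (Ioc y x).filter fun k => ((m : ℤ) + (0 + κ * (val g k : ℕ))).toNat.Prime := by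
      apply filter_congr
      intro k hk
      rw [zero_add]
      have h4 := f1 (val g k) (o1 k hk)
      exact ⟨fun h => h.2.2, fun h => ⟨h4.1, h4.2, h⟩⟩
    rw [this]
    field_simp
  rw [e1]
  have e2 : ∀ A G M : ℝ, |A - G / M| ≤ ε * (G / M) →
      |((x - y : ℕ) : ℝ) * A - G * (((x - y : ℕ) : ℝ) / M)| ≤ ε * (G * (((x - y : ℕ) : ℝ) / M)) := by
    intro A G M hA
    have e3 : ((x - y : ℕ) : ℝ) * A - G * (((x - y : ℕ) : ℝ) / M) = ((x - y : ℕ) : ℝ) * (A - G / M) := by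
      ring
    rw [e3, abs_mul, abs_of_pos hK0]
    refine (mul_le_mul_of_nonneg_left hA hK0.le).trans (le_of_eq ?_)
    ring
  exact e2 _ _ _ h3

open Classical in
/-- tuples between consecutive powers, the first members in an arbitrary dense set -/
theorem bet_tuples (d : ℕ) (hd : 1 ≤ d) (r : ℕ) (g : Fin r → ℝ → ℝ) (hg : ∀ i, Rapid (g i)) (T U a : ℕ) (ε : ℝ)
    (hε : 0 < ε) (hε1 : ε ≤ 1) :
    ∃ C W X₀ : ℕ, ∀ X : ℕ, X₀ ≤ X →
    ∃ E : Finset ℕ, (E.card : ℝ) ≤ X / Real.log X ^ U ∧ ∀ n : ℕ, 1 ≤ n → n ≤ X → n ∉ E →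
    ((X : ℝ) ≤ n * Real.log X ^ (T + U + 2 * r + 5) ∧ 1 ≤ Real.log n) ∧
    (|(((Ioo (n ^ (d + 1)) ((n + 1) ^ (d + 1))).filter Nat.Prime).card : ℝ) - (n : ℝ) ^ d / Real.log n| ≤
      ε * ((n : ℝ) ^ d / Real.log n)) ∧
    ∀ x y : Fin r → ℕ, (∀ i, Rgp (g i) d a C W X n (x i) (y i)) →
    ∀ κ : Fin r → ℤ, (∀ i, κ i ≠ 0 ∧ ((κ i).natAbs : ℝ) ≤ Real.log X ^ T) →
    ∀ P ⊆ Ioo (n ^ (d + 1)) ((n + 1) ^ (d + 1)), (∀ m ∈ P, ∀ i, IsCoprime (m : ℤ) (κ i)) →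
      (n : ℝ) ^ d ≤ P.card * Real.log X ^ T →
    |∑ m ∈ P, ∏ i, (nb (g i) (x i) (y i) (κ i) (n ^ (d + 1)) ((n + 1) ^ (d + 1)) m : ℝ) -
      P.card * ∏ i, ((κ i).natAbs / (Nat.totient (κ i).natAbs : ℝ) * (((x i - y i : ℕ) : ℝ) / ((d + 1) * Real.log n)))| ≤
      ε * (P.card * ∏ i, ((κ i).natAbs / (Nat.totient (κ i).natAbs : ℝ) *
        (((x i - y i : ℕ) : ℝ) / ((d + 1) * Real.log n)))) := by
  choose δ Cf L₀ hf using fun i => (hg i).fast
  obtain ⟨η, hη0, hη1, hη2, hη3⟩ := delta_exists r (ε / 2) (by positivity)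
  obtain ⟨U', hU⟩ : ∃ U', U' = T + U + 2 * r + 4 := ⟨_, rfl⟩
  choose C' W' N' hw using fun i => (hf i).bet d hd T U' a η hη0 hη1
  obtain ⟨Vp, Cp, Dp, Xp, hp⟩ := Run7.h337.MK.pow_all t_maj d hd T U' ε hε hε1
  obtain ⟨Ct, hCt⟩ : ∃ Ct, Ct = ∑ i, C' i := ⟨_, rfl⟩
  obtain ⟨Wt, hWt⟩ : ∃ Wt, Wt = ∑ i, W' i := ⟨_, rfl⟩
  obtain ⟨Nt, hNt⟩ : ∃ Nt, Nt = ∑ i, N' i := ⟨_, rfl⟩
  have hCi : ∀ i, C' i ≤ Ct := fun i => by rw [hCt]; exact single_le_sum (fun _ _ => Nat.zero_le _) (mem_univ i)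
  have hWi : ∀ i, W' i ≤ Wt := fun i => by rw [hWt]; exact single_le_sum (fun _ _ => Nat.zero_le _) (mem_univ i)
  have hNi : ∀ i, N' i ≤ Nt := fun i => by rw [hNt]; exact single_le_sum (fun _ _ => Nat.zero_le _) (mem_univ i)
  obtain ⟨N₁, hev⟩ := eventually_atTop.1 (((ev_log_ge ((d : ℝ) + 2)).and (ev_log_ge ((r : ℝ) + 1))).and
    (ev_log_ge (4 * (r + 1) / ε)))
  refine ⟨Ct, Wt, Nt + N₁ + Xp + 3, fun X hX => ?_⟩
  obtain ⟨⟨l1, l3⟩, l2⟩ := hev X (by omega)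
  have hX0 : (0 : ℝ) < X := by exact_mod_cast (by omega : 0 < X)
  have hE := fun i => hw i X (by have := hNi i; omega)
  choose E hE1 hE2 using hE
  obtain ⟨Ep, hEp1, hEp2⟩ := hp X (by omega)
  obtain ⟨L, hL⟩ : ∃ L, L = Real.log (X : ℝ) := ⟨_, rfl⟩
  rw [← hL] at l1 l2 l3 hEp1
  simp only [← hL] at hE1 hE2 hEp2 ⊢
  have hd0 : (0 : ℝ) ≤ d := Nat.cast_nonneg _
  have hr0 : (0 : ℝ) ≤ r := Nat.cast_nonneg _
  have hL0 : 0 < L := by linarith
  have hL1 : 1 ≤ L := by linarith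
  refine ⟨univ.biUnion E ∪ Ep, ?_, fun n hn1 hnX hnE => ?_⟩
  · have h1 : ((univ.biUnion E).card : ℝ) ≤ r * (X / L ^ U') := by
      have h1 : ((univ.biUnion E).card : ℝ) ≤ ∑ i, ((E i).card : ℝ) := by exact_mod_cast card_biUnion_le
      refine h1.trans ((sum_le_sum fun i _ => hE1 i).trans ?_)
      rw [sum_const, card_univ, Fintype.card_fin, nsmul_eq_mul]
    have h2 : ((univ.biUnion E ∪ Ep).card : ℝ) ≤ (univ.biUnion E).card + Ep.card := by exact_mod_cast card_union_le _ _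
    have h3 : ((r : ℝ) + 1) * (X / L ^ U') ≤ X / L ^ U := by
      calc ((r : ℝ) + 1) * (X / L ^ U') ≤ L * (X / L ^ U') := mul_le_mul_of_nonneg_right l3 (by positivity)
        _ ≤ L * (X / L ^ (U + 1)) := by
            apply mul_le_mul_of_nonneg_left _ hL0.le
            apply div_le_div_of_nonneg_left hX0.le (by positivity)
            exact pow_le_pow_right₀ hL1 (by omega)
        _ = X / L ^ U := by
            rw [pow_succ]
            field_simp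
    linarith
  · rw [mem_union, not_or] at hnE
    obtain ⟨hnE1, hnE2⟩ := hnE
    obtain ⟨⟨n1, n2⟩, n3, -⟩ := hEp2 n hn1 hnX hnE2
    refine ⟨⟨?_, n2⟩, n3, fun x y hr κ hκ P hPI hPc hPn => ?_⟩
    · refine n1.trans (le_of_eq ?_)
      rw [hU]
    have hn0 : (0 : ℝ) < n := by exact_mod_cast hn1
    have hnd : (0 : ℝ) < (n : ℝ) ^ d := by positivity
    have hln : Real.log n ≤ L := by
      rw [hL]
      exact Real.log_le_log hn0 (by exact_mod_cast hnX)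
    have hFi : ∀ i, ∃ F : Finset ℕ, (F.card : ℝ) ≤ (n : ℝ) ^ d / L ^ U' ∧
      ∀ m ∈ Ioo (n ^ (d + 1)) ((n + 1) ^ (d + 1)), m ∉ F → IsCoprime (m : ℤ) (κ i) →
        |(nb (g i) (x i) (y i) (κ i) (n ^ (d + 1)) ((n + 1) ^ (d + 1)) m : ℝ) -
          (κ i).natAbs / (Nat.totient (κ i).natAbs : ℝ) * (((x i - y i : ℕ) : ℝ) / ((d + 1) * Real.log n))| ≤
          η * ((κ i).natAbs / (Nat.totient (κ i).natAbs : ℝ) * (((x i - y i : ℕ) : ℝ) / ((d + 1) * Real.log n))) := by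
      intro i
      have hni : n ∉ E i := by
        intro h
        apply hnE1
        exact mem_biUnion.2 ⟨i, mem_univ _, h⟩
      obtain ⟨-, h2⟩ := hE2 i n hn1 hnX hni
      exact h2 (x i) (y i) ((hr i).mono (by rw [← hL]; exact hL1) (hCi i) (hWi i)) (κ i) (hκ i).1 (hκ i).2
    choose F hF1 hF2 using hFi
    obtain ⟨M, hM⟩ : ∃ M : ℝ, M = ((d : ℝ) + 1) * Real.log n := ⟨_, rfl⟩
    have hM0 : 0 < M := by rw [hM]; positivity
    have hML : M ≤ L ^ 2 := by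
      rw [hM, sq]
      exact mul_le_mul (by linarith) hln (by linarith) hL0.le
    simp only [← hM] at hF2 ⊢
    obtain ⟨G, hG⟩ : ∃ G : Fin r → ℝ, G = fun i => (κ i).natAbs / (Nat.totient (κ i).natAbs : ℝ) * (((x i - y i : ℕ) : ℝ) / M) :=
      ⟨_, rfl⟩
    have hGi : ∀ i, (κ i).natAbs / (Nat.totient (κ i).natAbs : ℝ) * (((x i - y i : ℕ) : ℝ) / M) = G i := fun i => by rw [hG]
    simp only [hGi] at hF2 ⊢
    have hKi : ∀ i, (0 : ℝ) < ((x i - y i : ℕ) : ℝ) := fun i => by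
      have := (hr i).1
      exact_mod_cast (by omega : 0 < x i - y i)
    have hG1 : ∀ i, ((x i - y i : ℕ) : ℝ) / M ≤ G i := fun i => by
      rw [← hGi i]
      exact le_mul_of_one_le_left (div_nonneg (hKi i).le hM0.le) (g_ge_one (κ i) (hκ i).1)
    have hG0 : ∀ i, 0 ≤ G i := fun i => le_trans (div_nonneg (hKi i).le hM0.le) (hG1 i)
    obtain ⟨Pr, hPr⟩ : ∃ Pr, Pr = ∏ i, G i := ⟨_, rfl⟩
    have hPr0 : 0 ≤ Pr := by rw [hPr]; exact prod_nonneg fun i _ => hG0 i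
    rw [← hPr]
    have hKPr : ∏ i, ((x i - y i : ℕ) : ℝ) ≤ L ^ (2 * r) * Pr := by
      rw [hPr]
      calc ∏ i, ((x i - y i : ℕ) : ℝ) ≤ ∏ i, (L ^ 2 * G i) := by
            apply Finset.prod_le_prod
            · intro i _
              exact (hKi i).le
            · intro i _
              have := hG1 i
              rw [div_le_iff₀ hM0] at this
              refine this.trans ?_
              rw [mul_comm]
              exact mul_le_mul_of_nonneg_right hML (hG0 i)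
        _ = L ^ (2 * r) * ∏ i, G i := by
            rw [prod_mul_distrib, prod_const, card_univ, Fintype.card_fin, ← pow_mul]
    obtain ⟨E', hE'⟩ : ∃ E' : Finset ℕ, E' = univ.biUnion F := ⟨_, rfl⟩
    have hE'c : (E'.card : ℝ) ≤ r * ((n : ℝ) ^ d / L ^ U') := by
      have h1 : (E'.card : ℝ) ≤ ∑ i, ((F i).card : ℝ) := by
        rw [hE']
        exact_mod_cast card_biUnion_le
      refine h1.trans ((sum_le_sum fun i _ => hF1 i).trans ?_)
      rw [sum_const, card_univ, Fintype.card_fin, nsmul_eq_mul]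
    have e1 : (P.card : ℝ) * Pr = ∑ m ∈ P, Pr := by rw [sum_const, nsmul_eq_mul]
    have e2 : ∀ m ∈ P, |∏ i, (nb (g i) (x i) (y i) (κ i) (n ^ (d + 1)) ((n + 1) ^ (d + 1)) m : ℝ) - Pr| ≤
        ε / 2 * Pr + (if m ∈ E' then (L ^ (2 * r) + 1) * Pr else 0) := by
      intro m hm
      by_cases hnE : m ∈ E'
      · rw [if_pos hnE]
        have h3 : ∏ i, (nb (g i) (x i) (y i) (κ i) (n ^ (d + 1)) ((n + 1) ^ (d + 1)) m : ℝ) ≤ L ^ (2 * r) * Pr := by
          refine le_trans ?_ hKPr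
          apply Finset.prod_le_prod
          · intro i _
            exact Nat.cast_nonneg _
          · intro i _
            exact_mod_cast nb_le (g i) (x i) (y i) (κ i) (n ^ (d + 1)) ((n + 1) ^ (d + 1)) m
        have h4 : 0 ≤ ∏ i, (nb (g i) (x i) (y i) (κ i) (n ^ (d + 1)) ((n + 1) ^ (d + 1)) m : ℝ) :=
          prod_nonneg fun i _ => Nat.cast_nonneg _
        have h5 : 0 ≤ ε / 2 * Pr := by positivity
        have h6 : 0 ≤ L ^ (2 * r) * Pr := by positivity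
        rw [abs_le]
        constructor <;> linarith
      · rw [if_neg hnE, add_zero, hPr]
        apply prod_approx _ _ η (ε / 2) hη0.le hη1 hG0 hη2 hη3
        intro i
        have hnEi : m ∉ F i := by
          intro h
          apply hnE
          rw [hE']
          exact mem_biUnion.2 ⟨i, mem_univ _, h⟩
        exact hF2 i m (hPI hm) hnEi (hPc m hm i)
    rw [e1, ← sum_sub_distrib]
    have h6 : ∑ m ∈ P, (if m ∈ E' then (L ^ (2 * r) + 1) * Pr else 0) ≤ E'.card * ((L ^ (2 * r) + 1) * Pr) := by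
      rw [← sum_filter, sum_const, nsmul_eq_mul]
      apply mul_le_mul_of_nonneg_right _ (by positivity)
      have : (P.filter fun m => m ∈ E').card ≤ E'.card := by
        apply card_le_card
        intro m hm
        exact (mem_filter.1 hm).2
      exact_mod_cast this
    have h7 : (E'.card : ℝ) * ((L ^ (2 * r) + 1) * Pr) ≤ ε / 2 * (P.card * Pr) := by
      obtain ⟨ec, hec⟩ : ∃ ec : ℝ, ec = E'.card := ⟨_, rfl⟩
      obtain ⟨pc, hpc⟩ : ∃ pc : ℝ, pc = P.card := ⟨_, rfl⟩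
      have hpc0 : 0 ≤ pc := by rw [hpc]; exact Nat.cast_nonneg _
      have hLr : 0 < L ^ (2 * r) := pow_pos hL0 _
      rw [← hpc] at hPn
      rw [← hec] at hE'c
      rw [← hec, ← hpc]
      clear h6 e2 e1 hec hpc
      have h8 : (n : ℝ) ^ d / L ^ U' ≤ pc / L ^ (2 * r + 2) := by
        rw [div_le_div_iff₀ (by positivity) (by positivity)]
        calc (n : ℝ) ^ d * L ^ (2 * r + 2) ≤ (pc * L ^ T) * L ^ (2 * r + 2) := mul_le_mul_of_nonneg_right hPn (by positivity)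
          _ = pc * L ^ (T + (2 * r + 2)) := by rw [mul_assoc, ← pow_add]
          _ ≤ pc * L ^ U' := by
              apply mul_le_mul_of_nonneg_left _ hpc0
              apply pow_le_pow_right₀ hL1
              omega
      have h9 : (L ^ (2 * r) + 1) ≤ 2 * L ^ (2 * r) := by
        have : (1 : ℝ) ≤ L ^ (2 * r) := one_le_pow₀ hL1
        linarith
      have h10 : 2 * (r : ℝ) / L ≤ ε / 2 := by
        rw [div_le_iff₀ hL0]
        rw [div_le_iff₀ hε] at l2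
        linarith
      calc ec * ((L ^ (2 * r) + 1) * Pr) ≤ (r * (pc / L ^ (2 * r + 2))) * ((2 * L ^ (2 * r)) * Pr) := by
            apply mul_le_mul _ (mul_le_mul_of_nonneg_right h9 hPr0) (by positivity) (by positivity)
            exact hE'c.trans (mul_le_mul_of_nonneg_left h8 (Nat.cast_nonneg _))
        _ = (pc * Pr) * (2 * r / L ^ 2) := by
            rw [pow_add]
            field_simp
        _ ≤ (pc * Pr) * (ε / 2) := by
            apply mul_le_mul_of_nonneg_left _ (by positivity)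
            refine le_trans ?_ h10
            apply div_le_div_of_nonneg_left (by positivity) hL0
            rw [sq]
            nlinarith
        _ = ε / 2 * (pc * Pr) := by ring
    calc |∑ m ∈ P, (∏ i, (nb (g i) (x i) (y i) (κ i) (n ^ (d + 1)) ((n + 1) ^ (d + 1)) m : ℝ) - Pr)|
        ≤ ∑ m ∈ P, |∏ i, (nb (g i) (x i) (y i) (κ i) (n ^ (d + 1)) ((n + 1) ^ (d + 1)) m : ℝ) - Pr| := abs_sum_le_sum_abs _ _
      _ ≤ ∑ m ∈ P, (ε / 2 * Pr + (if m ∈ E' then (L ^ (2 * r) + 1) * Pr else 0)) := sum_le_sum e2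
      _ = ε / 2 * (P.card * Pr) + ∑ m ∈ P, (if m ∈ E' then (L ^ (2 * r) + 1) * Pr else 0) := by
          rw [sum_add_distrib, sum_const, nsmul_eq_mul]
          ring
      _ ≤ ε / 2 * (P.card * Pr) + ε / 2 * (P.card * Pr) := by linarith
      _ = ε * (∑ m ∈ P, Pr) := by
          rw [sum_const, nsmul_eq_mul]
          ring

/-- the number of the tuples as a sum -/
lemma btuple_sum (r : ℕ) (g : Fin r → ℝ → ℝ) (x y : Fin r → ℕ) (κ : Fin r → ℤ) (A B : ℕ) (P : Finset ℕ) :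
    (((P ×ˢ Fintype.piFinset fun i => Ioc (y i) (x i)).filter fun w => ∀ i,
      (A : ℤ) < (w.1 : ℤ) + κ i * (val (g i) (w.2 i) : ℕ) ∧ (w.1 : ℤ) + κ i * (val (g i) (w.2 i) : ℕ) < (B : ℤ) ∧
        ((w.1 : ℤ) + κ i * (val (g i) (w.2 i) : ℕ)).toNat.Prime).card : ℝ) =
    ∑ n ∈ P, ∏ i, (nb (g i) (x i) (y i) (κ i) A B n : ℝ) := by
  classical
  rw [card_filter, sum_product]
  push_cast
  refine sum_congr rfl fun n _ => ?_
  have h1 : ((Fintype.piFinset fun i => Ioc (y i) (x i)).filter fun k => ∀ i,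
      (A : ℤ) < (n : ℤ) + κ i * (val (g i) (k i) : ℕ) ∧ (n : ℤ) + κ i * (val (g i) (k i) : ℕ) < (B : ℤ) ∧
        ((n : ℤ) + κ i * (val (g i) (k i) : ℕ)).toNat.Prime).card = ∏ i, nb (g i) (x i) (y i) (κ i) A B n := by
    unfold nb
    rw [← Fintype.card_piFinset]
    congr 1
    ext f
    simp only [mem_filter, Fintype.mem_piFinset]
    constructor
    · exact fun h j => ⟨h.1 j, h.2 j⟩
    · exact fun h => ⟨fun j => (h j).1, fun j => (h j).2⟩
  have h2 : (∏ i, (nb (g i) (x i) (y i) (κ i) A B n : ℝ)) = ((∏ i, nb (g i) (x i) (y i) (κ i) A B n : ℕ) : ℝ) := by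
    push_cast
    rfl
  rw [h2, ← h1, card_filter]
  push_cast
  rfl

end Pool.Agent.Run7.h673.SP
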