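import Pool.Agent.Run7.h673.SP.Tcl
import Pool.Agent.W93.TD2
import Pool.Agent.W93.AU1
import Pool.Agent.Y885.GV

/-!
# Correlations with arbitrary coefficients over a law with a small large spectrum
-/

set_option autoImplicit false

namespace Pool.Agent.Run7.h673.SP

open Finset Filter Topology
open Pool.Agent.N193.PS (few_near)
open Pool.Agent.H807R2.Dav (ee norm_ee ee_add)
open Pool.Agent.H373R2.T7
open Pool.Agent.Y885 (TLaw Thin Spec char_mod)
open Pool.Agent.W93.DG (FF FF_pars)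
open Pool.Agent.W93.RD (EE)

variable {g : ℝ → ℝ} {δ C L₀ : ℝ}

/-- the large spectrum of the multiples of the values is small -/
theorem Fast.few (h : Fast g δ C L₀) (a : ℕ) (κ : ℤ) (hκ : κ ≠ 0) (H V : ℕ) : ∃ C₀ m₀ : ℕ, ∀ m : ℕ, m₀ ≤ m → ∀ p, SB g a m p →
    ∀ e j : ℕ, 2 ^ e ≤ m ^ H → 1 ≤ j → j ≤ m ^ H → ∀ cc : ℤ, ∀ K, K = m + e →
    (Spec 2 V K (range (2 ^ m)) p (fun v => (j : ℤ) * (cc + κ * (v : ℕ)))).card ≤ K ^ C₀ := by
  obtain ⟨V', hV'⟩ : ∃ V', V' = 2 * (V + a) + 1 := ⟨_, rfl⟩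
  obtain ⟨A, hA⟩ := h.valsum V'
  obtain ⟨X₀, hX₀⟩ := eventually_atTop.mp hA
  obtain ⟨X₁, hX₁⟩ := eventually_atTop.mp ((Real.tendsto_log_atTop.comp (tendsto_natCast_atTop_atTop (R := ℝ))).eventually
    (eventually_ge_atTop (2 ^ (V + a) + 1 : ℝ)))
  obtain ⟨m₀, hm₀⟩ := h.sizes a (X₀ + X₁ + 3)
  obtain ⟨m₂, hm₂⟩ : ∃ m₂ : ℕ, ∀ m : ℕ, m₂ ≤ m → m ^ H < 2 ^ m := by
    have h1 := (isLittleO_pow_const_const_pow_of_one_lt (R := ℝ) H (by norm_num : (1 : ℝ) < 2)).bound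
      (show (0 : ℝ) < 1 / 2 by norm_num)
    obtain ⟨m₂, h2⟩ := eventually_atTop.mp h1
    refine ⟨m₂, fun m hm => ?_⟩
    have h3 := h2 m hm
    rw [Real.norm_of_nonneg (by positivity), Real.norm_of_nonneg (by positivity)] at h3
    have h4 : (0 : ℝ) < 2 ^ m := by positivity
    have h5 : (m : ℝ) ^ H < 2 ^ m := by linarith
    exact_mod_cast h5
  obtain ⟨E, hE⟩ : ∃ E, E = H + A + a + 2 := ⟨_, rfl⟩
  refine ⟨2 * E + 1, m₀ + m₂ + κ.natAbs + 15, fun m hm p hp e j he hg1 hg2 cc K hK => ?_⟩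
  have hsum := SB_sum a m p hp
  have hm15 : 15 ≤ m := by omega
  have hem : e < m := by
    by_contra hcon
    push Not at hcon
    have h1 : 2 ^ m ≤ 2 ^ e := Nat.pow_le_pow_right (by norm_num) hcon
    have h2 := hm₂ m (by omega)
    omega
  have hK2 : K ≤ 2 * m := by omega
  obtain ⟨x, y, hxy, hy, hyl, hval, hsize, hpv⟩ := id hp
  have hvalx : val g x < 2 ^ m := hval x (mem_Ioc.2 ⟨hxy, le_rfl⟩)
  obtain ⟨hxX, hs1, hs2⟩ := hm₀ m (by omega) x hvalx hsize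
  have hlogx := hX₁ x (by omega)
  simp only [Function.comp] at hlogx
  have hm1 : (1 : ℝ) ≤ m := by exact_mod_cast (by omega : 1 ≤ m)
  have hm0 : (0 : ℝ) < m := by linarith
  have hK1 : (1 : ℝ) ≤ K := by exact_mod_cast (by omega : 1 ≤ K)
  have hmK : (m : ℝ) ≤ K := by exact_mod_cast (by omega : m ≤ K)
  have hK2r : (K : ℝ) ≤ 2 * m := by exact_mod_cast hK2
  have hx0 : (0 : ℝ) < x := by exact_mod_cast (by omega : 0 < x)
  have hl0 : 0 < Real.log x := by
    have : (0 : ℝ) < 2 ^ (V + a) + 1 := by positivity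
    linarith
  have hfx := ff_pos g x
  have hN0 : (0 : ℝ) < ((x - y : ℕ) : ℝ) := by exact_mod_cast (by omega : 0 < x - y)
  obtain ⟨G, hG⟩ : ∃ G : ℤ, G = j * κ := ⟨_, rfl⟩
  have hG0 : G ≠ 0 := by
    rw [hG]
    exact mul_ne_zero (by exact_mod_cast (by omega : j ≠ 0)) hκ
  obtain ⟨M, hM⟩ : ∃ M : ℕ, M = 2 ^ (K + 1) := ⟨_, rfl⟩
  have hMpos : 0 < M := by rw [hM]; positivity
  have hM0 : (0 : ℝ) < M := by exact_mod_cast hMpos
  -- the elements of the spectrum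
  have hspec : ∀ t ∈ Spec 2 V K (range (2 ^ m)) p (fun v => (j : ℤ) * (cc + κ * (v : ℕ))),
      ∃ q : ℤ, |G * t - q * M| ≤ (m ^ E : ℕ) := by
    intro t ht
    unfold Spec at ht
    rw [mem_filter, ← hM] at ht
    obtain ⟨_, ht⟩ := ht
    by_contra hcon
    push Not at hcon
    obtain ⟨θ0, hθ0⟩ : ∃ θ0, θ0 = (t : ℝ) / (M : ℝ) := ⟨_, rfl⟩
    rw [← hθ0] at ht
    have hcond : ∀ q : ℤ, (Real.log x) ^ A ≤ |(G : ℝ) * θ0 - q| * ff g x := by
      intro q
      have h1 : ((m ^ E : ℕ) : ℤ) < |G * t - q * M| := hcon q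
      have h2 : (m : ℝ) ^ E ≤ |(G : ℝ) * t - q * M| := by
        have h3 : ((m ^ E : ℕ) : ℝ) ≤ ((|G * t - q * M| : ℤ) : ℝ) := by exact_mod_cast h1.le
        rw [Int.cast_abs] at h3
        push_cast at h3
        exact h3
      have h3 : |(G : ℝ) * t - q * M| = |(G : ℝ) * θ0 - q| * M := by
        rw [hθ0]
        have : (G : ℝ) * t - q * M = ((G : ℝ) * (t / M) - q) * M := by field_simp
        rw [this, abs_mul, abs_of_pos hM0]
      rw [h3] at h2
      have h4 : (2 : ℝ) ^ m / (m : ℝ) ^ a ≤ ff g x := by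
        rw [div_le_iff₀ (by positivity)]
        linarith
      have h5 : (m : ℝ) ^ E / M * (2 ^ m / (m : ℝ) ^ a) ≤ |(G : ℝ) * θ0 - q| * ff g x := by
        apply mul_le_mul _ h4 (by positivity) (abs_nonneg _)
        rw [div_le_iff₀ hM0]
        exact h2
      refine le_trans ?_ h5
      have h6 : (m : ℝ) ^ E / M * (2 ^ m / (m : ℝ) ^ a) = (m : ℝ) ^ (H + A + 2) / (2 * 2 ^ e) := by
        rw [hM, hE, hK]
        push_cast
        have e1 : (m : ℝ) ^ (H + A + a + 2) = (m : ℝ) ^ (H + A + 2) * (m : ℝ) ^ a := by rw [← pow_add]; congr 1; ring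
        have e2 : (2 : ℝ) ^ (m + e + 1) = 2 ^ m * 2 ^ e * 2 := by rw [pow_succ, pow_add]
        rw [e1, e2]
        field_simp
      rw [h6, le_div_iff₀ (by positivity)]
      have h7 : (Real.log x) ^ A ≤ (m : ℝ) ^ A := pow_le_pow_left₀ hl0.le hs1 A
      have h8 : (2 : ℝ) ^ e ≤ (m : ℝ) ^ H := by exact_mod_cast he
      have h9 : (2 : ℝ) ≤ m := by exact_mod_cast (by omega : 2 ≤ m)
      calc (Real.log x) ^ A * (2 * 2 ^ e) ≤ (m : ℝ) ^ A * (m * (m : ℝ) ^ H) := by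
            apply mul_le_mul h7 _ (by positivity) (by positivity)
            exact mul_le_mul h9 h8 (by positivity) (by positivity)
        _ = (m : ℝ) ^ (H + A + 1) := by rw [pow_succ, pow_add]; ring
        _ ≤ (m : ℝ) ^ (H + A + 2) := pow_le_pow_right₀ hm1 (by omega)
    have hmain := hX₀ x (by omega) ((G : ℝ) * θ0) hcond y hxy.le hy
    have h3 : ∑ v ∈ range (2 ^ m), ((p v : ℝ) : ℂ) * ee (((((j : ℤ) * (cc + κ * (v : ℕ)) : ℤ)) : ℝ) * θ0) =
        (1 / (((x - y : ℕ) : ℝ) : ℂ)) * ee (j * cc * θ0) * ∑ n ∈ Finset.Ioc y x, ee ((G : ℝ) * θ0 * (val g n : ℕ)) := by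
      rw [← sum_val g (Finset.Ioc y x) (2 ^ m) hval (fun v => ee ((G : ℝ) * θ0 * (v : ℕ))), mul_sum]
      refine sum_congr rfl fun v _ => ?_
      rw [hpv, nsmul_eq_mul]
      have h4 : ee (((((j : ℤ) * (cc + κ * (v : ℕ)) : ℤ)) : ℝ) * θ0) = ee (j * cc * θ0) * ee ((G : ℝ) * θ0 * (v : ℕ)) := by
        rw [← ee_add, hG]
        congr 1
        push_cast
        ring
      rw [h4]
      push_cast
      ring
    rw [h3, norm_mul, norm_mul, norm_ee, mul_one, norm_div, norm_one, Complex.norm_real, Real.norm_of_nonneg hN0.le] at ht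
    have h4 : 1 / ((x - y : ℕ) : ℝ) * ‖∑ n ∈ Finset.Ioc y x, ee ((G : ℝ) * θ0 * (val g n : ℕ))‖ ≤ 1 / (K : ℝ) ^ V := by
      calc 1 / ((x - y : ℕ) : ℝ) * ‖∑ n ∈ Finset.Ioc y x, ee ((G : ℝ) * θ0 * (val g n : ℕ))‖ ≤
          1 / ((x - y : ℕ) : ℝ) * (x / (Real.log x) ^ V') := mul_le_mul_of_nonneg_left hmain (by positivity)
        _ ≤ 1 / ((x - y : ℕ) : ℝ) * (((m : ℝ) ^ a * ((x - y : ℕ) : ℝ)) / (Real.log x) ^ V') := by
            apply mul_le_mul_of_nonneg_left _ (by positivity)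
            exact div_le_div_of_nonneg_right hyl (by positivity)
        _ = (m : ℝ) ^ a / (Real.log x) ^ V' := by field_simp
        _ ≤ 1 / (K : ℝ) ^ V := by
            rw [div_le_div_iff₀ (by positivity) (by positivity), one_mul]
            calc (m : ℝ) ^ a * (K : ℝ) ^ V ≤ (K : ℝ) ^ a * (K : ℝ) ^ V :=
                  mul_le_mul_of_nonneg_right (pow_le_pow_left₀ (by positivity) hmK a) (by positivity)
              _ = (K : ℝ) ^ (V + a) := by rw [← pow_add, add_comm]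
              _ ≤ (2 * (Real.log x) ^ 2) ^ (V + a) := by
                  apply pow_le_pow_left₀ (by positivity)
                  linarith
              _ = 2 ^ (V + a) * (Real.log x) ^ (2 * (V + a)) := by rw [mul_pow, ← pow_mul]
              _ ≤ Real.log x * (Real.log x) ^ (2 * (V + a)) := by
                  apply mul_le_mul_of_nonneg_right _ (by positivity)
                  linarith
              _ = (Real.log x) ^ V' := by rw [hV', pow_succ]; ring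
    linarith
  have hlt : ∀ t ∈ Spec 2 V K (range (2 ^ m)) p (fun v => (j : ℤ) * (cc + κ * (v : ℕ))), t < M := by
    intro t ht
    unfold Spec at ht
    rw [mem_filter, mem_range, ← hM] at ht
    exact ht.1
  have hcard := few_near G hG0 M (m ^ E) hMpos _ hlt hspec
  obtain ⟨S, hS⟩ : ∃ S, S = Spec 2 V K (range (2 ^ m)) p (fun v => (j : ℤ) * (cc + κ * (v : ℕ))) := ⟨_, rfl⟩
  rw [← hS] at hcard hlt
  have hcard2 : S.card ≤ K ^ (2 * E + 1) := by
    have h1 : G.natAbs ≤ m ^ E := by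
      rw [hG, Int.natAbs_mul, Int.natAbs_natCast, hE]
      calc j * κ.natAbs ≤ m ^ H * m := Nat.mul_le_mul hg2 (by omega)
        _ = m ^ (H + 1) := by rw [pow_succ]
        _ ≤ m ^ (H + A + a + 2) := Nat.pow_le_pow_right (by omega) (by omega)
    have h2 : 1 ≤ m ^ E := Nat.one_le_pow _ _ (by omega)
    calc S.card ≤ (2 * (G.natAbs + m ^ E) + 1) * (2 * m ^ E + 1) := hcard
      _ ≤ (5 * m ^ E) * (3 * m ^ E) := Nat.mul_le_mul (by omega) (by omega)
      _ = 15 * (m ^ E * m ^ E) := by ring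
      _ ≤ m * (m ^ E * m ^ E) := Nat.mul_le_mul_right _ hm15
      _ = m ^ (2 * E + 1) := by rw [pow_succ, two_mul, pow_add]; ring
      _ ≤ K ^ (2 * E + 1) := Nat.pow_le_pow_left (by omega) _
  rw [← hS]
  exact hcard2


/-- the second moment of the correlations of two bounded functions, one of them with a small Fourier transform -/
theorem var_few {ι : Type} (Ω : Finset ι) (p : ι → ℝ) (hp0 : ∀ ω ∈ Ω, 0 ≤ p ω) (hp1 : ∑ ω ∈ Ω, p ω ≤ 1) (Y : ι → ℤ)
    (X K V R : ℕ) (hX : 1 ≤ X) (hXM : 2 * X ≤ 2 ^ (K + 1)) (hK : 1 ≤ K) (hR : (Spec 2 V K Ω p Y).card ≤ R)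
    (f u : ℕ → ℝ) (N : ℕ) (hN : N ≤ X) (hf : ∀ n, N < n → f n = 0)
    (hY : ∀ ω ∈ Ω, -(X : ℤ) < Y ω ∧ N + Y ω ≤ X) (Kf Ku Su : ℝ) (hKf : 0 ≤ Kf) (hKu : 0 ≤ Ku) (hSu : 0 ≤ Su)
    (hf1 : ∀ n ∈ Icc 1 X, |f n| ≤ Kf) (hu1 : ∀ n ∈ Icc 1 X, |u n| ≤ Ku)
    (hsup : ∀ r, ‖FF u X (2 ^ (K + 1)) r‖ ≤ Su) :
    ∑ ω ∈ Ω, p ω * (∑ n ∈ Icc 1 N, f n * (if 1 ≤ (n : ℤ) + Y ω then u ((n : ℤ) + Y ω).toNat else 0)) ^ 2 ≤
      R * Su ^ 2 * Kf ^ 2 + (X : ℝ) ^ 2 * Kf ^ 2 * Ku ^ 2 / (K : ℝ) ^ V := by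
  classical
  obtain ⟨M, hM⟩ : ∃ M : ℕ, M = 2 ^ (K + 1) := ⟨_, rfl⟩
  rw [← hM] at hXM hsup
  have hM1 : 1 ≤ M := by omega
  have hM0 : (0 : ℝ) < M := by exact_mod_cast hM1
  have hX0 : (0 : ℝ) < X := by exact_mod_cast hX
  have hKr : (1 : ℝ) ≤ K := by exact_mod_cast hK
  obtain ⟨S, hS⟩ : ∃ S, S = Spec 2 V K Ω p Y := ⟨_, rfl⟩
  rw [← hS] at hR
  obtain ⟨Af, hAf⟩ : ∃ Af : ℕ → ℂ, Af = fun r => (starRingEnd ℂ) (FF f X M r) * FF u X M r := ⟨_, rfl⟩
  have hAn : ∀ r, ‖Af r‖ = ‖FF f X M r‖ * ‖FF u X M r‖ := by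
    intro r
    rw [hAf]
    simp only
    rw [norm_mul, RCLike.norm_conj]
  obtain ⟨gg, hg⟩ : ∃ gg : ℕ → ℝ, gg = fun t => if t % M ∈ S then 1 else 1 / (K : ℝ) ^ V := ⟨_, rfl⟩
  have hgt : ∀ t, gg t = if t % M ∈ S then 1 else 1 / (K : ℝ) ^ V := fun t => by rw [hg]
  have hvar := Pool.Agent.W93.AU.gen_var Ω p hp0 Y M hM1 Af gg (by
    intro t
    rw [hgt]
    split_ifs with hc
    · refine (norm_sum_le _ _).trans (le_trans ?_ hp1)
      apply sum_le_sum
      intro ω hω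
      rw [norm_mul, norm_ee, mul_one, Complex.norm_real, Real.norm_of_nonneg (hp0 ω hω)]
    · rw [char_mod M hM1]
      by_contra hcon
      push Not at hcon
      apply hc
      rw [hS]
      unfold Spec
      rw [mem_filter, mem_range, ← hM]
      exact ⟨Nat.mod_lt _ hM1, hcon⟩)
  -- the sums of squares
  have hF2 : ∑ r ∈ range M, ‖FF f X M r‖ ^ 2 ≤ M * (Kf ^ 2 * X) := by
    rw [FF_pars f X M hM1 (by omega)]
    apply mul_le_mul_of_nonneg_left _ hM0.le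
    refine (sum_le_sum fun n hn => (show f n ^ 2 ≤ Kf ^ 2 from ?_)).trans (le_of_eq ?_)
    · rw [← sq_abs]
      exact pow_le_pow_left₀ (abs_nonneg _) (hf1 n hn) 2
    · rw [sum_const, Nat.card_Icc, nsmul_eq_mul, Nat.add_sub_cancel, mul_comm]
  have hG2 : ∑ r ∈ range M, ‖FF u X M r‖ ^ 2 ≤ M * (Ku ^ 2 * X) := by
    rw [FF_pars u X M hM1 (by omega)]
    apply mul_le_mul_of_nonneg_left _ hM0.le
    refine (sum_le_sum fun n hn => (show u n ^ 2 ≤ Ku ^ 2 from ?_)).trans (le_of_eq ?_)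
    · rw [← sq_abs]
      exact pow_le_pow_left₀ (abs_nonneg _) (hu1 n hn) 2
    · rw [sum_const, Nat.card_Icc, nsmul_eq_mul, Nat.add_sub_cancel, mul_comm]
  have hA2 : ∑ r ∈ range M, ‖Af r‖ ^ 2 ≤ Su ^ 2 * (M * (Kf ^ 2 * X)) := by
    calc ∑ r ∈ range M, ‖Af r‖ ^ 2 ≤ ∑ r ∈ range M, Su ^ 2 * ‖FF f X M r‖ ^ 2 := by
          apply sum_le_sum
          intro r _
          rw [hAn, mul_pow, mul_comm]
          exact mul_le_mul_of_nonneg_right (pow_le_pow_left₀ (norm_nonneg _) (hsup r) 2) (by positivity)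
      _ = Su ^ 2 * ∑ r ∈ range M, ‖FF f X M r‖ ^ 2 := by rw [mul_sum]
      _ ≤ _ := mul_le_mul_of_nonneg_left hF2 (by positivity)
  obtain ⟨T, hT⟩ : ∃ T, T = ∑ r ∈ range M, ‖Af r‖ := ⟨_, rfl⟩
  have hT0 : 0 ≤ T := by rw [hT]; exact sum_nonneg fun r _ => norm_nonneg _
  have hT2 : T ^ 2 ≤ (M * (Kf ^ 2 * X)) * (M * (Ku ^ 2 * X)) := by
    have e1 := sum_mul_sq_le_sq_mul_sq (range M) (fun r => ‖FF f X M r‖) (fun r => ‖FF u X M r‖)
    have e2 : T = ∑ r ∈ range M, ‖FF f X M r‖ * ‖FF u X M r‖ := by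
      rw [hT]
      exact sum_congr rfl fun r _ => hAn r
    rw [e2]
    refine e1.trans ?_
    exact mul_le_mul hF2 hG2 (sum_nonneg fun _ _ => by positivity) (by positivity)
  -- the double sum
  have hrows : ∑ r ∈ range M, ‖Af r‖ * ∑ r' ∈ range M, ‖Af r'‖ * gg (r' + (M - r)) ≤
      R * (Su ^ 2 * (M * (Kf ^ 2 * X))) + T ^ 2 / (K : ℝ) ^ V := by
    have hg01 : ∀ t, 0 ≤ gg t := by
      intro t
      rw [hgt]
      split_ifs
      · norm_num
      · positivity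
    have h1 : ∀ r ∈ range M, ‖Af r‖ * ∑ r' ∈ range M, ‖Af r'‖ * gg (r' + (M - r)) ≤
        ∑ r' ∈ (range M).filter (fun r' => (r' + (M - r)) % M ∈ S), (‖Af r‖ ^ 2 / 2 + ‖Af r'‖ ^ 2 / 2) +
          ‖Af r‖ * (T / (K : ℝ) ^ V) := by
      intro r _
      rw [← sum_filter_add_sum_filter_not (range M) (fun r' => (r' + (M - r)) % M ∈ S), mul_add]
      apply add_le_add
      · rw [mul_sum]
        apply sum_le_sum
        intro r' hr'
        rw [hgt, if_pos (mem_filter.1 hr').2, mul_one]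
        nlinarith [sq_nonneg (‖Af r‖ - ‖Af r'‖)]
      · apply mul_le_mul_of_nonneg_left _ (norm_nonneg _)
        calc ∑ r' ∈ (range M).filter (fun r' => ¬ (r' + (M - r)) % M ∈ S), ‖Af r'‖ * gg (r' + (M - r)) =
              ∑ r' ∈ (range M).filter (fun r' => ¬ (r' + (M - r)) % M ∈ S), ‖Af r'‖ * (1 / (K : ℝ) ^ V) := by
              apply sum_congr rfl
              intro r' hr'
              rw [hgt, if_neg (mem_filter.1 hr').2]
          _ ≤ ∑ r' ∈ range M, ‖Af r'‖ * (1 / (K : ℝ) ^ V) :=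
              sum_le_sum_of_subset_of_nonneg (filter_subset _ _) fun _ _ _ => by positivity
          _ = T / (K : ℝ) ^ V := by rw [← sum_mul, hT]; ring
    refine (sum_le_sum h1).trans ?_
    rw [sum_add_distrib]
    apply add_le_add
    · -- counting
      have hcnt : ∀ r ∈ range M, ((range M).filter (fun r' => (r' + (M - r)) % M ∈ S)).card ≤ R := by
        intro r hr
        rw [mem_range] at hr
        refine le_trans ?_ hR
        apply card_le_card_of_injOn (fun r' => (r' + (M - r)) % M)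
        · intro r' hr'
          exact (mem_filter.1 hr').2
        · intro r1 h1 r2 h2 h12
          have a1 := mem_range.1 (mem_filter.1 h1).1
          have a2 := mem_range.1 (mem_filter.1 h2).1
          have h3 : r1 + (M - r) ≡ r2 + (M - r) [MOD M] := h12
          have h4 : r1 ≡ r2 [MOD M] := Nat.ModEq.add_right_cancel' _ h3
          have h5 : r1 % M = r2 % M := h4
          rwa [Nat.mod_eq_of_lt a1, Nat.mod_eq_of_lt a2] at h5
      have hcnt' : ∀ r' ∈ range M, ((range M).filter (fun r => (r' + (M - r)) % M ∈ S)).card ≤ R := by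
        intro r' hr'
        rw [mem_range] at hr'
        refine le_trans ?_ hR
        apply card_le_card_of_injOn (fun r => (r' + (M - r)) % M)
        · intro r hr
          exact (mem_filter.1 hr).2
        · intro r1 h1 r2 h2 h12
          have a1 := mem_range.1 (mem_filter.1 h1).1
          have a2 := mem_range.1 (mem_filter.1 h2).1
          have h3 : r' + (M - r1) ≡ r' + (M - r2) [MOD M] := h12
          have h4 : M - r1 ≡ M - r2 [MOD M] := Nat.ModEq.add_left_cancel' _ h3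
          have h5 : (M - r1) + (r1 + r2) ≡ (M - r2) + (r1 + r2) [MOD M] := Nat.ModEq.add_right _ h4
          have h6 : (M - r1) + (r1 + r2) = M + r2 := by omega
          have h7 : (M - r2) + (r1 + r2) = M + r1 := by omega
          rw [h6, h7] at h5
          have h8 : r2 ≡ r1 [MOD M] := Nat.ModEq.add_left_cancel' _ h5
          have h9 : r2 % M = r1 % M := h8
          rw [Nat.mod_eq_of_lt a1, Nat.mod_eq_of_lt a2] at h9
          exact h9.symm
      have s1 : ∑ r ∈ range M, ∑ r' ∈ (range M).filter (fun r' => (r' + (M - r)) % M ∈ S), ‖Af r‖ ^ 2 / 2 ≤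
          R * (∑ r ∈ range M, ‖Af r‖ ^ 2) / 2 := by
        calc ∑ r ∈ range M, ∑ r' ∈ (range M).filter (fun r' => (r' + (M - r)) % M ∈ S), ‖Af r‖ ^ 2 / 2 ≤
              ∑ r ∈ range M, (R : ℝ) * (‖Af r‖ ^ 2 / 2) := by
              apply sum_le_sum
              intro r hr
              rw [sum_const, nsmul_eq_mul]
              exact mul_le_mul_of_nonneg_right (by exact_mod_cast hcnt r hr) (by positivity)
          _ = _ := by rw [← mul_sum, ← sum_div, mul_div_assoc]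
      have s2 : ∑ r ∈ range M, ∑ r' ∈ (range M).filter (fun r' => (r' + (M - r)) % M ∈ S), ‖Af r'‖ ^ 2 / 2 ≤
          R * (∑ r ∈ range M, ‖Af r‖ ^ 2) / 2 := by
        have e : ∑ r ∈ range M, ∑ r' ∈ (range M).filter (fun r' => (r' + (M - r)) % M ∈ S), ‖Af r'‖ ^ 2 / 2 =
            ∑ r' ∈ range M, ∑ r ∈ (range M).filter (fun r => (r' + (M - r)) % M ∈ S), ‖Af r'‖ ^ 2 / 2 := by
          simp_rw [sum_filter]
          rw [sum_comm]
        rw [e]
        calc ∑ r' ∈ range M, ∑ r ∈ (range M).filter (fun r => (r' + (M - r)) % M ∈ S), ‖Af r'‖ ^ 2 / 2 ≤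
              ∑ r' ∈ range M, (R : ℝ) * (‖Af r'‖ ^ 2 / 2) := by
              apply sum_le_sum
              intro r' hr'
              rw [sum_const, nsmul_eq_mul]
              exact mul_le_mul_of_nonneg_right (by exact_mod_cast hcnt' r' hr') (by positivity)
          _ = _ := by rw [← mul_sum, ← sum_div, mul_div_assoc]
      simp_rw [sum_add_distrib]
      have h3 : (R : ℝ) * (∑ r ∈ range M, ‖Af r‖ ^ 2) ≤ R * (Su ^ 2 * (M * (Kf ^ 2 * X))) :=
        mul_le_mul_of_nonneg_left hA2 (Nat.cast_nonneg _)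
      linarith
    · rw [← sum_mul, ← hT]
      exact le_of_eq (by ring)
  -- the correlations
  have hcor : ∀ ω ∈ Ω, ‖EE Af M (Y ω)‖ ^ 2 =
      (M : ℝ) ^ 2 * (∑ n ∈ Icc 1 N, f n * (if 1 ≤ (n : ℤ) + Y ω then u ((n : ℤ) + Y ω).toNat else 0)) ^ 2 := by
    intro ω hω
    rw [hAf, Pool.Agent.W93.TD.EE_corr f u X M N hX hXM hN hf (Y ω) (hY ω hω).1 (hY ω hω).2, Complex.norm_real, Real.norm_eq_abs, sq_abs]
    ring
  rw [sum_congr rfl (fun ω hω => by rw [hcor ω hω])] at hvar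
  have h5 : (M : ℝ) ^ 2 * ∑ ω ∈ Ω, p ω * (∑ n ∈ Icc 1 N, f n * (if 1 ≤ (n : ℤ) + Y ω then u ((n : ℤ) + Y ω).toNat else 0)) ^ 2 ≤
      R * (Su ^ 2 * (M * (Kf ^ 2 * X))) + T ^ 2 / (K : ℝ) ^ V := by
    refine le_trans (le_of_eq ?_) (hvar.trans hrows)
    rw [mul_sum]
    exact sum_congr rfl fun ω _ => by ring
  have hM2 : (X : ℝ) ≤ M := by exact_mod_cast (by omega : X ≤ M)
  have hMM : (0 : ℝ) < (M : ℝ) ^ 2 := by positivity
  have hKV : (0 : ℝ) < (K : ℝ) ^ V := by positivity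
  refine le_of_mul_le_mul_left ?_ hMM
  refine h5.trans ?_
  rw [mul_add]
  apply add_le_add
  · calc (R : ℝ) * (Su ^ 2 * (M * (Kf ^ 2 * X))) ≤ R * (Su ^ 2 * (M * (Kf ^ 2 * M))) := by gcongr
      _ = _ := by ring
  · rw [← mul_div_assoc]
    apply div_le_div_of_nonneg_right _ hKV.le
    exact hT2.trans (le_of_eq (by ring))

end Pool.Agent.Run7.h673.SP
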