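import Pool.Agent.Run7.h673.SP.OffF
import Pool.Agent.Run7.h364.MK.Sqf

/-!
# Functions of rapid growth in short ranges: bounded functions in dilated windows
-/

set_option autoImplicit false

namespace Pool.Agent.Run7.h673.SP

open Finset Filter Topology
open Pool.Agent.H807R2.Dav (ee norm_ee ee_add)
open Pool.Agent.Run7.h27.MK (ev_ge gI)
open Pool.Agent.Run7.h794.MK
open Pool.Agent.Run7.h18.MK (Gam Gam_card far)
open Pool.Agent.Run7.h364.MK.MV (CG GoodG quadC)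

variable {g : ℝ → ℝ} {δ C L₀ : ℝ}

/-- ranges with values between `N^(1/3) log^C N` and `N / log^C N` -/
def Rgt (g : ℝ → ℝ) (a C N x y : ℕ) : Prop :=
  y < x ∧ (x : ℝ) ≤ Real.log N ^ a * ((x - y : ℕ) : ℝ) ∧ (N : ℝ) ^ (1 / 3 : ℝ) * Real.log N ^ C ≤ ff g y ∧
    ff g x * Real.log N ^ C ≤ N

/-- correlations of a bounded function with shifts by multiples of the values -/
theorem Fast.corr {G₀ : ℕ → ℝ} (hlaw : S_LAWg G₀) (h : Fast g δ C L₀) (a T U : ℕ) : ∃ C' N₀ : ℕ, ∀ N : ℕ, N₀ ≤ N →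
    ∀ x y : ℕ, Rgt g a C' N x y → ∀ κ : ℤ, κ ≠ 0 → (κ.natAbs : ℝ) ≤ Real.log N ^ T → ∀ cc : ℤ, |cc| ≤ N →
    ∀ Kc : ℝ, 0 < Kc → ∀ G : ℕ → ℝ, (∀ n ∈ Icc 1 N, |G n| ≤ Kc) →
    ∑ k ∈ Ioc y x, 1 / ((x - y : ℕ) : ℝ) * |∑ n ∈ Icc 1 N, G n * gI G₀ ((n : ℤ) + (cc + κ * (val g k : ℕ)))| ≤
      Kc * (N / Real.log N ^ U) := by
  obtain ⟨V, hV⟩ := hlaw 2 U
  obtain ⟨D, n1, hoff⟩ := h.off a 1 V
  obtain ⟨C₁, n2, hL⟩ := hV T D
  obtain ⟨n3, h3⟩ := eventually_atTop.mp (ev_ge 2)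
  refine ⟨C₁ + T + 1, n1 + n2 + n3 + 8, fun N hN x y hr κ hκ hκT cc hcc Kc hKc G hG => ?_⟩
  obtain ⟨hyx, hxa, hfy, hfx⟩ := hr
  have hL2 := h3 N (by omega)
  obtain ⟨L, hLd⟩ : ∃ L, L = Real.log (N : ℝ) := ⟨_, rfl⟩
  rw [← hLd] at hL2 hfy hfx hκT
  have hL0 : 0 < L := by linarith
  have hLone : 1 ≤ L := by linarith
  have hN0 : (0 : ℝ) < N := by exact_mod_cast (by omega : 0 < N)
  have hN1 : (1 : ℝ) ≤ N := by exact_mod_cast (by omega : 1 ≤ N)
  have hN13 : 1 ≤ (N : ℝ) ^ (1 / 3 : ℝ) := Real.one_le_rpow hN1 (by norm_num)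
  have hfxT : ff g x * L ^ T ≤ N := by
    refine le_trans ?_ hfx
    apply mul_le_mul_of_nonneg_left _ (ff_pos g x).le
    exact pow_le_pow_right₀ hLone (by omega)
  have hfx1 : ff g x ≤ N := le_trans (le_mul_of_one_le_right (ff_pos g x).le (one_le_pow₀ hLone)) hfxT
  obtain ⟨hQ, hqQ, hp0, hp1, hchar⟩ := hoff N (by omega) x y hyx hxa
    (le_trans (le_mul_of_one_le_right (by linarith) (one_le_pow₀ hLone)) hfy) (by rw [Nat.cast_one, one_mul]; exact hfx1)
  have hvalx : ∀ k ∈ Ioc y x, (val g k : ℝ) ≤ ff g x := by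
    intro k hk
    have h1 := hQ k hk
    have h2 : (val g k : ℝ) ≤ val g x := by exact_mod_cast (by omega : val g k ≤ val g x)
    refine h2.trans ?_
    unfold val
    exact Nat.floor_le (ff_pos g x).le
  have hqy : (val g y : ℝ) ≤ N := by
    have h1 : (val g y : ℝ) ≤ ff g y := by
      unfold val
      exact Nat.floor_le (ff_pos g y).le
    have h2 : (val g y : ℝ) ≤ val g x + 1 := by exact_mod_cast hqQ
    by_contra hcon
    push Not at hcon
    have h4 : (val g x : ℝ) ≤ ff g x := by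
      unfold val
      exact Nat.floor_le (ff_pos g x).le
    have h5 : ff g x * 2 ≤ N := by
      refine le_trans ?_ hfx
      apply mul_le_mul_of_nonneg_left _ (ff_pos g x).le
      calc (2 : ℝ) ≤ L := hL2
        _ ≤ L ^ (C₁ + T + 1) := le_self_pow₀ hLone (by omega)
    have h6 : (8 : ℝ) ≤ N := by exact_mod_cast (by omega : 8 ≤ N)
    linarith
  obtain ⟨M, hM⟩ : ∃ M, M = 2 * (2 + 2) * N := ⟨_, rfl⟩
  have hM1 : 1 ≤ M := by omega
  have hM0 : (0 : ℝ) < M := by exact_mod_cast hM1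
  have hH1 : (N : ℝ) ^ (1 / 3 : ℝ) * Real.log N ^ C₁ ≤ (val g y : ℕ) := by
    rw [← hLd]
    have e1 : ff g y < val g y + 1 := by
      unfold val
      exact Nat.lt_floor_add_one _
    have e2 : 1 ≤ (N : ℝ) ^ (1 / 3 : ℝ) * L ^ C₁ := by
      have h5 : 1 ≤ L ^ C₁ := one_le_pow₀ hLone
      nlinarith
    have e3 : (N : ℝ) ^ (1 / 3 : ℝ) * L ^ (C₁ + 1) ≤ ff g y := by
      refine le_trans ?_ hfy
      apply mul_le_mul_of_nonneg_left _ (by linarith)
      exact pow_le_pow_right₀ hLone (by omega)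
    rw [pow_succ] at e3
    nlinarith
  have hH0 : (0 : ℝ) < (val g y : ℕ) := lt_of_lt_of_le (by rw [← hLd]; positivity) hH1
  have hK0 : (0 : ℝ) < ((x - y : ℕ) : ℝ) := by exact_mod_cast (by omega : 0 < x - y)
  refine hL N (by omega) M (by rw [hM]) (by
      rw [hM, sq]
      exact Nat.mul_le_mul_right _ (by omega)) ℕ (Ioc y x) (fun _ => 1 / ((x - y : ℕ) : ℝ))
    (fun k => cc + κ * (val g k : ℕ)) (fun _ _ => by positivity) (by
      rw [sum_const, Nat.card_Ioc, nsmul_eq_mul]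
      field_simp
      exact le_rfl) (fun k hk => ?_) (val g y) hH1 (Gam κ.natAbs M) (by
      rw [← hLd]
      refine le_trans ?_ hκT
      exact_mod_cast Gam_card κ.natAbs M) (fun t ht => ?_) Kc hKc G hG
  · have h4 : |κ * (val g k : ℕ)| ≤ N := by
      have h5 : ((κ.natAbs * val g k : ℕ) : ℝ) ≤ N := by
        push_cast
        calc (κ.natAbs : ℝ) * val g k ≤ L ^ T * ff g x := mul_le_mul hκT (hvalx k hk) (Nat.cast_nonneg _) (by positivity)
          _ = ff g x * L ^ T := mul_comm _ _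
          _ ≤ N := hfxT
      have h6 : |κ * (val g k : ℕ)| = ((κ.natAbs * val g k : ℕ) : ℤ) := by
        rw [abs_mul, Int.abs_eq_natAbs κ, abs_of_nonneg (by positivity : (0 : ℤ) ≤ (val g k : ℕ))]
        push_cast
        ring
      rw [h6]
      exact_mod_cast h5
    refine (abs_add_le _ _).trans ?_
    push_cast
    linarith
  · rw [← hLd] at ht ⊢
    have hMH : (1 : ℝ) ≤ M / (val g y : ℕ) := by
      rw [le_div_iff₀ hH0, one_mul]
      refine hqy.trans ?_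
      exact_mod_cast (by omega : N ≤ M)
    have hR : 1 ≤ L ^ D * ((M : ℝ) / (val g y : ℕ)) := by
      have h5 : 1 ≤ L ^ D := one_le_pow₀ hLone
      nlinarith
    have hfar := far κ hκ M hM1 (L ^ D * ((M : ℝ) / (val g y : ℕ))) hR t ht
    have hδ : L ^ D * ((M : ℝ) / (val g y : ℕ)) / (2 * M) = L ^ D / (2 * (val g y : ℕ)) := by field_simp
    rw [hδ] at hfar
    have h5 := hchar ((κ : ℝ) * ((t : ℝ) / M)) (by rw [← hLd]; exact hfar)
    rw [sum_dis_range (R := ℂ) g x y (val g x + 1) hQ (fun v => ee ((κ : ℝ) * ((t : ℝ) / M) * v))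
      (fun v => ((dis g x y v : ℝ) : ℂ)) (fun v => by
        unfold dis
        push_cast
        rfl), ← hLd] at h5
    have e2 : ∑ k ∈ Ioc y x, (((1 / ((x - y : ℕ) : ℝ) : ℝ)) : ℂ) * ee ((((cc + κ * (val g k : ℕ) : ℤ)) : ℝ) * ((t : ℝ) / M)) =
        ee ((cc : ℝ) * ((t : ℝ) / M)) *
          ∑ k ∈ Ioc y x, 1 / ((x - y : ℕ) : ℂ) * ee (((κ : ℝ) * ((t : ℝ) / M)) * (val g k : ℕ)) := by
      rw [mul_sum]
      refine sum_congr rfl fun k _ => ?_
      have e3 : (((cc + κ * (val g k : ℕ) : ℤ)) : ℝ) * ((t : ℝ) / M) = (cc : ℝ) * ((t : ℝ) / M) +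
          ((κ : ℝ) * ((t : ℝ) / M)) * (val g k : ℕ) := by
        push_cast
        ring
      rw [e3, ee_add]
      push_cast
      ring
    rw [e2, norm_mul, norm_ee, one_mul]
    exact h5

open Classical in
/-- **bounded functions in windows of progressions whose differences are values of rapid functions** -/
theorem Fast.mobv {G₀ : ℕ → ℝ} (hG₀ : ∀ n, |G₀ n| ≤ 1) (hlaw : S_LAWg G₀) (h : Fast g δ C L₀) (a A U : ℕ) :
    ∃ C' N₀ : ℕ, ∀ N : ℕ, N₀ ≤ N → ∀ x y : ℕ, Rgt g a C' N x y →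
    (((Ioc y x).filter (fun k => ¬ GoodG G₀ A U N (val g k))).card : ℝ) ≤ ((x - y : ℕ) : ℝ) / Real.log N ^ U := by
  obtain ⟨C₁, n1, h1⟩ := h.corr hlaw a A (3 * A + 2 * U + 8)
  obtain ⟨X₂, hX2, hgr⟩ := h.growth
  obtain ⟨n2, hs⟩ := h.size3 (X₂ + 3) 1
  obtain ⟨n3, h3⟩ := eventually_atTop.mp (ev_ge 6)
  refine ⟨C₁ + (3 * A + U + 8), n1 + n2 + n3 + 2, fun N hN x y hr => ?_⟩
  have hL6 := h3 N (by omega)
  obtain ⟨L, hLd⟩ : ∃ L, L = Real.log (N : ℝ) := ⟨_, rfl⟩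
  rw [← hLd] at hL6
  have hL0 : 0 < L := by linarith
  have hL1 : 1 ≤ L := by linarith
  have hN0 : (0 : ℝ) < N := by exact_mod_cast (by omega : 0 < N)
  have hN1 : (1 : ℝ) ≤ N := by exact_mod_cast (by omega : 1 ≤ N)
  obtain ⟨hyx, hxa, hfy, hfx⟩ := hr
  rw [← hLd] at hxa hfy hfx
  have hr' : Rgt g a C₁ N x y := by
    refine ⟨hyx, by rw [← hLd]; exact hxa, le_trans ?_ hfy, le_trans ?_ hfx⟩
    · rw [← hLd]
      apply mul_le_mul_of_nonneg_left _ (by positivity)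
      exact pow_le_pow_right₀ hL1 (by omega)
    · rw [← hLd]
      apply mul_le_mul_of_nonneg_left _ (ff_pos g x).le
      exact pow_le_pow_right₀ hL1 (by omega)
  have hN13 : 1 ≤ (N : ℝ) ^ (1 / 3 : ℝ) := Real.one_le_rpow hN1 (by norm_num)
  have hfx1 : ff g x ≤ (1 : ℕ) * N := by
    rw [Nat.cast_one, one_mul]
    exact le_trans (le_mul_of_one_le_right (ff_pos g x).le (one_le_pow₀ hL1)) hfx
  have hfy1 : (N : ℝ) ^ (1 / 3 : ℝ) ≤ ff g y := le_trans (le_mul_of_one_le_right (by linarith) (one_le_pow₀ hL1)) hfy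
  obtain ⟨hyX, _, _⟩ := hs N (by omega) y x hfy1 hyx.le hfx1
  have hK0 : (0 : ℝ) < ((x - y : ℕ) : ℝ) := by exact_mod_cast (by omega : 0 < x - y)
  have hinc : ∀ m n : ℕ, y ≤ m → m ≤ n → ff g m ≤ ff g n := by
    intro m n hm hmn
    have h1 := hgr m n (by exact_mod_cast (by omega : X₂ ≤ m)) (by exact_mod_cast hmn)
    have h2 : (m : ℝ) ≤ n := by exact_mod_cast hmn
    linarith
  have hvlow : ∀ k ∈ Ioc y x, 1 ≤ val g k := by
    intro k hk
    rw [mem_Ioc] at hk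
    unfold val
    apply Nat.le_floor
    rw [Nat.cast_one]
    linarith [hinc y k le_rfl hk.1.le]
  have hvup : ∀ k ∈ Ioc y x, (val g k : ℝ) * L ^ (3 * A + U + 8) ≤ N := by
    intro k hk
    rw [mem_Ioc] at hk
    have h5 : (val g k : ℝ) ≤ ff g k := by
      unfold val
      exact Nat.floor_le (ff_pos g k).le
    have h6 := hinc k x hk.1.le hk.2
    refine le_trans ?_ hfx
    apply mul_le_mul (h5.trans h6) _ (by positivity) (ff_pos g x).le
    exact pow_le_pow_right₀ hL1 (by omega)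
  obtain ⟨K, hK⟩ : ∃ K, K = ⌊L ^ A⌋₊ + 1 := ⟨_, rfl⟩
  have hKle : ∀ κ ∈ Ico 1 K, (κ : ℝ) ≤ L ^ A := by
    intro κ hκ
    rw [mem_Ico, hK] at hκ
    exact (Nat.cast_le.2 (by omega : κ ≤ ⌊L ^ A⌋₊)).trans (Nat.floor_le (by positivity))
  have hKc : ((Ico 1 K).card : ℝ) ≤ L ^ A := by
    rw [Nat.card_Ico, hK, Nat.add_sub_cancel]
    exact Nat.floor_le (by positivity)
  -- the correlations
  have key : ∀ κ ∈ Ico 1 K, ∑ k ∈ Ioc y x, 1 / ((x - y : ℕ) : ℝ) * |CG G₀ N (κ * val g k)| ≤ N / L ^ (3 * A + 2 * U + 8) := by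
    intro κ hκ
    have hκ1 := (mem_Ico.1 hκ).1
    have h2 := h1 N (by omega) x y hr' (κ : ℤ) (by omega) (by rw [Int.natAbs_natCast, ← hLd]; exact hKle κ hκ) 0 (by simp)
      1 one_pos G₀ (fun n _ => hG₀ n)
    rw [one_mul, ← hLd] at h2
    refine le_trans (le_of_eq ?_) h2
    refine sum_congr rfl fun k _ => ?_
    congr 2
    unfold CG
    refine sum_congr rfl fun n hn => ?_
    have h2 : (n : ℤ) + (0 + (κ : ℤ) * (val g k : ℕ)) = ((n + κ * val g k : ℕ) : ℤ) := by push_cast; ring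
    rw [h2]
    unfold gI
    rw [if_pos (by have := (mem_Icc.1 hn).1; omega), Int.toNat_natCast]
  have hbad : ∀ k ∈ (Ioc y x).filter (fun k => ¬ GoodG G₀ A U N (val g k)),
      1 ≤ L ^ (2 * A + U + 6) / N * ∑ κ ∈ Ico 1 K, |CG G₀ N (κ * val g k)| := by
    intro k hk
    rw [mem_filter] at hk
    obtain ⟨hk, hgg⟩ := hk
    have hex : ∃ κ ∈ Ico 1 K, N / L ^ (2 * A + U + 6) < |CG G₀ N (κ * val g k)| := by
      by_contra hcon
      push Not at hcon
      apply hgg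
      refine ⟨hvlow k hk, fun m hm c hc => ?_⟩
      rw [← hLd] at hm ⊢
      have h5 := quadC hG₀ N (val g k) m c hc (N / L ^ (2 * A + U + 6)) (by positivity) (by
        intro κ hκ
        apply hcon κ
        rw [mem_Ico] at hκ ⊢
        refine ⟨hκ.1, ?_⟩
        rw [hK]
        have : m ≤ ⌊L ^ A⌋₊ := Nat.le_floor hm
        omega)
      refine h5.trans ?_
      have hvN : (val g k : ℝ) ≤ N / L ^ (3 * A + U + 8) := by
        rw [le_div_iff₀ (by positivity)]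
        exact hvup k hk
      have hm0 : (0 : ℝ) ≤ m := Nat.cast_nonneg _
      calc 2 * ((m : ℝ) ^ 2 * (2 * (m * val g k) + N / L ^ (2 * A + U + 6))) ≤
          2 * ((L ^ A) ^ 2 * (2 * (L ^ A * (N / L ^ (3 * A + U + 8))) + N / L ^ (2 * A + U + 6))) := by gcongr
        _ = (4 / L ^ 8 + 2 / L ^ 6) * (N / L ^ U) := by
          rw [show 3 * A + U + 8 = A + A + A + U + 8 by ring, show 2 * A + U + 6 = A + A + U + 6 by ring,
            pow_add, pow_add, pow_add, pow_add, pow_add, pow_add, pow_add]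
          field_simp
          ring
        _ ≤ 1 * (N / L ^ U) := by
          apply mul_le_mul_of_nonneg_right _ (by positivity)
          have h6 : 4 / L ^ 8 ≤ 4 / L := by
            apply div_le_div_of_nonneg_left (by norm_num) hL0
            exact le_self_pow₀ hL1 (by norm_num)
          have h7 : 2 / L ^ 6 ≤ 2 / L := by
            apply div_le_div_of_nonneg_left (by norm_num) hL0
            exact le_self_pow₀ hL1 (by norm_num)
          have h8 : 4 / L + 2 / L ≤ 1 := by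
            rw [← add_div, div_le_one hL0]
            linarith
          linarith
        _ = _ := one_mul _
    obtain ⟨κ, hκ, hκ2⟩ := hex
    have h5 : |CG G₀ N (κ * val g k)| ≤ ∑ κ ∈ Ico 1 K, |CG G₀ N (κ * val g k)| :=
      single_le_sum (f := fun κ => |CG G₀ N (κ * val g k)|) (fun _ _ => abs_nonneg _) hκ
    calc (1 : ℝ) = L ^ (2 * A + U + 6) / N * (N / L ^ (2 * A + U + 6)) := by field_simp
      _ ≤ _ := mul_le_mul_of_nonneg_left (hκ2.le.trans h5) (by positivity)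
  rw [← hLd]
  calc (((Ioc y x).filter (fun k => ¬ GoodG G₀ A U N (val g k))).card : ℝ) =
      ∑ k ∈ (Ioc y x).filter (fun k => ¬ GoodG G₀ A U N (val g k)), 1 := by
        rw [sum_const, nsmul_eq_mul, mul_one]
    _ ≤ ∑ k ∈ (Ioc y x).filter (fun k => ¬ GoodG G₀ A U N (val g k)),
        L ^ (2 * A + U + 6) / N * ∑ κ ∈ Ico 1 K, |CG G₀ N (κ * val g k)| := sum_le_sum hbad
    _ ≤ ∑ k ∈ Ioc y x, L ^ (2 * A + U + 6) / N * ∑ κ ∈ Ico 1 K, |CG G₀ N (κ * val g k)| := by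
      apply sum_le_sum_of_subset_of_nonneg (filter_subset _ _)
      intro k _ _
      have : 0 ≤ ∑ κ ∈ Ico 1 K, |CG G₀ N (κ * val g k)| := sum_nonneg fun _ _ => abs_nonneg _
      positivity
    _ = L ^ (2 * A + U + 6) / N * (((x - y : ℕ) : ℝ) * ∑ κ ∈ Ico 1 K, ∑ k ∈ Ioc y x, 1 / ((x - y : ℕ) : ℝ) *
        |CG G₀ N (κ * val g k)|) := by
      rw [← mul_sum]
      congr 1
      rw [sum_comm, mul_sum]
      refine sum_congr rfl fun κ _ => ?_
      rw [← mul_sum]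
      field_simp
    _ ≤ L ^ (2 * A + U + 6) / N * (((x - y : ℕ) : ℝ) * ∑ κ ∈ Ico 1 K, N / L ^ (3 * A + 2 * U + 8)) := by
      apply mul_le_mul_of_nonneg_left _ (by positivity)
      apply mul_le_mul_of_nonneg_left _ hK0.le
      exact sum_le_sum key
    _ ≤ L ^ (2 * A + U + 6) / N * (((x - y : ℕ) : ℝ) * (L ^ A * (N / L ^ (3 * A + 2 * U + 8)))) := by
      apply mul_le_mul_of_nonneg_left _ (by positivity)
      apply mul_le_mul_of_nonneg_left _ hK0.le
      rw [sum_const, nsmul_eq_mul]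
      exact mul_le_mul_of_nonneg_right hKc (by positivity)
    _ = ((x - y : ℕ) : ℝ) / L ^ U * (1 / L ^ 2) := by
      rw [show 3 * A + 2 * U + 8 = (2 * A + U + 6) + A + (U + 2) by ring, pow_add L (2 * A + U + 6 + A),
        pow_add L (2 * A + U + 6), pow_add L U 2]
      field_simp
    _ ≤ ((x - y : ℕ) : ℝ) / L ^ U * 1 := by
      apply mul_le_mul_of_nonneg_left _ (by positivity)
      rw [div_le_one (by positivity)]
      exact one_le_pow₀ hL1
    _ = _ := mul_one _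

end Pool.Agent.Run7.h673.SP
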