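import Pool.Agent.Run7.h673.SP.Gau

/-!
# The values of rapid functions: distribution modulo fixed integers, and the Gaussian laws
-/

set_option autoImplicit false

namespace Pool.Agent.Run7.h673.SP

open Finset Filter Topology
open Pool.Agent.H807R2.Dav (ee norm_ee ee_add ee_pow ee_int)
open Pool.Agent.Run7.h27.MK (ev_ge gI)
open Pool.Agent.Run7.h794.MK
open Pool.Agent.Run7.h20.GM (mobI cnt av Phi Equi)

variable {g : ℝ → ℝ} {δ C L₀ : ℝ}

/-- orthogonality -/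
lemma orth (q : ℕ) (hq : 1 ≤ q) (c : ℤ) : ∑ j ∈ range q, ee ((j : ℝ) * ((c : ℝ) / q)) = if (q : ℤ) ∣ c then (q : ℂ) else 0 := by
  have hq0 : (q : ℝ) ≠ 0 := by exact_mod_cast (by omega : q ≠ 0)
  simp_rw [ee_pow]
  split_ifs with h
  · obtain ⟨b, hb⟩ := h
    have e1 : (c : ℝ) / q = (b : ℤ) := by
      rw [hb]
      push_cast
      field_simp
    rw [e1, ee_int]
    simp
  · have hz : ee ((c : ℝ) / q) ≠ 1 := by
      intro h1
      unfold Pool.Agent.H807R2.Dav.ee at h1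
      rw [Complex.exp_eq_one_iff] at h1
      obtain ⟨n, hn⟩ := h1
      have h2 : (((c : ℝ) / q : ℝ) : ℂ) = n := by
        have hpi : (2 * (Real.pi : ℂ) * Complex.I) ≠ 0 := Complex.two_pi_I_ne_zero
        apply mul_left_cancel₀ hpi
        rw [hn]
        ring
      have h3 : (c : ℝ) / q = n := by exact_mod_cast h2
      rw [div_eq_iff hq0] at h3
      apply h
      exact ⟨n, by rw [mul_comm]; exact_mod_cast h3⟩
    have h1 := geom_sum_mul (ee ((c : ℝ) / q)) q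
    have h2 : ee ((c : ℝ) / q) ^ q = 1 := by
      rw [← ee_pow, mul_div_cancel₀ _ hq0, ee_int]
    rw [h2, sub_self] at h1
    rcases mul_eq_zero.1 h1 with h3 | h3
    · exact h3
    · exact absurd (sub_eq_zero.1 h3) hz

/-- vectors of values -/
lemma transfer_vec {m : ℕ} (I : Finset ℕ) (v : ℕ → ℕ) (hinj : ∀ k ∈ I, ∀ l ∈ I, v k = v l → k = l)
    (P : (Fin m → ℕ) → Prop) (A B : Finset (Fin m → ℕ)) (hA : ∀ k ∈ A, (∀ i, k i ∈ I) ∧ P (fun i => v (k i)))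
    (hB : ∀ s : Fin m → ℕ, (∀ i, s i ∈ I.image v) → P s → s ∈ B) : A.card ≤ B.card := by
  classical
  obtain ⟨F, hF⟩ : ∃ F : (Fin m → ℕ) → (Fin m → ℕ), ∀ k i, F k i = v (k i) := ⟨fun k i => v (k i), fun _ _ => rfl⟩
  have h1 : (A.image F).card = A.card := by
    apply card_image_of_injOn
    intro k hk l hl hkl
    funext i
    have h2 := congrFun hkl i
    rw [hF, hF] at h2
    exact hinj _ ((hA k hk).1 i) _ ((hA l hl).1 i) h2
  rw [← h1]
  apply card_le_card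
  intro s hs
  obtain ⟨k, hk, rfl⟩ := mem_image.1 hs
  obtain ⟨h2, h4⟩ := hA k hk
  refine hB _ (fun i => ?_) ?_
  · rw [hF]
    exact mem_image_of_mem _ (h2 i)
  · have h3 : F k = fun i => v (k i) := funext fun i => hF k i
    rw [h3]
    exact h4

/-- ranges: sizes and monotonicity -/
lemma Fast.rgt (h : Fast g δ C L₀) : ∃ N₀ : ℕ, ∀ a C' N : ℕ, N₀ ≤ N → ∀ x y : ℕ, Rgt g a C' N x y →
    2 ≤ Real.log N ∧ (N : ℝ) ^ (1 / 3 : ℝ) ≤ ff g y ∧ ff g x ≤ N ∧ (∀ m n : ℕ, y ≤ m → m < n → val g m < val g n) ∧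
    (∀ k ∈ Ioc y x, val g k ≤ N) := by
  obtain ⟨X₂, hX2, hgr⟩ := h.growth
  obtain ⟨n2, hs⟩ := h.size3 (X₂ + 3) 1
  obtain ⟨n3, h3⟩ := eventually_atTop.mp (ev_ge 2)
  refine ⟨n2 + n3 + 2, fun a C' N hN x y hr => ?_⟩
  have hL2 := h3 N (by omega)
  obtain ⟨L, hLd⟩ : ∃ L, L = Real.log (N : ℝ) := ⟨_, rfl⟩
  obtain ⟨hyx, hxa, hfy, hfx⟩ := hr
  rw [← hLd] at hL2 hfy hfx ⊢
  have hL1 : 1 ≤ L := by linarith
  have hN1 : (1 : ℝ) ≤ N := by exact_mod_cast (by omega : 1 ≤ N)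
  have hN13 : 1 ≤ (N : ℝ) ^ (1 / 3 : ℝ) := Real.one_le_rpow hN1 (by norm_num)
  have hfx1 : ff g x ≤ N := le_trans (le_mul_of_one_le_right (ff_pos g x).le (one_le_pow₀ hL1)) hfx
  have hfy1 : (N : ℝ) ^ (1 / 3 : ℝ) ≤ ff g y := le_trans (le_mul_of_one_le_right (by linarith) (one_le_pow₀ hL1)) hfy
  obtain ⟨hyX, _, _⟩ := hs N (by omega) y x hfy1 hyx.le (by rw [Nat.cast_one, one_mul]; exact hfx1)
  have hval : ∀ m n : ℕ, y ≤ m → m < n → val g m < val g n := by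
    intro m n hm hmn
    have h1 := hgr m n (by exact_mod_cast (by omega : X₂ ≤ m)) (by exact_mod_cast hmn.le)
    have h2 : (m : ℝ) + 1 ≤ n := by exact_mod_cast hmn
    have h4 : (val g m : ℝ) ≤ ff g m := by
      unfold val
      exact Nat.floor_le (ff_pos g m).le
    have h5 : ff g n < val g n + 1 := by
      unfold val
      exact Nat.lt_floor_add_one _
    have h6 : (val g m : ℝ) < val g n := by linarith
    exact_mod_cast h6
  refine ⟨hL2, hfy1, hfx1, hval, fun k hk => ?_⟩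
  rw [mem_Ioc] at hk
  have h4 : val g k ≤ val g x := by
    rcases hk.2.lt_or_eq with h | h
    · exact (hval k x (by omega) h).le
    · rw [h]
  have h5 : (val g x : ℝ) ≤ ff g x := by
    unfold val
    exact Nat.floor_le (ff_pos g x).le
  have h6 : (val g x : ℝ) ≤ N := h5.trans hfx1
  have h7 : val g x ≤ N := by exact_mod_cast h6
  omega

/-- the one-shift law for the set of the values -/
lemma Fast.lawS (h : Fast g δ C L₀) (a T U : ℕ) : ∃ C' N₀ : ℕ, ∀ N : ℕ, N₀ ≤ N → ∀ x y : ℕ, Rgt g a C' N x y →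
    ∀ κ : ℕ, 1 ≤ κ → (κ : ℝ) ≤ Real.log N ^ T → ∀ c : ℕ, c ≤ N →
    (∀ k ∈ Ioc y x, ∀ l ∈ Ioc y x, c + κ * val g k = c + κ * val g l → k = l) ∧
    ∀ G : ℕ → ℝ, (∀ n ∈ Icc 1 N, |G n| ≤ 1) →
      ∑ s ∈ (Ioc y x).image (fun k => c + κ * val g k), |∑ n ∈ Icc 1 N, G n * mobI ((n : ℤ) + (s : ℤ))| ≤
        1 / Real.log N ^ U * N * ((Ioc y x).image (fun k => c + κ * val g k)).card := by
  obtain ⟨C', N₀, h1⟩ := h.corr law_mob a T U
  obtain ⟨N₁, h2⟩ := h.rgt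
  refine ⟨C', N₀ + N₁, fun N hN x y hr κ hκ hκT c hc => ?_⟩
  obtain ⟨hL2, hfy, hfx, hval, hle⟩ := h2 a C' N (by omega) x y hr
  have hyx := hr.1
  have hinj : ∀ k ∈ Ioc y x, ∀ l ∈ Ioc y x, c + κ * val g k = c + κ * val g l → k = l := by
    intro k hk l hl hkl
    have h3 : val g k = val g l := by
      have h4 : κ * val g k = κ * val g l := by omega
      exact Nat.eq_of_mul_eq_mul_left (by omega) h4
    rw [mem_Ioc] at hk hl
    rcases lt_trichotomy k l with h4 | h4 | h4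
    · have := hval k l hk.1.le h4
      omega
    · exact h4
    · have := hval l k hl.1.le h4
      omega
  refine ⟨hinj, fun G hG => ?_⟩
  have hinj' : Set.InjOn (fun k => c + κ * val g k) (Ioc y x) := fun k hk l hl hkl => hinj k hk l hl hkl
  rw [sum_image hinj', card_image_of_injOn hinj', Nat.card_Ioc]
  have hK0 : (0 : ℝ) < ((x - y : ℕ) : ℝ) := by exact_mod_cast (by omega : 0 < x - y)
  have h5 := h1 N (by omega) x y hr (κ : ℤ) (by omega) (by rw [Int.natAbs_natCast]; exact hκT) (c : ℤ) (by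
    rw [abs_of_nonneg (Int.natCast_nonneg c)]
    exact_mod_cast hc) 1 one_pos G hG
  rw [← mul_sum] at h5
  have e1 : ∀ k, ((c + κ * val g k : ℕ) : ℤ) = (c : ℤ) + (κ : ℤ) * (val g k : ℕ) := by
    intro k
    push_cast
    ring
  have e2 : ∑ k ∈ Ioc y x, |∑ n ∈ Icc 1 N, G n * mobI ((n : ℤ) + ((c + κ * val g k : ℕ) : ℤ))| =
      ((x - y : ℕ) : ℝ) * (1 / ((x - y : ℕ) : ℝ) *
        ∑ k ∈ Ioc y x, |∑ n ∈ Icc 1 N, G n * gI mob ((n : ℤ) + ((c : ℤ) + (κ : ℤ) * (val g k : ℕ)))|) := by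
    rw [← mul_assoc, mul_one_div_cancel hK0.ne', one_mul]
    refine sum_congr rfl fun k _ => ?_
    rw [e1]
    rfl
  rw [e2]
  calc _ ≤ ((x - y : ℕ) : ℝ) * (1 * (N / Real.log N ^ U)) := mul_le_mul_of_nonneg_left h5 hK0.le
    _ = _ := by ring

/-- the values are equidistributed modulo fixed integers -/
lemma Fast.equiS (h : Fast g δ C L₀) (a D : ℕ) (κ₀ : ℝ) (hκ₀ : 0 < κ₀) : ∃ C' N₀ : ℕ, ∀ N : ℕ, N₀ ≤ N →
    ∀ x y : ℕ, Rgt g a C' N x y → ∀ c : ℕ, Equi D κ₀ ((Ioc y x).image (fun k => c + 1 * val g k)) := by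
  obtain ⟨D', n1, hoff⟩ := h.off a 1 1
  obtain ⟨N₁, h2⟩ := h.rgt
  obtain ⟨n3, h3⟩ := eventually_atTop.mp (ev_ge ((D : ℝ) ^ 2 + 1 / κ₀ + 2))
  refine ⟨D' + 1, n1 + N₁ + n3 + 8, fun N hN x y hr c d hd1 hdD c' => ?_⟩
  obtain ⟨hL2, hfy, hfx, hval, hle⟩ := h2 a _ N (by omega) x y hr
  have hLL := h3 N (by omega)
  obtain ⟨hyx, hxa, hfyC, hfxC⟩ := hr
  obtain ⟨hQ, hqQ, hp0, hp1, hchar⟩ := hoff N (by omega) x y hyx hxa hfy (by rw [Nat.cast_one, one_mul]; exact hfx)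
  obtain ⟨L, hLd⟩ : ∃ L, L = Real.log (N : ℝ) := ⟨_, rfl⟩
  rw [← hLd] at hL2 hLL hfyC hchar
  have hκ1 : 0 < 1 / κ₀ := by positivity
  have hL0 : 0 < L := by linarith
  have hL1 : 1 ≤ L := by linarith
  have hK0 : (0 : ℝ) < ((x - y : ℕ) : ℝ) := by exact_mod_cast (by omega : 0 < x - y)
  have hinj' : Set.InjOn (fun k => c + 1 * val g k) (Ioc y x) := by
    intro k hk l hl hkl
    rw [mem_coe, mem_Ioc] at hk hl
    simp only [one_mul] at hkl
    rcases lt_trichotomy k l with h4 | h4 | h4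
    · have := hval k l hk.1.le h4
      omega
    · exact h4
    · have := hval l k hl.1.le h4
      omega
  obtain ⟨q, hq⟩ : ∃ q : ℕ, q = d ^ 2 := ⟨_, rfl⟩
  have hq1 : 1 ≤ q := by rw [hq]; exact Nat.one_le_pow _ _ hd1
  have hq0 : (0 : ℝ) < q := by exact_mod_cast hq1
  have hqD : (q : ℝ) ≤ (D : ℝ) ^ 2 := by
    rw [hq]
    push_cast
    exact pow_le_pow_left₀ (Nat.cast_nonneg _) (by exact_mod_cast hdD) 2
  have e1 : (((Ioc y x).image (fun k => c + 1 * val g k)).filter (fun s => d ^ 2 ∣ c' + s)).card =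
      ((Ioc y x).filter (fun k => q ∣ c' + (c + 1 * val g k))).card := by
    rw [filter_image, card_image_of_injOn (hinj'.mono (coe_subset.2 (filter_subset _ _))), hq]
  rw [e1, card_image_of_injOn hinj', Nat.card_Ioc]
  have e2 : (((Ioc y x).filter (fun k => q ∣ c' + (c + 1 * val g k))).card : ℂ) =
      ∑ j ∈ range q, 1 / (q : ℂ) * (ee ((j : ℝ) * (((c' + c : ℕ) : ℝ) / q)) * ∑ k ∈ Ioc y x, ee ((j : ℝ) / q * (val g k : ℕ))) := by
    rw [card_filter]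
    push_cast
    have e3 : ∀ k ∈ Ioc y x, (if q ∣ c' + (c + 1 * val g k) then (1 : ℂ) else 0) =
        ∑ j ∈ range q, 1 / (q : ℂ) * (ee ((j : ℝ) * (((c' : ℝ) + c) / q)) * ee ((j : ℝ) / q * (val g k : ℕ))) := by
      intro k _
      have e4 := orth q hq1 ((c' + (c + 1 * val g k) : ℕ) : ℤ)
      have e5 : (if q ∣ c' + (c + 1 * val g k) then (1 : ℂ) else 0) =
          1 / (q : ℂ) * (if (q : ℤ) ∣ ((c' + (c + 1 * val g k) : ℕ) : ℤ) then (q : ℂ) else 0) := by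
        have hqc : (q : ℂ) ≠ 0 := by exact_mod_cast (by omega : q ≠ 0)
        by_cases hdv : q ∣ c' + (c + 1 * val g k)
        · rw [if_pos hdv, if_pos (Int.natCast_dvd_natCast.2 hdv)]
          field_simp
        · rw [if_neg hdv, if_neg (fun h' => hdv (Int.natCast_dvd_natCast.1 h')), mul_zero]
      rw [e5, ← e4, mul_sum]
      refine sum_congr rfl fun j _ => ?_
      congr 1
      rw [← ee_add]
      congr 1
      push_cast
      field_simp
      ring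
    rw [sum_congr rfl e3, sum_comm]
    refine sum_congr rfl fun j _ => ?_
    rw [← mul_sum, ← mul_sum]
  have e3 : ∀ j ∈ (range q).erase 0, ‖∑ k ∈ Ioc y x, ee ((j : ℝ) / q * (val g k : ℕ))‖ ≤ ((x - y : ℕ) : ℝ) / L := by
    intro j hj
    rw [mem_erase, mem_range] at hj
    have hv2 : ff g y ≤ 2 * (val g y : ℕ) := by
      have e4 : ff g y < val g y + 1 := by
        unfold val
        exact Nat.lt_floor_add_one _
      have e5 : 2 ≤ ff g y := by
        refine le_trans ?_ hfyC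
        have h5 : (1 : ℝ) ≤ (N : ℝ) ^ (1 / 3 : ℝ) :=
          Real.one_le_rpow (by exact_mod_cast (by omega : 1 ≤ N)) (by norm_num)
        have h6 : 2 ≤ L ^ (D' + 1) := hL2.trans (le_self_pow₀ hL1 (by omega))
        nlinarith
      linarith
    have hv0 : (0 : ℝ) < 2 * (val g y : ℕ) := lt_of_lt_of_le (ff_pos g y) hv2
    have h5 := hchar ((j : ℝ) / q) (fun m => by
      have h6 : (1 : ℝ) / q ≤ |(j : ℝ) / q - m| := by
        have h7 : (j : ℝ) / q - m = ((j : ℤ) - m * q : ℤ) / q := by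
          push_cast
          field_simp
        rw [h7, abs_div, abs_of_pos hq0]
        apply div_le_div_of_nonneg_right _ hq0.le
        have h8 : (j : ℤ) - m * q ≠ 0 := by
          intro h9
          have h10 : (q : ℤ) ∣ j := ⟨m, by linarith⟩
          have h11 := Nat.le_of_dvd (by omega) (Int.natCast_dvd_natCast.1 h10)
          omega
        have h9 := Int.one_le_abs h8
        rw [← Int.cast_abs]
        exact_mod_cast h9
      refine le_trans ?_ h6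
      rw [div_le_div_iff₀ hv0 hq0, one_mul]
      calc L ^ D' * q ≤ L ^ D' * L := by
            apply mul_le_mul_of_nonneg_left _ (by positivity)
            linarith
        _ = L ^ (D' + 1) := (pow_succ _ _).symm
        _ ≤ (N : ℝ) ^ (1 / 3 : ℝ) * L ^ (D' + 1) := le_mul_of_one_le_left (by positivity)
            (Real.one_le_rpow (by exact_mod_cast (by omega : 1 ≤ N)) (by norm_num))
        _ ≤ ff g y := hfyC
        _ ≤ _ := hv2)
    rw [sum_dis_range (R := ℂ) g x y (val g x + 1) hQ (fun v => ee ((j : ℝ) / q * v))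
      (fun v => ((dis g x y v : ℝ) : ℂ)) (fun v => by
        unfold dis
        push_cast
        rfl), ← mul_sum, norm_mul] at h5
    have h7 : ‖(1 / ((x - y : ℕ) : ℂ))‖ = 1 / ((x - y : ℕ) : ℝ) := by
      rw [norm_div, norm_one, Complex.norm_natCast]
    rw [h7, pow_one, one_div_mul_eq_div, div_le_iff₀ hK0] at h5
    refine h5.trans (le_of_eq ?_)
    ring
  have e4 : |(((Ioc y x).filter (fun k => q ∣ c' + (c + 1 * val g k))).card : ℝ) - ((x - y : ℕ) : ℝ) / q| ≤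
      ((x - y : ℕ) : ℝ) / L := by
    have e5 : ‖((((Ioc y x).filter (fun k => q ∣ c' + (c + 1 * val g k))).card : ℝ) : ℂ) - ((((x - y : ℕ) : ℝ) / q : ℝ) : ℂ)‖ ≤
        ((x - y : ℕ) : ℝ) / L := by
      have e6 : ((((Ioc y x).filter (fun k => q ∣ c' + (c + 1 * val g k))).card : ℝ) : ℂ) =
          (((Ioc y x).filter (fun k => q ∣ c' + (c + 1 * val g k))).card : ℂ) := by push_cast; rfl
      have h0 : (0 : ℕ) ∈ range q := mem_range.2 (by omega)
      rw [e6, e2, ← add_sum_erase _ _ h0]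
      have e7 : 1 / (q : ℂ) * (ee (((0 : ℕ) : ℝ) * (((c' + c : ℕ) : ℝ) / q)) * ∑ k ∈ Ioc y x, ee (((0 : ℕ) : ℝ) / q * (val g k : ℕ))) =
          ((((x - y : ℕ) : ℝ) / q : ℝ) : ℂ) := by
        simp only [Nat.cast_zero, zero_mul, zero_div, Pool.Agent.H807R2.Dav.ee_zero, one_mul, sum_const, Nat.card_Ioc,
          nsmul_eq_mul, mul_one]
        push_cast
        ring
      rw [e7, add_sub_cancel_left]
      refine (norm_sum_le _ _).trans ?_
      have e8 : ∀ j ∈ (range q).erase 0, ‖1 / (q : ℂ) * (ee ((j : ℝ) * (((c' + c : ℕ) : ℝ) / q)) *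
          ∑ k ∈ Ioc y x, ee ((j : ℝ) / q * (val g k : ℕ)))‖ ≤ 1 / (q : ℝ) * (((x - y : ℕ) : ℝ) / L) := by
        intro j hj
        rw [norm_mul, norm_mul, norm_ee, one_mul, norm_div, norm_one, Complex.norm_natCast]
        exact mul_le_mul_of_nonneg_left (e3 j hj) (by positivity)
      refine (sum_le_sum e8).trans ?_
      rw [sum_const, nsmul_eq_mul, card_erase_of_mem h0, card_range]
      have e9 : ((q - 1 : ℕ) : ℝ) ≤ q := by exact_mod_cast Nat.sub_le _ _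
      calc ((q - 1 : ℕ) : ℝ) * (1 / (q : ℝ) * (((x - y : ℕ) : ℝ) / L)) ≤ q * (1 / (q : ℝ) * (((x - y : ℕ) : ℝ) / L)) :=
            mul_le_mul_of_nonneg_right e9 (by positivity)
        _ = _ := by field_simp
    rw [← Complex.ofReal_sub, Complex.norm_real] at e5
    exact e5
  have e5 : (q : ℝ) = (d : ℝ) ^ 2 := by rw [hq]; push_cast; rfl
  rw [← e5]
  refine e4.trans ?_
  rw [div_le_iff₀ hL0]
  have e6 : 1 ≤ κ₀ * L := by
    have h5 : 1 / κ₀ ≤ L := by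
      have := sq_nonneg (D : ℝ)
      linarith
    rw [div_le_iff₀ hκ₀] at h5
    linarith
  nlinarith

open Classical in
/-- **self-normalised sums** -/
theorem Fast.gau1 (h : Fast g δ C L₀) (a A T V : ℕ) (ε : ℝ) (hε : 0 < ε) : ∃ M₀ C' N₀ : ℕ, 1 ≤ M₀ ∧ ∀ N : ℕ, N₀ ≤ N →
    ∀ x y : ℕ, Rgt g a C' N x y → ∀ κ : ℕ, 1 ≤ κ → (κ : ℝ) ≤ Real.log N ^ T → ∀ c : ℕ, c ≤ N →
    ∀ m : ℕ, 1 ≤ m → (m : ℝ) ≤ Real.log N ^ A → ∀ P : (Fin m → ℕ) → Prop,
    (∀ s : Fin m → ℕ, P s ↔ ∀ t : ℝ,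
      |(((Icc 1 N).filter (fun n => M₀ ≤ cnt (av mobI (fun v : ℕ => (v : ℤ)) s n) ∧
        ∑ i, av mobI (fun v : ℕ => (v : ℤ)) s n i ≤ t * √(cnt (av mobI (fun v : ℕ => (v : ℤ)) s n) : ℝ))).card : ℝ) -
        Phi t * (((Icc 1 N).filter (fun n => M₀ ≤ cnt (av mobI (fun v : ℕ => (v : ℤ)) s n))).card : ℝ)| ≤ ε * N) →
    (((Fintype.piFinset (fun _ : Fin m => Ioc y x)).filter (fun k => ¬ P (fun i => c + κ * val g (k i)))).card : ℝ) ≤
      ((x - y : ℕ) : ℝ) ^ m / Real.log N ^ V := by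
  obtain ⟨M₀, U, N₀, hM₀, hg⟩ := gself A V ε hε
  obtain ⟨C', N₁, hl⟩ := h.lawS a T U
  refine ⟨M₀, C', N₀ + N₁, hM₀, fun N hN x y hr κ hκ hκT c hc m hm1 hm P hP => ?_⟩
  obtain ⟨hinj, hlaw⟩ := hl N (by omega) x y hr κ hκ hκT c hc
  have hyx := hr.1
  have hne : ((Ioc y x).image (fun k => c + κ * val g k)).Nonempty := ⟨_, mem_image_of_mem _ (mem_Ioc.2 ⟨hyx, le_rfl⟩)⟩
  have h1 := hg N (by omega) _ hne hlaw m hm1 hm
  have hcard : ((Ioc y x).image (fun k => c + κ * val g k)).card = x - y := by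
    rw [card_image_of_injOn (fun k hk l hl hkl => hinj k hk l hl hkl), Nat.card_Ioc]
  rw [hcard] at h1
  refine le_trans ?_ h1
  refine Nat.cast_le.2 (transfer_vec (m := m) (Ioc y x) (fun k => c + κ * val g k) hinj (fun s => ¬ P s) _ _ ?_ ?_)
  · intro k hk
    rw [mem_filter, Fintype.mem_piFinset] at hk
    exact hk
  · intro s hs1 hs2
    rw [mem_filter, Fintype.mem_piFinset]
    refine ⟨hs1, fun hcon => hs2 ((hP s).2 hcon)⟩

open Classical in
/-- **sums normalised by their standard deviation** -/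
theorem Fast.gau2 (h : Fast g δ C L₀) (a A : ℕ) (ε : ℝ) (hε : 0 < ε) : ∃ M₀ C' N₀ : ℕ, ∀ N : ℕ, N₀ ≤ N →
    ∀ x y : ℕ, Rgt g a C' N x y → ∀ c : ℕ, c ≤ N →
    ∀ m : ℕ, M₀ ≤ m → (m : ℝ) ≤ Real.log N ^ A → ∀ P : (Fin m → ℕ) → Prop,
    (∀ s : Fin m → ℕ, P s ↔ ∀ t : ℝ,
      |(((Icc 1 N).filter (fun n => ∑ i, av mobI (fun v : ℕ => (v : ℤ)) s n i ≤ t * √(6 / Real.pi ^ 2 * m : ℝ))).card : ℝ) -
        Phi t * N| ≤ ε * N) →
    (((Fintype.piFinset (fun _ : Fin m => Ioc y x)).filter (fun k => ¬ P (fun i => c + 1 * val g (k i)))).card : ℝ) ≤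
      ε * ((x - y : ℕ) : ℝ) ^ m := by
  obtain ⟨M₀, D, U, N₀, κ₀, hκ₀, hg⟩ := gconst A 2 ε hε
  obtain ⟨C₁, N₁, hl⟩ := h.lawS a 0 U
  obtain ⟨C₂, N₂, he⟩ := h.equiS a D κ₀ hκ₀
  obtain ⟨N₃, h3⟩ := h.rgt
  refine ⟨M₀, C₁ + C₂, N₀ + N₁ + N₂ + N₃, fun N hN x y hr c hc m hm1 hm P hP => ?_⟩
  obtain ⟨hL2, hfy, hfx, hval, hle⟩ := h3 a _ N (by omega) x y hr
  have hL1 : 1 ≤ Real.log N := by linarith
  have hmono : ∀ C', C' ≤ C₁ + C₂ → Rgt g a C' N x y := by
    intro C' hC'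
    obtain ⟨r1, r2, r3, r4⟩ := hr
    refine ⟨r1, r2, le_trans ?_ r3, le_trans ?_ r4⟩
    · apply mul_le_mul_of_nonneg_left _ (by positivity)
      exact pow_le_pow_right₀ hL1 hC'
    · apply mul_le_mul_of_nonneg_left _ (ff_pos g x).le
      exact pow_le_pow_right₀ hL1 hC'
  obtain ⟨hinj, hlaw⟩ := hl N (by omega) x y (hmono C₁ (by omega)) 1 le_rfl (by simp) c hc
  have hyx := hr.1
  have hne : ((Ioc y x).image (fun k => c + 1 * val g k)).Nonempty := ⟨_, mem_image_of_mem _ (mem_Ioc.2 ⟨hyx, le_rfl⟩)⟩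
  have h1 := hg N (by omega) _ hne (fun s hs => by
    obtain ⟨k, hk, rfl⟩ := mem_image.1 hs
    have := hle k hk
    omega) hlaw (he N (by omega) x y (hmono C₂ (by omega)) c) m hm1 hm
  have hcard : ((Ioc y x).image (fun k => c + 1 * val g k)).card = x - y := by
    rw [card_image_of_injOn (fun k hk l hl hkl => hinj k hk l hl hkl), Nat.card_Ioc]
  rw [hcard] at h1
  refine le_trans ?_ h1
  refine Nat.cast_le.2 (transfer_vec (m := m) (Ioc y x) (fun k => c + 1 * val g k) hinj (fun s => ¬ P s) _ _ ?_ ?_)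
  · intro k hk
    rw [mem_filter, Fintype.mem_piFinset] at hk
    exact hk
  · intro s hs1 hs2
    rw [mem_filter, Fintype.mem_piFinset]
    refine ⟨hs1, fun hcon => hs2 ((hP s).2 hcon)⟩

end Pool.Agent.Run7.h673.SP
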