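import Pool.Agent.Run7.h673.SP.Two

/-!
# Theorems for a property of one value, in terms of a logarithmic scale
-/

set_option autoImplicit false

namespace Pool.Agent.Run7.h673.SP

open Finset Filter Topology
open Pool.Agent.N193.PS (dg lt_dg dg_le log_le_dg dg_le_log dg_large log_pos4 scale_x)

open Classical in
/-- from the class to short intervals and to almost all integers; `G L c v`: the property of the value `v`, the shift `c`
and the logarithmic scale `L` -/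
theorem twoL {g : ℝ → ℝ} (h : Rapid g) (G : ℝ → ℤ → ℕ → Prop)
    (hG : ∀ (L L' : ℝ) (c : ℤ) (v : ℕ), 0 ≤ L' → L' ≤ L → G L c v → G L' c v)
    (hcls : ∀ a B U : ℕ, ∃ k₀ : ℕ, ∀ k : ℕ, k₀ ≤ k → ∀ p, SB g (a + 1) k p → ∀ c₀ : ℤ, |c₀| ≤ B * 2 ^ k →
      ∑ v ∈ range (2 ^ k), (if G (k : ℝ) c₀ v then 0 else p v) ≤ 1 / (k : ℝ) ^ (U + 1)) :
    (∀ a B U : ℕ, ∃ N₀ : ℕ, ∀ N : ℕ, N₀ ≤ N → ∀ x y : ℕ, Rng g a N x y → ∀ c₀ : ℤ, |c₀| ≤ B * N →
      (((Ioc y x).filter fun n : ℕ => ¬ G (Real.log N) c₀ ⌊Real.exp (g (Real.log n))⌋₊).card : ℝ) ≤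
        ((x : ℝ) - y) / Real.log N ^ U) ∧
    (∀ (U : ℕ) (c₀ : ℤ), ∃ X₀ : ℕ, ∀ X : ℕ, X₀ ≤ X →
      (((Icc 1 X).filter fun n : ℕ => ¬ G (g (Real.log n)) c₀ ⌊Real.exp (g (Real.log n))⌋₊).card : ℝ) ≤
        X / Real.log X ^ U) := by
  have one : ∀ a B U : ℕ, ∃ N₀ : ℕ, ∀ N : ℕ, N₀ ≤ N → ∀ x y : ℕ, Rng g a N x y → ∀ c₀ : ℤ, |c₀| ≤ B * N →
      (((Ioc y x).filter fun n : ℕ => ¬ G (Real.log N) c₀ ⌊Real.exp (g (Real.log n))⌋₊).card : ℝ) ≤
        ((x : ℝ) - y) / Real.log N ^ U := by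
    intro a B U
    obtain ⟨k₀, h0⟩ := hcls a B U
    refine ⟨2 ^ k₀ + 4, fun N hN x y hr c₀ hc₀ => ?_⟩
    have hk2 : 0 < 2 ^ k₀ := by positivity
    have hN4 : 4 ≤ N := by omega
    have hNk : N ≤ 2 ^ dg N := (lt_dg N).le
    have h1 := hr.count hN4 U (fun v => G (dg N : ℝ) c₀ v) (fun p hp => h0 (dg N) (dg_large k₀ N (by omega)) p hp c₀ (by
        refine hc₀.trans (mul_le_mul_of_nonneg_left ?_ (Nat.cast_nonneg _))
        exact_mod_cast hNk))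
    refine le_trans ?_ h1
    apply Nat.cast_le.2
    apply card_le_card
    intro n hn
    rw [mem_filter] at hn ⊢
    refine ⟨hn.1, fun hcon => hn.2 ?_⟩
    exact hG _ _ _ _ (Real.log_natCast_nonneg N) (log_le_dg N (by omega)) hcon
  refine ⟨one, fun U c₀ => ?_⟩
  obtain ⟨δ, C, L₀, hf⟩ := h.fast
  obtain ⟨N₀, hN₀⟩ := one 2 c₀.natAbs (U + 1)
  obtain ⟨x₀, hx₀⟩ := eventually_atTop.1 (hf.block N₀)
  apply full (fun n => G (g (Real.log n)) c₀ ⌊Real.exp (g (Real.log n))⌋₊) U (x₀ + 3)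
  intro x hx
  obtain ⟨N, hN1, hN2, hr, hlx, hlog, hup⟩ := hx₀ x (by omega)
  have hN0 : (0 : ℝ) < N := by exact_mod_cast (by omega : 0 < N)
  have h1 := hN₀ N hN1 x (bs x) hr c₀ (by
    rw [Int.natCast_natAbs]
    have h2 : (1 : ℤ) ≤ N := by exact_mod_cast (by omega : 1 ≤ N)
    have h3 := abs_nonneg c₀
    nlinarith)
  have hx1 : (1 : ℝ) < x := by exact_mod_cast (by omega : 1 < x)
  have hlx0 : 0 < Real.log x := Real.log_pos hx1
  have hpos : (0 : ℝ) ≤ (x : ℝ) - bs x := by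
    have : ((bs x : ℕ) : ℝ) ≤ x := by
      have : bs x ≤ x := by unfold bs; omega
      exact_mod_cast this
    linarith
  have h2 : ((x : ℝ) - bs x) / Real.log N ^ (U + 1) ≤ ((x : ℝ) - bs x) / Real.log x ^ (U + 1) :=
    div_le_div_of_nonneg_left hpos (by positivity) (pow_le_pow_left₀ hlx0.le hlx _)
  refine le_trans ?_ (h1.trans h2)
  apply Nat.cast_le.2
  apply card_le_card
  intro n hn
  rw [mem_filter] at hn ⊢
  refine ⟨hn.1, fun hcon => hn.2 ?_⟩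
  have h3 := hlog n hn.1
  rw [Real.log_exp] at h3
  have h4 : 0 ≤ g (Real.log n) := by
    have h5 := hup n hn.1
    have h6 : (3 : ℝ) ≤ N := by exact_mod_cast (by omega : 3 ≤ N)
    have h7 : (1 : ℝ) ≤ Real.exp (g (Real.log n)) := by linarith
    exact Real.one_le_exp_iff.1 h7 |>.trans le_rfl
  exact hG _ _ _ _ h4 h3 hcon

end Pool.Agent.Run7.h673.SP
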