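import Pool.Agent.Run7.h673.SP.Few
import Pool.Agent.Run7.h504.Uni
import Pool.Agent.Run7.h673.SP.TwoL

/-!
# The equation `a p = b q + c` for constants near the values of a fast function
-/

set_option autoImplicit false

namespace Pool.Agent.Run7.h673.SP

open Finset Filter Topology
open Pool.Agent.H807R2.Dav (ee norm_ee ee_add)
open Pool.Agent.H373R2.T7
open Pool.Agent.Y885 (Spec)
open Pool.Agent.W93.DG (FF FF_pars)
open Pool.Agent.Run7.h504.GenE Pool.Agent.Run7.h504.Dil Pool.Agent.Run7.h504.Pair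
open Pool.Agent.Run7.h504.Eq (err Good union)

variable {g : ℝ → ℝ} {δ C L₀ : ℝ}

/-- the first moment of correlations with arbitrary coefficients, over the values -/
theorem Fast.gen_few (h : Fast g δ C L₀) (a : ℕ) (κ : ℤ) (hκ : κ ≠ 0) (B' U : ℕ) (hB' : 2 * κ.natAbs + 1 ≤ B') :
    ∃ U1 k₀ : ℕ, ∀ k : ℕ, k₀ ≤ k → ∀ p, SB g a k p → ∀ N : ℕ, N < 2 ^ k → 2 ^ k ≤ 2 * N →
    ∀ cc : ℤ, |cc| ≤ ((B' - (2 * κ.natAbs + 1) : ℕ) : ℤ) * N → ∀ f u : ℕ → ℝ,
    (∀ n ∈ Icc 1 (B' * N), |f n| ≤ Real.log N) → (∀ n ∈ Icc 1 (2 * (B' * N)), |u n| ≤ Real.log N ^ 2) →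
    (∀ α : ℝ, ‖∑ n ∈ Icc 1 (2 * (B' * N)), (u n : ℂ) * ee ((n : ℝ) * α)‖ ≤ N / Real.log N ^ U1) →
    ∑ v ∈ range (2 ^ k), p v * |∑ n ∈ Icc 1 (B' * N), f n * fr u (2 * (B' * N)) ((n : ℤ) + (cc + κ * (v : ℕ)))| ≤
      N / Real.log N ^ U := by
  classical
  obtain ⟨V, hV⟩ : ∃ V, V = 2 * U + 8 := ⟨_, rfl⟩
  obtain ⟨e0, he0⟩ : ∃ e0, e0 = Nat.log 2 (2 * B') + 1 := ⟨_, rfl⟩
  have he0' : 2 * B' ≤ 2 ^ e0 := by
    rw [he0]
    exact (Nat.lt_pow_succ_log_self (by norm_num) _).le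
  obtain ⟨C₀, m₀, hfew⟩ := h.few a κ hκ 1 V
  obtain ⟨U1, hU1⟩ : ∃ U1, U1 = U + C₀ + 3 := ⟨_, rfl⟩
  obtain ⟨n1, h1⟩ := ev_L' (2 * 4 ^ C₀ + 2 * (2 * B') ^ 2 + 16)
  refine ⟨U1, m₀ + 2 ^ e0 + n1 + e0 + 4, fun k hk p hp N hN1 hN2 cc hcc f u hf hu hsup => ?_⟩
  have hkN : k < 2 ^ k := Nat.lt_two_pow_self
  have hk2 : 2 ^ k = 2 * 2 ^ (k - 1) := by
    rw [← pow_succ']
    congr 1
    omega
  have hkN' : k - 1 < 2 ^ (k - 1) := Nat.lt_two_pow_self
  have hNk : k ≤ N + 1 := by omega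
  have hNn : n1 ≤ N := by omega
  have hN3 : 3 ≤ N := by omega
  have hN0 : (0 : ℝ) < N := by exact_mod_cast (by omega : 0 < N)
  obtain ⟨L, hL⟩ : ∃ L : ℝ, L = Real.log (N : ℝ) := ⟨_, rfl⟩
  have hLb := h1 N hNn
  rw [← hL] at hLb hf hu hsup ⊢
  have q1 : (0 : ℝ) < 4 ^ C₀ := by positivity
  have q2 : (0 : ℝ) ≤ (2 * (B' : ℝ)) ^ 2 := by positivity
  have hL1 : 1 ≤ L := by linarith
  have hL0 : 0 < L := by linarith
  have hl2 := Real.log_two_gt_d9
  have hl2' := Real.log_two_lt_d9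
  have hLk : L ≤ k := by
    have e1 : L ≤ Real.log ((2 : ℝ) ^ k) := by
      rw [hL]
      exact Real.log_le_log hN0 (by exact_mod_cast hN1.le)
    rw [Real.log_pow] at e1
    have hk0 : (0 : ℝ) ≤ k := Nat.cast_nonneg _
    nlinarith
  have hkL : (k : ℝ) ≤ 2 * L := by
    have e1 : Real.log ((2 : ℝ) ^ k) ≤ Real.log (2 * N) := Real.log_le_log (by positivity) (by exact_mod_cast hN2)
    rw [Real.log_pow, Real.log_mul (by norm_num) hN0.ne', ← hL] at e1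
    nlinarith
  obtain ⟨K, hK⟩ : ∃ K, K = k + e0 := ⟨_, rfl⟩
  have hKr : (K : ℝ) ≤ 4 * L := by
    have : (K : ℝ) ≤ 2 * k := by exact_mod_cast (by omega : K ≤ 2 * k)
    linarith
  have hLK : L ≤ K := hLk.trans (by exact_mod_cast (by omega : k ≤ K))
  have hK0 : (0 : ℝ) < K := by linarith
  obtain ⟨X, hX⟩ : ∃ X, X = 2 * (B' * N) := ⟨_, rfl⟩
  have hB'1 : 1 ≤ B' := by omega
  have hX1 : 1 ≤ X := by
    rw [hX]
    have := Nat.mul_le_mul hB'1 (by omega : 1 ≤ N)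
    omega
  have hXK : 2 * X ≤ 2 ^ (K + 1) := by
    rw [hX, hK, pow_succ, pow_add]
    have e1 : 2 * B' * N ≤ 2 ^ e0 * 2 ^ k := Nat.mul_le_mul he0' hN1.le
    nlinarith
  have hcard := hfew k (by omega) p hp e0 1 (by rw [pow_one]; omega) le_rfl (by rw [pow_one]; omega) cc K hK
  have hcard' : (Spec 2 V K (range (2 ^ k)) p (fun v : ℕ => cc + κ * (v : ℕ))).card ≤ K ^ C₀ := by
    have e : (fun v : ℕ => ((1 : ℕ) : ℤ) * (cc + κ * (v : ℕ))) = (fun v : ℕ => cc + κ * (v : ℕ)) := by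
      funext v
      rw [Nat.cast_one, one_mul]
    rw [← e]
    exact hcard
  obtain ⟨f', hf'⟩ : ∃ f' : ℕ → ℝ, f' = fun n => if n ≤ B' * N then f n else 0 := ⟨_, rfl⟩
  have hsum := SB_sum a k p hp
  have hvar := var_few (range (2 ^ k)) p (fun v _ => SB_nonneg a k p hp v) hsum.le (fun v : ℕ => cc + κ * (v : ℕ)) X K V (K ^ C₀)
    hX1 hXK (by omega) hcard' f' u (B' * N) (by omega) (by
      intro n hn
      rw [hf']
      simp only
      rw [if_neg (by omega)]) (by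
      intro v hv
      rw [mem_range] at hv
      have e1 : |κ * (v : ℤ)| ≤ κ.natAbs * (2 * N) := by
        rw [abs_mul, Nat.abs_cast]
        have e2 : (|κ| : ℤ) = κ.natAbs := (Int.natCast_natAbs κ).symm
        rw [e2]
        apply mul_le_mul_of_nonneg_left _ (by positivity)
        have : (v : ℤ) ≤ ((2 * N : ℕ) : ℤ) := by exact_mod_cast (by omega : v ≤ 2 * N)
        push_cast at this
        exact this
      have e3 := abs_le.1 e1
      have e4 := abs_le.1 hcc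
      have e5 : ((B' - (2 * κ.natAbs + 1) : ℕ) : ℤ) = (B' : ℤ) - (2 * κ.natAbs + 1) := by
        push_cast [Nat.cast_sub hB']
        ring
      rw [e5] at e4
      have e6 : (X : ℤ) = 2 * (B' * N) := by rw [hX]; push_cast; ring
      have e7 : (0 : ℤ) < N := by exact_mod_cast (by omega : 0 < N)
      have e8 : (0 : ℤ) < B' := by exact_mod_cast hB'1
      have e9 : (0 : ℤ) < (B' : ℤ) * N := mul_pos e8 e7
      have e10 : |κ * (v : ℤ)| ≤ 2 * κ.natAbs * N := by linarith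
      rw [e6]
      push_cast
      constructor
      · nlinarith [e3.1, e4.1]
      · nlinarith [e3.2, e4.2]) L (L ^ 2) (N / L ^ U1) hL0.le (by positivity) (by positivity) (by
      intro n hn
      rw [hf']
      simp only
      split_ifs with hc
      · exact hf n (mem_Icc.2 ⟨(mem_Icc.1 hn).1, hc⟩)
      · rw [abs_zero]; exact hL0.le) (by rw [hX]; exact hu) (by
      intro r
      unfold FF
      rw [hX]
      exact hsup _)
  -- the first moment
  obtain ⟨T, hT⟩ : ∃ T : ℕ → ℝ, T = fun v => ∑ n ∈ Icc 1 (B' * N), f' n * (if 1 ≤ (n : ℤ) + (cc + κ * (v : ℕ)) then u ((n : ℤ) + (cc + κ * (v : ℕ))).toNat else 0) := ⟨_, rfl⟩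
  have hTe : ∀ v ∈ range (2 ^ k), ∑ n ∈ Icc 1 (B' * N), f n * fr u (2 * (B' * N)) ((n : ℤ) + (cc + κ * (v : ℕ))) = T v := by
    intro v hv
    rw [mem_range] at hv
    rw [hT]
    simp only
    apply sum_congr rfl
    intro n hn
    rw [mem_Icc] at hn
    rw [hf']
    simp only
    rw [if_pos hn.2]
    congr 1
    unfold fr
    by_cases hc : 1 ≤ (n : ℤ) + (cc + κ * (v : ℕ))
    · rw [if_pos hc, if_pos]
      refine ⟨hc, ?_⟩
      have e1 : |κ * (v : ℤ)| ≤ κ.natAbs * (2 * N) := by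
        rw [abs_mul, Nat.abs_cast]
        have e2 : (|κ| : ℤ) = κ.natAbs := (Int.natCast_natAbs κ).symm
        rw [e2]
        apply mul_le_mul_of_nonneg_left _ (by positivity)
        have : (v : ℤ) ≤ ((2 * N : ℕ) : ℤ) := by exact_mod_cast (by omega : v ≤ 2 * N)
        push_cast at this
        exact this
      have e3 := abs_le.1 e1
      have e4 := abs_le.1 hcc
      have e5 : ((B' - (2 * κ.natAbs + 1) : ℕ) : ℤ) = (B' : ℤ) - (2 * κ.natAbs + 1) := by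
        push_cast [Nat.cast_sub hB']
        ring
      rw [e5] at e4
      have e7 : (0 : ℤ) < N := by exact_mod_cast (by omega : 0 < N)
      have e9 : (n : ℤ) ≤ B' * N := by exact_mod_cast hn.2
      push_cast
      nlinarith [e3.2, e4.2]
    · rw [if_neg hc, if_neg (fun h => hc h.1)]
  rw [sum_congr rfl (fun v hv => by rw [hTe v hv])]
  have hvar' : ∑ v ∈ range (2 ^ k), p v * T v ^ 2 ≤ ((K ^ C₀ : ℕ) : ℝ) * (N / L ^ U1) ^ 2 * L ^ 2 + (X : ℝ) ^ 2 * L ^ 2 * (L ^ 2) ^ 2 / (K : ℝ) ^ V := by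
    rw [hT]
    exact hvar
  have hcs : (∑ v ∈ range (2 ^ k), p v * |T v|) ^ 2 ≤ ∑ v ∈ range (2 ^ k), p v * T v ^ 2 := by
    have e1 := sum_mul_sq_le_sq_mul_sq (range (2 ^ k)) (fun v => √(p v)) (fun v => √(p v) * |T v|)
    have e2 : ∑ v ∈ range (2 ^ k), √(p v) * (√(p v) * |T v|) = ∑ v ∈ range (2 ^ k), p v * |T v| := by
      apply sum_congr rfl
      intro v _
      rw [← mul_assoc, Real.mul_self_sqrt (SB_nonneg a k p hp v)]
    have e3 : ∑ v ∈ range (2 ^ k), √(p v) ^ 2 = 1 := by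
      rw [← hsum]
      apply sum_congr rfl
      intro v _
      rw [Real.sq_sqrt (SB_nonneg a k p hp v)]
    have e4 : ∑ v ∈ range (2 ^ k), (√(p v) * |T v|) ^ 2 = ∑ v ∈ range (2 ^ k), p v * T v ^ 2 := by
      apply sum_congr rfl
      intro v _
      rw [mul_pow, Real.sq_sqrt (SB_nonneg a k p hp v), sq_abs]
    rw [e2, e3, e4, one_mul] at e1
    exact e1
  have hfin : ((K ^ C₀ : ℕ) : ℝ) * (N / L ^ U1) ^ 2 * L ^ 2 + (X : ℝ) ^ 2 * L ^ 2 * (L ^ 2) ^ 2 / (K : ℝ) ^ V ≤ (N / L ^ U) ^ 2 := by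
    have t1 : ((K ^ C₀ : ℕ) : ℝ) * (N / L ^ U1) ^ 2 * L ^ 2 ≤ (N / L ^ U) ^ 2 / 2 := by
      push_cast
      have e1 : (K : ℝ) ^ C₀ ≤ 4 ^ C₀ * L ^ C₀ := by
        rw [← mul_pow]
        exact pow_le_pow_left₀ hK0.le hKr _
      have e2 : (4 : ℝ) ^ C₀ ≤ L / 2 := by linarith
      have e3 : (K : ℝ) ^ C₀ ≤ L ^ (C₀ + 1) / 2 := by
        refine e1.trans ?_
        rw [pow_succ]
        have := mul_le_mul_of_nonneg_right e2 (by positivity : (0 : ℝ) ≤ L ^ C₀)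
        linarith
      calc (K : ℝ) ^ C₀ * (N / L ^ U1) ^ 2 * L ^ 2 ≤ (L ^ (C₀ + 1) / 2) * (N / L ^ U1) ^ 2 * L ^ 2 := by gcongr
        _ = (N / L ^ U) ^ 2 / 2 * (L ^ (C₀ + 1) * L ^ 2 / (L ^ (C₀ + 3)) ^ 2) := by
            rw [hU1, show U + C₀ + 3 = U + (C₀ + 3) by ring, pow_add L U]
            field_simp
        _ ≤ (N / L ^ U) ^ 2 / 2 * 1 := by
            apply mul_le_mul_of_nonneg_left _ (by positivity)
            rw [div_le_one (by positivity), ← pow_add, ← pow_mul]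
            exact pow_le_pow_right₀ hL1 (by omega)
        _ = _ := mul_one _
    have t2 : (X : ℝ) ^ 2 * L ^ 2 * (L ^ 2) ^ 2 / (K : ℝ) ^ V ≤ (N / L ^ U) ^ 2 / 2 := by
      have e1 : (X : ℝ) = 2 * B' * N := by rw [hX]; push_cast; ring
      have e2 : L ^ V ≤ (K : ℝ) ^ V := pow_le_pow_left₀ hL0.le hLK _
      calc (X : ℝ) ^ 2 * L ^ 2 * (L ^ 2) ^ 2 / (K : ℝ) ^ V ≤ (X : ℝ) ^ 2 * L ^ 2 * (L ^ 2) ^ 2 / L ^ V :=
            div_le_div_of_nonneg_left (by positivity) (by positivity) e2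
        _ = (N / L ^ U) ^ 2 / 2 * (2 * (2 * (B' : ℝ)) ^ 2 / L ^ 2) := by
            rw [e1, hV, show 2 * U + 8 = U * 2 + (2 + 2 * 2 + 2) by ring, pow_add, pow_mul, pow_add, pow_add, pow_mul L 2 2]
            field_simp
        _ ≤ (N / L ^ U) ^ 2 / 2 * 1 := by
            apply mul_le_mul_of_nonneg_left _ (by positivity)
            rw [div_le_one (by positivity)]
            nlinarith
        _ = _ := mul_one _
    linarith
  exact (le_abs_self _).trans (abs_le_of_sq_le_sq (hcs.trans (hvar'.trans hfin)) (by positivity))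

/-- the errors along the equation `a' p = b q + c`, over the nonnegative constants near the values -/
theorem Fast.err_moment (h : Fast g δ C L₀) (a : ℕ) (κ : ℤ) (hκ : κ ≠ 0) (B U : ℕ) : ∃ B0 : ℕ, ∀ E : ℕ, ∃ k₀ : ℕ, ∀ k : ℕ, k₀ ≤ k →
    ∀ p, SB g a k p → ∀ N : ℕ, N < 2 ^ k → 2 ^ k ≤ 2 * N → ∀ cc : ℤ, |cc| ≤ B * N → ∀ Ω ⊆ range (2 ^ k), ∀ s : ℕ → ℕ,
    (∀ v ∈ Ω, (s v : ℤ) = cc + κ * (v : ℕ)) →
    ∀ z : ℕ, Real.log N ^ B0 ≤ z → (z : ℝ) ≤ Real.log N ^ E → ∀ a' b X : ℕ, 1 ≤ a' → 1 ≤ b → b * X ≤ N →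
    ∑ v ∈ Ω, p v * err z a' b (s v) X ≤ N / Real.log N ^ U := by
  classical
  obtain ⟨B', hB'⟩ : ∃ B', B' = B + (2 * κ.natAbs + 1) := ⟨_, rfl⟩
  obtain ⟨U1, k1, h1⟩ := h.gen_few a κ hκ B' (U + 1) (by omega)
  obtain ⟨U2, k2, h2⟩ := h.gen_few a (-κ) (neg_ne_zero.2 hκ) B' (U + 1) (by rw [Int.natAbs_neg]; omega)
  obtain ⟨B0, hsd⟩ := sup_dil (U1 + U2) (2 * B')
  refine ⟨B0, fun E => ?_⟩
  obtain ⟨n2, hsd⟩ := hsd E
  obtain ⟨n3, h3⟩ := fd_abs E (2 * B')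
  obtain ⟨n4, h4⟩ := Vz_inv_small E
  obtain ⟨n5, h5⟩ := ev_L' 2
  refine ⟨k1 + k2 + n2 + n3 + n4 + n5 + 4, fun k hk p hp N hN1 hN2 cc hcc Ω hΩ s hs z hz1 hz2 a' b X ha hb hX => ?_⟩
  have hk2 : 2 ^ k = 2 * 2 ^ (k - 1) := by
    rw [← pow_succ']
    congr 1
    omega
  have hkN' : k - 1 < 2 ^ (k - 1) := Nat.lt_two_pow_self
  have hNk : k ≤ N + 1 := by omega
  have hN3 : 3 ≤ N := by omega
  have hNr : (3 : ℝ) ≤ N := by exact_mod_cast hN3
  have hN0 : (0 : ℝ) < N := by linarith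
  have hL := h5 N (by omega)
  have hL0 : 0 < Real.log N := by linarith
  have hL1 : 1 ≤ Real.log N := by linarith
  have hz : 1 ≤ z := by
    have : (1 : ℝ) ≤ z := (one_le_pow₀ hL1).trans hz1
    exact_mod_cast this
  have hVinv := h4 N (by omega) z hz hz2
  obtain ⟨H, hH⟩ : ∃ H, H = 2 * (B' * N) := ⟨_, rfl⟩
  have hHB : H = 2 * B' * N := by rw [hH]; ring
  have hXN : X ≤ N := (Nat.le_mul_of_pos_left X hb).trans hX
  have hlz : ∀ n, |lamz z n| ≤ Real.log N := by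
    intro n
    rw [abs_of_nonneg (lamz_nonneg z n)]
    unfold lamz
    split_ifs
    · exact hVinv
    · exact hL0.le
  have hΛ : ∀ n ≤ N, |ArithmeticFunction.vonMangoldt n| ≤ Real.log N := by
    intro n hn
    rw [abs_of_nonneg ArithmeticFunction.vonMangoldt_nonneg]
    rcases Nat.eq_zero_or_pos n with h0 | h0
    · rw [h0]
      simp
      exact hL0.le
    · exact ArithmeticFunction.vonMangoldt_le_log.trans (Real.log_le_log (by exact_mod_cast h0) (by exact_mod_cast hn))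
  have hsupf : ∀ a'' X' : ℕ, 1 ≤ a'' → ∀ U', U' ≤ U1 + U2 → ∀ α : ℝ, ‖∑ n ∈ Icc 1 (2 * (B' * N)), (fd z a'' X' n : ℂ) * ee ((n : ℝ) * α)‖ ≤
      N / Real.log N ^ U' := by
    intro a'' X' ha'' U' hU' α
    have e1 := hsd N (by omega) z hz1 hz2 a'' X' H ha'' hHB.le α
    rw [hH] at e1
    refine e1.trans (div_le_div_of_nonneg_left hN0.le (by positivity) (pow_le_pow_right₀ hL1 hU'))
  have hccB : |cc| ≤ ((B' - (2 * κ.natAbs + 1) : ℕ) : ℤ) * N := by
    have e : B' - (2 * κ.natAbs + 1) = B := by omega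
    rw [e]
    exact hcc
  have hccB' : |-cc| ≤ ((B' - (2 * (-κ).natAbs + 1) : ℕ) : ℤ) * N := by
    rw [abs_neg, Int.natAbs_neg]
    exact hccB
  have m1 := h1 k (by omega) p hp N hN1 hN2 cc hccB
    (fun m => if b ∣ m ∧ m ≤ b * X then ArithmeticFunction.vonMangoldt (m / b) else 0) (fd z a' H) (by
      intro m _
      split_ifs with hc
      · apply hΛ
        exact (Nat.div_le_self m b).trans (hc.2.trans hX)
      · rw [abs_zero]
        exact hL0.le) (fun n hn => h3 N (by omega) z hz hz2 a' H n (by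
      rw [mem_Icc] at hn
      rw [← hHB, hH]
      exact hn.2)) (hsupf a' H ha U1 (by omega))
  have m2 := h2 k (by omega) p hp N hN1 hN2 (-cc) hccB'
    (fun n => if a' ∣ n then lamz z (n / a') else 0) (fd z b X) (by
      intro m _
      split_ifs with hc
      · exact hlz _
      · rw [abs_zero]
        exact hL0.le) (fun n hn => h3 N (by omega) z hz hz2 b X n (by
      rw [mem_Icc] at hn
      rw [← hHB, hH]
      exact hn.2)) (hsupf b X hb U2 (by omega))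
  have hp0 := SB_nonneg a k p hp
  have hpt : ∀ v ∈ Ω, p v * err z a' b (s v) X ≤
      p v * |∑ n ∈ Icc 1 (B' * N), (if b ∣ n ∧ n ≤ b * X then ArithmeticFunction.vonMangoldt (n / b) else 0) *
        fr (fd z a' H) (2 * (B' * N)) ((n : ℤ) + (cc + κ * (v : ℕ)))| +
      p v * |∑ n ∈ Icc 1 (B' * N), (if a' ∣ n then lamz z (n / a') else 0) *
        fr (fd z b X) (2 * (B' * N)) ((n : ℤ) + (-cc + -κ * (v : ℕ)))| := by
    intro v hv
    have hvr := mem_range.1 (hΩ hv)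
    have hsv := hs v hv
    have hsb : s v ≤ (B' - 1) * N := by
      have e1 : |κ * (v : ℤ)| ≤ κ.natAbs * (2 * N) := by
        rw [abs_mul, Nat.abs_cast]
        have e2 : (|κ| : ℤ) = κ.natAbs := (Int.natCast_natAbs κ).symm
        rw [e2]
        apply mul_le_mul_of_nonneg_left _ (by positivity)
        have : (v : ℤ) ≤ ((2 * N : ℕ) : ℤ) := by exact_mod_cast (by omega : v ≤ 2 * N)
        push_cast at this
        exact this
      have e3 := abs_le.1 e1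
      have e4 := abs_le.1 hcc
      have e5 : ((B' - 1 : ℕ) : ℤ) = B + 2 * κ.natAbs := by
        rw [hB']
        have : B + (2 * κ.natAbs + 1) - 1 = B + 2 * κ.natAbs := by omega
        rw [this]
        push_cast
        ring
      have e6 : (s v : ℤ) ≤ (((B' - 1) * N : ℕ) : ℤ) := by
        rw [hsv]
        push_cast
        rw [e5]
        nlinarith [e3.2, e4.2]
      exact_mod_cast e6
    have e0 : (B' - 1) * N + N = B' * N := by
      rw [Nat.sub_mul, one_mul, Nat.sub_add_cancel]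
      exact Nat.le_mul_of_pos_left N (by omega)
    rw [← mul_add]
    apply mul_le_mul_of_nonneg_left _ (hp0 v)
    unfold err
    rw [cor_sub, first_eq z a' b (s v) X (B' * N) H hb (by omega) (by rw [hH]; omega),
      second_eq z a' b (s v) X (B' * N) H hb (by omega) (by rw [hH]; omega)]
    have e7 : ∀ n : ℕ, (n : ℤ) + ((s v : ℕ) : ℤ) = (n : ℤ) + (cc + κ * (v : ℕ)) := fun n => by rw [hsv]
    have e8 : ∀ n : ℕ, (n : ℤ) + (-((s v : ℕ) : ℤ)) = (n : ℤ) + (-cc + -κ * (v : ℕ)) := fun n => by rw [hsv]; ring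
    simp only [e7, e8, ← hH]
    exact abs_add_le _ _
  refine (sum_le_sum hpt).trans ?_
  rw [sum_add_distrib]
  have t1 := (sum_le_sum_of_subset_of_nonneg hΩ (fun v _ _ => mul_nonneg (hp0 v) (abs_nonneg _))).trans m1
  have t2 := (sum_le_sum_of_subset_of_nonneg hΩ (fun v _ _ => mul_nonneg (hp0 v) (abs_nonneg _))).trans m2
  refine (add_le_add t1 t2).trans ?_
  rw [pow_succ]
  have e : (N : ℝ) / (Real.log N ^ U * Real.log N) + N / (Real.log N ^ U * Real.log N) =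
      (2 / Real.log N) * (N / Real.log N ^ U) := by
    field_simp
    ring
  rw [e]
  calc 2 / Real.log N * (N / Real.log N ^ U) ≤ 1 * (N / Real.log N ^ U) := by
        apply mul_le_mul_of_nonneg_right _ (by positivity)
        rw [div_le_one hL0]
        exact hL
    _ = _ := one_mul _

lemma Good.mono {ε : ℝ} {A U U' N c : ℕ} (hU : U ≤ U') (hN : 1 ≤ Real.log N) (h : Good ε A U' N c) : Good ε A U N c := by
  intro j a b u v h1 h2 h3 h4 h5 h6 h7 h8 h9 h10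
  obtain ⟨S, g1, g2, g3, g4⟩ := h j a b u v h1 h2 h3 h4 h5 h6 h7 h8 h9 h10
  exact ⟨S, g1, g2, g3.trans (div_le_div_of_nonneg_left (Nat.cast_nonneg _) (by positivity) (pow_le_pow_right₀ hN hU)), g4⟩

open Classical in
/-- all the constants near the values -/
theorem Rapid.ap (h : Rapid g) (κ : ℤ) (hκ : κ ≠ 0) (A B U W a : ℕ) (ε : ℝ) (hε : 0 < ε) :
    ∃ N₀ : ℕ, ∀ N : ℕ, N₀ ≤ N → ∀ x y : ℕ, Rng g a N x y → ∀ c₀ : ℤ, |c₀| ≤ B * N →
      (((Ioc y x).filter fun n : ℕ => ¬ ∀ c : ℕ, 1 ≤ c →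
        |(c : ℝ) - (c₀ + κ * (⌊Real.exp (g (Real.log n))⌋₊ : ℕ))| ≤ Real.log N ^ W → Good ε A U N c).card : ℝ) ≤
        ((x : ℝ) - y) / Real.log N ^ U := by
  obtain ⟨δ, C, L₀, hf⟩ := h.fast
  obtain ⟨U', hU'⟩ : ∃ U', U' = U + W + 4 := ⟨_, rfl⟩
  obtain ⟨V, hV⟩ : ∃ V, V = 4 * A + 2 * U' + 4 := ⟨_, rfl⟩
  obtain ⟨B2, hB2⟩ : ∃ B2, B2 = B + 1 + 2 * κ.natAbs := ⟨_, rfl⟩
  obtain ⟨B0, h0⟩ := hf.err_moment (a + 1) κ hκ (B + 1) V
  obtain ⟨E, n1, h1⟩ := union A B2 U' V B0 hV ε hε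
  obtain ⟨k1, h2⟩ := h0 E
  obtain ⟨n3, h3⟩ := ev_L' (3 ^ (U + 2) + 1)
  obtain ⟨n4, h4⟩ : ∃ n4 : ℕ, ∀ N : ℕ, n4 ≤ N → Real.log N ^ W ≤ N := by
    have e1 := (isLittleO_log_rpow_atTop (r := 1) one_pos)
    have e2 : (fun x : ℝ => Real.log x ^ W) =o[atTop] fun x : ℝ => x := Real.isLittleO_pow_log_id_atTop
    have e3 := (e2.bound (show (0 : ℝ) < 1 by norm_num))
    obtain ⟨n4, h5⟩ := eventually_atTop.mp ((tendsto_natCast_atTop_atTop (R := ℝ)).eventually e3)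
    refine ⟨n4, fun N hN => ?_⟩
    have h6 := h5 N hN
    rw [one_mul, Real.norm_of_nonneg (Nat.cast_nonneg N)] at h6
    exact (le_abs_self _).trans h6
  refine ⟨n1 + 2 ^ k1 + n3 + n4 + 4, fun N hN x y hr c₀ hc₀ => ?_⟩
  have hk2 : 0 < 2 ^ k1 := by positivity
  have hN4 : 4 ≤ N := by omega
  obtain ⟨L, hL⟩ : ∃ L : ℝ, L = Real.log (N : ℝ) := ⟨_, rfl⟩
  have hLb := h3 N (by omega)
  have hNW := h4 N (by omega)
  rw [← hL] at hLb hNW
  have q1 : (0 : ℝ) < 3 ^ (U + 2) := by positivity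
  have hL1 : 1 ≤ L := by linarith
  have hL0 : 0 < L := by linarith
  have hN0 : (0 : ℝ) < N := by exact_mod_cast (by omega : 0 < N)
  obtain ⟨k, hk⟩ : ∃ k, k = Pool.Agent.N193.PS.dg N := ⟨_, rfl⟩
  have hkN := Pool.Agent.N193.PS.lt_dg N
  have hkN2 := Pool.Agent.N193.PS.dg_le N (by omega)
  have hkl := Pool.Agent.N193.PS.dg_le_log N (by omega)
  have hkk := Pool.Agent.N193.PS.dg_large k1 N (by omega)
  rw [← hk] at hkN hkN2 hkl hkk
  rw [← hL] at hkl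
  refine hr.count hN4 U (fun v => ∀ c : ℕ, 1 ≤ c → |(c : ℝ) - (c₀ + κ * (v : ℕ))| ≤ Real.log N ^ W → Good ε A U N c) ?_
  intro p hp
  rw [← hk] at hp ⊢
  have hp0 := SB_nonneg (a + 1) k p hp
  obtain ⟨T, hT⟩ : ∃ T, T = ⌊L ^ W⌋₊ := ⟨_, rfl⟩
  have hTr : (T : ℝ) ≤ L ^ W := by rw [hT]; exact Nat.floor_le (by positivity)
  have hTN : T ≤ N := by exact_mod_cast hTr.trans hNW
  -- one offset
  have hone : ∀ t ∈ Icc (-(T : ℤ)) T, ∑ v ∈ range (2 ^ k),
      (if 1 ≤ c₀ + t + κ * (v : ℤ) ∧ ¬ Good ε A U' N (c₀ + t + κ * (v : ℤ)).toNat then p v else 0) ≤ 1 / L ^ U' := by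
    intro t ht
    rw [mem_Icc] at ht
    have htN : |t| ≤ N := abs_le.2 ⟨by have : (T : ℤ) ≤ N := by exact_mod_cast hTN
                                       linarith [ht.1], by have : (T : ℤ) ≤ N := by exact_mod_cast hTN
                                                           linarith [ht.2]⟩
    have hct : |c₀ + t| ≤ ((B + 1 : ℕ) : ℤ) * N := by
      refine (abs_add_le _ _).trans ?_
      push_cast
      linarith
    obtain ⟨Ω, hΩ⟩ : ∃ Ω : Finset ℕ, Ω = (range (2 ^ k)).filter (fun v : ℕ => 1 ≤ c₀ + t + κ * (v : ℤ)) := ⟨_, rfl⟩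
    have hs : ∀ v ∈ Ω, (((c₀ + t + κ * (v : ℤ)).toNat : ℕ) : ℤ) = (c₀ + t) + κ * (v : ℕ) := by
      intro v hv
      rw [hΩ, mem_filter] at hv
      exact Int.toNat_of_nonneg (by linarith [hv.2])
    have hsb : ∀ v ∈ Ω, (c₀ + t + κ * (v : ℤ)).toNat ≤ B2 * N := by
      intro v hv
      have e0 := hs v hv
      rw [hΩ, mem_filter, mem_range] at hv
      have e1 : |κ * (v : ℤ)| ≤ κ.natAbs * (2 * N) := by
        rw [abs_mul, Nat.abs_cast]
        have e2 : (|κ| : ℤ) = κ.natAbs := (Int.natCast_natAbs κ).symm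
        rw [e2]
        apply mul_le_mul_of_nonneg_left _ (by positivity)
        have : (v : ℤ) ≤ ((2 * N : ℕ) : ℤ) := by exact_mod_cast (by omega : v ≤ 2 * N)
        push_cast at this
        exact this
      have e3 := abs_le.1 e1
      have e4 := abs_le.1 hct
      have e5 : (((c₀ + t + κ * (v : ℤ)).toNat : ℕ) : ℤ) ≤ ((B2 * N : ℕ) : ℤ) := by
        rw [e0, hB2]
        have e6 := e3.2
        have e7 := e4.2
        push_cast at e6 e7 ⊢
        nlinarith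
      exact_mod_cast e5
    have e1 := h1 N (by omega) Ω p (fun v => (c₀ + t + κ * (v : ℤ)).toNat) (fun v _ => hp0 v) hsb
      (fun z hz1 hz2 a' b X ha hb hX => h2 k (by omega) p hp N hkN hkN2 (c₀ + t) hct Ω (by rw [hΩ]; exact filter_subset _ _)
        (fun v => (c₀ + t + κ * (v : ℤ)).toNat) hs z hz1 hz2 a' b X ha hb hX)
    rw [← hL] at e1
    refine le_trans (le_of_eq ?_) e1
    rw [hΩ, sum_filter]
    apply sum_congr rfl
    intro v _
    by_cases h5 : 1 ≤ c₀ + t + κ * (v : ℤ)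
    · rw [if_pos h5]
      by_cases h6 : ¬ Good ε A U' N (c₀ + t + κ * (v : ℤ)).toNat
      · rw [if_pos ⟨h5, h6⟩, if_pos h6]
      · rw [if_neg (fun h => h6 h.2), if_neg h6]
    · rw [if_neg h5, if_neg (fun h => h5 h.1)]
  -- all the offsets
  have hpt : ∀ v ∈ range (2 ^ k), (if ∀ c : ℕ, 1 ≤ c → |(c : ℝ) - (c₀ + κ * (v : ℕ))| ≤ Real.log N ^ W → Good ε A U N c then 0 else p v) ≤
      ∑ t ∈ Icc (-(T : ℤ)) T, (if 1 ≤ c₀ + t + κ * (v : ℤ) ∧ ¬ Good ε A U' N (c₀ + t + κ * (v : ℤ)).toNat then p v else 0) := by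
    intro v _
    have hnn : ∀ t ∈ Icc (-(T : ℤ)) T, (0 : ℝ) ≤ (if 1 ≤ c₀ + t + κ * (v : ℤ) ∧ ¬ Good ε A U' N (c₀ + t + κ * (v : ℤ)).toNat then p v else 0) := by
      intro t _
      split_ifs
      · exact hp0 v
      · exact le_rfl
    split_ifs with hc
    · exact sum_nonneg hnn
    · push Not at hc
      obtain ⟨c, hc1, hc2, hc3⟩ := hc
      obtain ⟨t, ht⟩ : ∃ t : ℤ, t = (c : ℤ) - (c₀ + κ * (v : ℤ)) := ⟨_, rfl⟩
      have ht' : ((|t| : ℤ) : ℝ) ≤ L ^ W := by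
        rw [ht, hL]
        push_cast
        exact hc2
      have ht2 : |t| ≤ (T : ℤ) := by
        have e1 : t.natAbs ≤ T := by
          rw [hT]
          apply Nat.le_floor
          have e2 : ((t.natAbs : ℕ) : ℝ) = ((|t| : ℤ) : ℝ) := by
            rw [← Int.natCast_natAbs]
            rfl
          rw [e2]
          exact ht'
        rw [← Int.natCast_natAbs]
        exact_mod_cast e1
      have e3 : c₀ + t + κ * (v : ℤ) = (c : ℤ) := by rw [ht]; ring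
      have hmem : t ∈ Icc (-(T : ℤ)) T := mem_Icc.2 (abs_le.1 ht2)
      refine le_trans (le_of_eq ?_) (single_le_sum hnn hmem)
      rw [if_pos]
      rw [e3]
      refine ⟨by exact_mod_cast hc1, fun hG => hc3 ?_⟩
      rw [Int.toNat_natCast] at hG
      exact Good.mono (by omega) (by rw [← hL]; exact hL1) hG
  refine (sum_le_sum hpt).trans ?_
  rw [sum_comm]
  refine (sum_le_sum hone).trans ?_
  rw [sum_const, nsmul_eq_mul, Int.card_Icc]
  have e1 : ((((T : ℤ) + 1 - (-(T : ℤ))).toNat : ℕ) : ℝ) ≤ 3 * L ^ W := by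
    have e2 : ((T : ℤ) + 1 - (-(T : ℤ))).toNat = 2 * T + 1 := by omega
    rw [e2]
    push_cast
    have e3 : 1 ≤ L ^ W := one_le_pow₀ hL1
    linarith
  have hk0 : (0 : ℝ) < k := by
    rcases Nat.eq_zero_or_pos k with h9 | h9
    · rw [h9, pow_zero] at hkN
      omega
    · exact_mod_cast h9
  have e4 : (k : ℝ) ^ (U + 1) ≤ 3 ^ (U + 1) * L ^ (U + 1) := by
    rw [← mul_pow]
    exact pow_le_pow_left₀ hk0.le hkl _
  calc ((((T : ℤ) + 1 - (-(T : ℤ))).toNat : ℕ) : ℝ) * (1 / L ^ U') ≤ (3 * L ^ W) * (1 / L ^ U') :=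
        mul_le_mul_of_nonneg_right e1 (by positivity)
    _ = 3 / L ^ (U + 4) := by
        rw [hU', show U + W + 4 = W + (U + 4) by ring, pow_add L W]
        field_simp
    _ ≤ 1 / (3 ^ (U + 1) * L ^ (U + 1)) := by
        rw [div_le_div_iff₀ (by positivity) (by positivity), one_mul, show U + 4 = (U + 1) + 3 by ring, pow_add L (U + 1) 3]
        have e5 : (3 : ℝ) * 3 ^ (U + 1) ≤ L ^ 3 := by
          have e6 : (3 : ℝ) * 3 ^ (U + 1) = 3 ^ (U + 2) := by rw [pow_succ 3 (U + 1)]; ring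
          rw [e6]
          have e7 : L ≤ L ^ 3 := by nlinarith [sq_nonneg L, sq_nonneg (L - 1)]
          linarith
        have e8 := mul_le_mul_of_nonneg_left e5 (by positivity : (0 : ℝ) ≤ L ^ (U + 1))
        linarith
    _ ≤ 1 / (k : ℝ) ^ (U + 1) := div_le_div_of_nonneg_left zero_le_one (by positivity) e4

end Pool.Agent.Run7.h673.SP
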