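import Pool.Agent.Run7.h794.MK.SupR
import Pool.Agent.Run7.h673.SP.Mob

/-!
# Sup norms of exponential sums along random sequences of values of rapid functions

`class_gen` and `sup_gen` are adapted from `Pool.Agent.Run7.h794.MK.SupN` and `SupR` (helper794), where the families are flat.
-/

set_option autoImplicit false

namespace Pool.Agent.Run7.h673.SP

open Finset Filter
open Pool.Agent.Run7.h794.MK
open Pool.Agent.N384.MQ (ev_log_pow ev_log_ge)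
open Pool.Agent.Run7.h27.MK (gI)

/-- **The class theorem.** -/
theorem class_gen {g : ℕ → ℝ} (hg1 : ∀ n, |g n| ≤ 1) (A T U S : ℕ) :
    ∃ N₀ : ℕ, ∀ N : ℕ, N₀ ≤ N → ∀ (s : Finset ℕ) (v : ℕ → ℕ), s.Nonempty → ∀ cc : ℕ,
    (∀ κ : ℕ, 1 ≤ κ → (κ : ℝ) ≤ Real.log N ^ T →
      ∑ n ∈ Icc 1 N, ((∑ b ∈ s, g (n + cc + κ * v b)) / s.card) ^ 2 ≤ N / Real.log N ^ (T + 2 * U + A + 1)) →
    ∀ M : ℕ, (M : ℝ) ≤ Real.log N ^ U → ∀ 𝒞 : Finset (Fin M → ℝ), (𝒞.card : ℝ) ≤ Real.log N ^ S →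
    ∃ Bad ⊆ Fintype.piFinset (fun _ : Fin M => s), (Bad.card : ℝ) ≤ (s.card : ℝ) ^ M / Real.log N ^ A ∧
      ∀ i ∈ Fintype.piFinset (fun _ : Fin M => s), i ∉ Bad →
      ∃ E ⊆ Icc 1 N, (E.card : ℝ) ≤ N / Real.log N ^ A ∧ ∀ n ∈ Icc 1 N, n ∉ E →
      ∀ κ : ℕ, 1 ≤ κ → (κ : ℝ) ≤ Real.log N ^ T → ∀ c ∈ 𝒞,
      |∑ l, c l * g (n + cc + κ * v (i l))| ≤
        √(2 * ((T + S + 2 * A + 1 : ℕ) * Real.log (Real.log N))) * √(∑ l, c l ^ 2) := by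
  classical
  obtain ⟨R, hR⟩ : ∃ R, R = T + S + 2 * A + 1 := ⟨_, rfl⟩
  rw [← hR]
  obtain ⟨N₂, hev⟩ := ev_tup 1
  refine ⟨N₂ + 3, fun N hN s v hs cc hsum0 M hM 𝒞 h𝒞 => ?_⟩
  obtain ⟨a1, -⟩ := hev N (by omega)
  have hN0 : (0 : ℝ) < N := by exact_mod_cast (by omega : 0 < N)
  have hs0 : (0 : ℝ) < s.card := by exact_mod_cast hs.card_pos
  obtain ⟨L, hL⟩ : ∃ L, L = Real.log (N : ℝ) := ⟨_, rfl⟩
  rw [← hL] at a1 hM h𝒞 hsum0 ⊢
  have hL0 : 0 < L := by linarith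
  have hL1 : 1 ≤ L := by linarith
  have hlogL : 0 ≤ Real.log L := Real.log_nonneg hL1
  obtain ⟨K, hK⟩ : ∃ K : ℕ, K = ⌊L ^ T⌋₊ := ⟨_, rfl⟩
  have hK1 : (K : ℝ) ≤ L ^ T := by rw [hK]; exact Nat.floor_le (by positivity)
  obtain ⟨f, hfd⟩ : ∃ f : ℕ → ℕ → ℕ → ℝ, ∀ n κ b, f n κ b = g (n + cc + κ * v b) := ⟨_, fun _ _ _ => rfl⟩
  obtain ⟨τ, hτ⟩ : ∃ τ, τ = √(2 * (R * Real.log L)) := ⟨_, rfl⟩
  have hτ0 : 0 ≤ τ := by rw [hτ]; exact Real.sqrt_nonneg _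
  have hτ2 : Real.exp (-(τ ^ 2 / 2)) = 1 / L ^ R := by
    rw [hτ, Real.sq_sqrt (by positivity)]
    have e1 : 2 * ((R : ℝ) * Real.log L) / 2 = R * Real.log L := by ring
    rw [e1, Real.exp_neg, Real.exp_nat_mul, Real.exp_log hL0, one_div]
  -- the bad points
  obtain ⟨B, hB⟩ : ∃ B : Finset ℕ, ∀ n, n ∈ B ↔ n ∈ Icc 1 N ∧ ∃ κ ∈ Icc 1 K, 1 / L ^ U * s.card < |∑ b ∈ s, f n κ b| :=
    ex_filter _ _
  have hBs : B ⊆ Icc 1 N := fun n hn => ((hB n).1 hn).1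
  have hsum : ∀ κ ∈ Icc 1 K, ∑ n ∈ Icc 1 N, ((∑ b ∈ s, f n κ b) / s.card) ^ 2 ≤ N / L ^ (T + 2 * U + A + 1) := by
    intro κ hκ
    rw [mem_Icc] at hκ
    have h2 := hsum0 κ hκ.1 (by
      have : (κ : ℝ) ≤ K := by exact_mod_cast hκ.2
      exact this.trans hK1)
    simp only [hfd]
    exact h2
  have hBc : (B.card : ℝ) ≤ N / L ^ A * (1 / L) := by
    have h2 : (B.card : ℝ) * (1 / L ^ U) ^ 2 ≤ ∑ κ ∈ Icc 1 K, ∑ n ∈ Icc 1 N, ((∑ b ∈ s, f n κ b) / s.card) ^ 2 := by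
      rw [sum_comm]
      calc (B.card : ℝ) * (1 / L ^ U) ^ 2 = ∑ n ∈ B, (1 / L ^ U) ^ 2 := by rw [sum_const, nsmul_eq_mul]
        _ ≤ ∑ n ∈ B, ∑ κ ∈ Icc 1 K, ((∑ b ∈ s, f n κ b) / s.card) ^ 2 := by
            apply sum_le_sum
            intro n hn
            rw [hB] at hn
            obtain ⟨-, κ, hκ, h3⟩ := hn
            refine le_trans ?_ (single_le_sum (f := fun κ => ((∑ b ∈ s, f n κ b) / s.card) ^ 2) (fun _ _ => sq_nonneg _) hκ)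
            rw [← sq_abs ((∑ b ∈ s, f n κ b) / s.card)]
            apply pow_le_pow_left₀ (by positivity)
            rw [abs_div, abs_of_pos hs0, le_div_iff₀ hs0]
            exact h3.le
        _ ≤ _ := sum_le_sum_of_subset_of_nonneg hBs
            fun _ _ _ => sum_nonneg fun _ _ => sq_nonneg _
    have h3 : ∑ κ ∈ Icc 1 K, ∑ n ∈ Icc 1 N, ((∑ b ∈ s, f n κ b) / s.card) ^ 2 ≤ L ^ T * (N / L ^ (T + 2 * U + A + 1)) := by
      refine (sum_le_sum hsum).trans ?_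
      rw [sum_const, Nat.card_Icc, Nat.add_sub_cancel, nsmul_eq_mul]
      exact mul_le_mul_of_nonneg_right hK1 (by positivity)
    have h4 := h2.trans h3
    have e1 : L ^ T * (N / L ^ (T + 2 * U + A + 1)) = (N / L ^ A * (1 / L)) * (1 / L ^ U) ^ 2 := by
      have : L ^ (T + 2 * U + A + 1) = L ^ T * (L ^ U) ^ 2 * L ^ A * L := by ring
      rw [this]
      field_simp
    rw [e1] at h4
    exact le_of_mul_le_mul_right h4 (by positivity)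
  -- Hoeffding at the good points
  have hgood : ∀ n ∈ Icc 1 N \ B, ∀ κ ∈ Icc 1 K, ∀ c ∈ 𝒞,
      (((Fintype.piFinset (fun _ : Fin M => s)).filter
        (fun i => τ * √(∑ l, c l ^ 2) < |∑ l, c l * f n κ (i l)|)).card : ℝ) ≤ (s.card : ℝ) ^ M * (6 * (1 / L ^ R)) := by
    intro n hn κ hκ c _
    rw [Finset.mem_sdiff] at hn
    have hm : |∑ b ∈ s, f n κ b| ≤ 1 / L ^ U * s.card := by
      by_contra hcon
      push Not at hcon
      apply hn.2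
      rw [hB]
      exact ⟨hn.1, κ, hκ, hcon⟩
    have h2 := hoeffding s M (f n κ) (fun b _ => by rw [hfd]; exact hg1 _) (1 / L ^ U) (by
      rw [mul_one_div, div_le_one (by positivity)]
      exact hM) hm c τ hτ0
    rw [hτ2] at h2
    exact h2
  obtain ⟨cnt, hcnt⟩ : ∃ cnt : (Fin M → ℕ) → ℝ, ∀ i, cnt i = ∑ n ∈ Icc 1 N \ B, ∑ κ ∈ Icc 1 K, ∑ c ∈ 𝒞,
    (if τ * √(∑ l, c l ^ 2) < |∑ l, c l * f n κ (i l)| then (1 : ℝ) else 0) := ⟨_, fun _ => rfl⟩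
  have hcnt0 : ∀ i, 0 ≤ cnt i := by
    intro i
    rw [hcnt]
    exact sum_nonneg fun _ _ => sum_nonneg fun _ _ => sum_nonneg fun _ _ => by split_ifs <;> norm_num
  have htot : ∑ i ∈ Fintype.piFinset (fun _ : Fin M => s), cnt i ≤
      N * (L ^ T * (L ^ S * ((s.card : ℝ) ^ M * (6 * (1 / L ^ R))))) := by
    have e1 : ∑ i ∈ Fintype.piFinset (fun _ : Fin M => s), cnt i = ∑ n ∈ Icc 1 N \ B, ∑ κ ∈ Icc 1 K, ∑ c ∈ 𝒞,
        (((Fintype.piFinset (fun _ : Fin M => s)).filter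
          (fun i => τ * √(∑ l, c l ^ 2) < |∑ l, c l * f n κ (i l)|)).card : ℝ) := by
      simp only [hcnt]
      rw [sum_comm]
      apply sum_congr rfl; intro n _
      rw [sum_comm]
      apply sum_congr rfl; intro κ _
      rw [sum_comm]
      apply sum_congr rfl; intro c _
      rw [card_filter]
      push_cast
      rfl
    rw [e1]
    have e2 : ((Icc 1 N \ B).card : ℝ) ≤ N := by
      have := card_le_card (sdiff_subset : Icc 1 N \ B ⊆ Icc 1 N)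
      rw [Nat.card_Icc, Nat.add_sub_cancel] at this
      exact_mod_cast this
    calc ∑ n ∈ Icc 1 N \ B, ∑ κ ∈ Icc 1 K, ∑ c ∈ 𝒞, (((Fintype.piFinset (fun _ : Fin M => s)).filter
          (fun i => τ * √(∑ l, c l ^ 2) < |∑ l, c l * f n κ (i l)|)).card : ℝ)
        ≤ ∑ n ∈ Icc 1 N \ B, ∑ κ ∈ Icc 1 K, ∑ c ∈ 𝒞, ((s.card : ℝ) ^ M * (6 * (1 / L ^ R))) :=
          sum_le_sum fun n hn => sum_le_sum fun κ hκ => sum_le_sum fun c hc => hgood n hn κ hκ c hc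
      _ = ((Icc 1 N \ B).card : ℝ) * (K * (𝒞.card * ((s.card : ℝ) ^ M * (6 * (1 / L ^ R))))) := by
          rw [sum_const, sum_const, sum_const, Nat.card_Icc, Nat.add_sub_cancel]
          simp only [nsmul_eq_mul]
      _ ≤ _ := by gcongr
  obtain ⟨Bad, hBad⟩ : ∃ Bad : Finset (Fin M → ℕ), ∀ i, i ∈ Bad ↔ i ∈ Fintype.piFinset (fun _ : Fin M => s) ∧
    (N : ℝ) / L ^ A * (1 / 2) < cnt i := ex_filter _ _
  have hBads : Bad ⊆ Fintype.piFinset (fun _ : Fin M => s) := fun i hi => ((hBad i).1 hi).1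
  refine ⟨Bad, hBads, ?_, ?_⟩
  · have h1 : (Bad.card : ℝ) * ((N : ℝ) / L ^ A * (1 / 2)) ≤ ∑ i ∈ Fintype.piFinset (fun _ : Fin M => s), cnt i := by
      calc (Bad.card : ℝ) * ((N : ℝ) / L ^ A * (1 / 2)) = ∑ i ∈ Bad, ((N : ℝ) / L ^ A * (1 / 2)) := by
            rw [sum_const, nsmul_eq_mul]
        _ ≤ ∑ i ∈ Bad, cnt i := sum_le_sum fun i hi => by
            rw [hBad] at hi
            exact hi.2.le
        _ ≤ _ := sum_le_sum_of_subset_of_nonneg hBads fun _ _ _ => hcnt0 _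
    have h2 := h1.trans htot
    have e1 : L ^ R = L ^ T * L ^ S * L ^ A * L ^ A * L := by
      rw [hR]; ring
    have e2 : N * (L ^ T * (L ^ S * ((s.card : ℝ) ^ M * (6 * (1 / L ^ R))))) =
        ((s.card : ℝ) ^ M / L ^ A * (12 / L)) * (N / L ^ A * (1 / 2)) := by
      rw [e1]; field_simp; ring
    rw [e2] at h2
    have h3 : (Bad.card : ℝ) ≤ (s.card : ℝ) ^ M / L ^ A * (12 / L) := le_of_mul_le_mul_right h2 (by positivity)
    refine h3.trans ?_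
    have h4 : 12 / L ≤ 1 := by rw [div_le_one hL0]; linarith
    exact mul_le_of_le_one_right (by positivity) h4
  · intro i hi hbad
    have hci : cnt i ≤ N / L ^ A * (1 / 2) := by
      by_contra hcon
      push Not at hcon
      apply hbad
      rw [hBad]
      exact ⟨hi, hcon⟩
    obtain ⟨E', hE'⟩ : ∃ E' : Finset ℕ, ∀ n, n ∈ E' ↔ n ∈ Icc 1 N \ B ∧
      ∃ κ ∈ Icc 1 K, ∃ c ∈ 𝒞, τ * √(∑ l, c l ^ 2) < |∑ l, c l * f n κ (i l)| := ex_filter _ _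
    have hE's : E' ⊆ Icc 1 N \ B := fun n hn => ((hE' n).1 hn).1
    have hE'c : (E'.card : ℝ) ≤ cnt i := by
      rw [hcnt]
      calc (E'.card : ℝ) = ∑ n ∈ E', (1 : ℝ) := by rw [sum_const, nsmul_eq_mul, mul_one]
        _ ≤ ∑ n ∈ E', ∑ κ ∈ Icc 1 K, ∑ c ∈ 𝒞,
            (if τ * √(∑ l, c l ^ 2) < |∑ l, c l * f n κ (i l)| then (1 : ℝ) else 0) := by
          apply sum_le_sum
          intro n hn
          rw [hE'] at hn
          obtain ⟨-, κ, hκ, c, hc, h2⟩ := hn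
          refine le_trans ?_ (single_le_sum (f := fun κ => ∑ c ∈ 𝒞,
            (if τ * √(∑ l, c l ^ 2) < |∑ l, c l * f n κ (i l)| then (1 : ℝ) else 0))
            (fun _ _ => sum_nonneg fun _ _ => by split_ifs <;> norm_num) hκ)
          refine le_trans ?_ (single_le_sum (f := fun c : Fin M → ℝ =>
            (if τ * √(∑ l, c l ^ 2) < |∑ l, c l * f n κ (i l)| then (1 : ℝ) else 0))
            (fun _ _ => by split_ifs <;> norm_num) hc)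
          simp only [if_pos h2, le_refl]
        _ ≤ _ := sum_le_sum_of_subset_of_nonneg hE's fun _ _ _ =>
            sum_nonneg fun _ _ => sum_nonneg fun _ _ => by split_ifs <;> norm_num
    refine ⟨B ∪ E', union_subset hBs (hE's.trans sdiff_subset), ?_, ?_⟩
    · have h1 : ((B ∪ E').card : ℝ) ≤ B.card + E'.card := by exact_mod_cast card_union_le _ _
      have h2 : (N : ℝ) / L ^ A * (1 / L) ≤ N / L ^ A * (1 / 2) := by
        apply mul_le_mul_of_nonneg_left _ (by positivity)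
        apply one_div_le_one_div_of_le (by norm_num)
        linarith
      calc ((B ∪ E').card : ℝ) ≤ B.card + E'.card := h1
        _ ≤ N / L ^ A * (1 / 2) + N / L ^ A * (1 / 2) := add_le_add (hBc.trans h2) (hE'c.trans hci)
        _ = _ := by ring
    · intro n hn hnE κ hκ1 hκ2 c hc
      rw [mem_union, not_or] at hnE
      by_contra hcon
      push Not at hcon
      apply hnE.2
      rw [hE']
      refine ⟨Finset.mem_sdiff.2 ⟨hn, hnE.1⟩, κ, ?_, c, hc, ?_⟩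
      · rw [mem_Icc, hK]; exact ⟨hκ1, Nat.le_floor hκ2⟩
      · rw [hτ]
        simp only [hfd]
        exact hcon

/-- **Sup norms along random sequences.** -/
theorem sup_gen {g : ℕ → ℝ} (hg1 : ∀ n, |g n| ≤ 1) (A T U : ℕ) :
    ∃ N₀ : ℕ, ∃ K : ℝ, 0 < K ∧ ∀ N : ℕ, N₀ ≤ N → ∀ (s : Finset ℕ) (v : ℕ → ℕ), s.Nonempty → ∀ cc : ℕ,
    (∀ κ : ℕ, 1 ≤ κ → (κ : ℝ) ≤ Real.log N ^ T →
      ∑ n ∈ Icc 1 N, ((∑ b ∈ s, g (n + cc + κ * v b)) / s.card) ^ 2 ≤ N / Real.log N ^ (T + 2 * U + A + 1)) →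
    ∀ M : ℕ, (M : ℝ) ≤ Real.log N ^ U →
    ∃ Bad ⊆ Fintype.piFinset (fun _ : Fin M => s), (Bad.card : ℝ) ≤ (s.card : ℝ) ^ M / Real.log N ^ A ∧
      ∀ i ∈ Fintype.piFinset (fun _ : Fin M => s), i ∉ Bad →
      ∃ E ⊆ Icc 1 N, (E.card : ℝ) ≤ N / Real.log N ^ A ∧ ∀ n ∈ Icc 1 N, n ∉ E →
      ∀ κ : ℕ, 1 ≤ κ → (κ : ℝ) ≤ Real.log N ^ T → ∀ m ≤ M, ∀ x : ℝ,
      ‖Pol g (fun l => n + cc + κ * v (i l)) m x‖ ≤ K * √(m * Real.log (Real.log N)) := by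
  classical
  obtain ⟨S, hS⟩ : ∃ S, S = 3 * U + 2 := ⟨_, rfl⟩
  obtain ⟨N₁, hcl⟩ := class_gen hg1 A T U S
  obtain ⟨N₂, hev⟩ := ev_sup
  obtain ⟨R, hR⟩ : ∃ R, R = T + S + 2 * A + 1 := ⟨_, rfl⟩
  rw [← hR] at hcl
  refine ⟨N₁ + N₂ + 3, 2 * √(2 * R) + 1, by positivity, fun N hN s v hs cc hsum M hM => ?_⟩
  obtain ⟨a1, a2⟩ := hev N (by omega)
  obtain ⟨G, hG⟩ : ∃ G, G = 7 * (M + 1) ^ 2 := ⟨_, rfl⟩
  obtain ⟨𝒞, h𝒞⟩ : ∃ 𝒞 : Finset (Fin M → ℝ), 𝒞 = (range (M + 1) ×ˢ (range G ×ˢ (univ : Finset Bool))).image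
    (fun p => cvec M p.1 p.2.1 G p.2.2) := ⟨_, rfl⟩
  have hcard : (𝒞.card : ℝ) ≤ Real.log N ^ S := by
    have h1 : 𝒞.card ≤ (M + 1) * (G * 2) := by
      rw [h𝒞]
      refine card_image_le.trans ?_
      rw [card_product, card_product, card_range, card_range, card_univ, Fintype.card_bool]
    have hL1 : 1 ≤ Real.log (N : ℝ) ^ U := one_le_pow₀ (by linarith)
    have h2 : (M : ℝ) + 1 ≤ 2 * Real.log N ^ U := by linarith
    calc (𝒞.card : ℝ) ≤ ((M : ℝ) + 1) * (7 * ((M : ℝ) + 1) ^ 2 * 2) := by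
          have : (𝒞.card : ℝ) ≤ ((M + 1) * (G * 2) : ℕ) := by exact_mod_cast h1
          refine this.trans (le_of_eq ?_)
          rw [hG]
          push_cast
          ring
      _ = 14 * ((M : ℝ) + 1) ^ 3 := by ring
      _ ≤ 14 * (2 * Real.log N ^ U) ^ 3 := by gcongr
      _ = 112 * (Real.log N ^ U) ^ 3 := by ring
      _ ≤ (Real.log N * Real.log N) * (Real.log N ^ U) ^ 3 := by
          apply mul_le_mul_of_nonneg_right _ (by positivity)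
          nlinarith
      _ = Real.log N ^ S := by rw [hS]; ring
  obtain ⟨Bad, hB1, hB2, hB3⟩ := hcl N (by omega) s v hs cc hsum M hM 𝒞 hcard
  refine ⟨Bad, hB1, hB2, fun i hi hbad => ?_⟩
  obtain ⟨E, hE1, hE2, hE3⟩ := hB3 i hi hbad
  refine ⟨E, hE1, hE2, fun n hn hnE κ hκ1 hκ2 m hm x => ?_⟩
  have hE3 := hE3 n hn hnE κ hκ1 hκ2
  rcases Nat.eq_zero_or_pos m with h0 | h0
  · have : Pol g (fun l => n + cc + κ * v (i l)) m x = 0 := by
      rw [Pol_eq, h0]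
      simp
    rw [this, norm_zero]
    positivity
  obtain ⟨a, ha, hx⟩ := Pol_grid hg1 (fun l => n + cc + κ * v (i l)) m hm G (by rw [hG]) x
  refine hx.trans ?_
  have hmem : ∀ j : Bool, cvec M m a G j ∈ 𝒞 := by
    intro j
    rw [h𝒞, mem_image]
    exact ⟨(m, a, j), by simp only [mem_product, mem_range, mem_univ, and_true]; exact ⟨by omega, mem_range.1 ha⟩, rfl⟩
  have hb : ∀ j : Bool, |∑ l, cvec M m a G j l * g (n + cc + κ * v (i l))| ≤ √(2 * R) * √(m * Real.log (Real.log N)) := by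
    intro j
    refine (hE3 _ (hmem j)).trans ?_
    have hl0 : 0 ≤ Real.log (Real.log (N : ℝ)) := by linarith
    calc √(2 * ((R : ℕ) * Real.log (Real.log N))) * √(∑ l, cvec M m a G j l ^ 2) ≤
        √(2 * ((R : ℕ) * Real.log (Real.log N))) * √m := mul_le_mul_of_nonneg_left (cvec_sq M m a G hm j) (Real.sqrt_nonneg _)
      _ = √(2 * R) * √(m * Real.log (Real.log N)) := by
          rw [← Real.sqrt_mul (by positivity), ← Real.sqrt_mul (by positivity)]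
          congr 1
          ring
  obtain ⟨hre, him⟩ := Pol_re_im g (fun l => n + cc + κ * v (i l)) m a G
  have h1 := hb true
  have h2 := hb false
  rw [← hre] at h1
  rw [← him] at h2
  have h3 := Complex.norm_le_abs_re_add_abs_im (Pol g (fun l => n + cc + κ * v (i l)) m ((a : ℝ) / G))
  have h4 : 1 ≤ √(m * Real.log (Real.log N)) := by
    rw [Real.one_le_sqrt]
    have : (1 : ℝ) ≤ m := by exact_mod_cast h0
    nlinarith
  calc ‖Pol g (fun l => n + cc + κ * v (i l)) m ((a : ℝ) / G)‖ + 1 ≤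
      (√(2 * R) * √(m * Real.log (Real.log N)) + √(2 * R) * √(m * Real.log (Real.log N))) + √(m * Real.log (Real.log N)) := by
        linarith
    _ = _ := by ring


variable {g : ℝ → ℝ} {δ C L₀ : ℝ}

/-- the mean squares of the averages over the values -/
lemma Fast.msq {G₀ : ℕ → ℝ} (hG₀ : ∀ n, |G₀ n| ≤ 1) (hlaw : S_LAWg G₀) (h : Fast g δ C L₀) (a T U : ℕ) : ∃ C' N₀ : ℕ,
    ∀ N : ℕ, N₀ ≤ N → ∀ x y : ℕ, Rgt g a C' N x y → ∀ c : ℕ, c ≤ N → ∀ κ : ℕ, 1 ≤ κ → (κ : ℝ) ≤ Real.log N ^ T →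
    ∑ n ∈ Icc 1 N, ((∑ k ∈ Ioc y x, G₀ (n + c + κ * val g k)) / (Ioc y x).card) ^ 2 ≤ N / Real.log N ^ U := by
  obtain ⟨C', N₀, h1⟩ := h.corr hlaw a T U
  refine ⟨C', N₀, fun N hN x y hr c hc κ hκ hκT => ?_⟩
  have hyx := hr.1
  have hK0 : (0 : ℝ) < ((x - y : ℕ) : ℝ) := by exact_mod_cast (by omega : 0 < x - y)
  rw [Nat.card_Ioc]
  obtain ⟨Av, hAv⟩ : ∃ Av : ℕ → ℝ, ∀ n, Av n = (∑ k ∈ Ioc y x, G₀ (n + c + κ * val g k)) / ((x - y : ℕ) : ℝ) :=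
    ⟨_, fun _ => rfl⟩
  have hAv1 : ∀ n, |Av n| ≤ 1 := by
    intro n
    rw [hAv, abs_div, abs_of_pos hK0, div_le_one hK0]
    refine (abs_sum_le_sum_abs _ _).trans ((sum_le_sum fun k _ => hG₀ _).trans ?_)
    rw [sum_const, Nat.card_Ioc, nsmul_eq_mul, mul_one]
  have h2 := h1 N hN x y hr (κ : ℤ) (by omega) (by rw [Int.natAbs_natCast]; exact hκT) (c : ℤ) (by
    rw [abs_of_nonneg (Int.natCast_nonneg c)]
    exact_mod_cast hc) 1 one_pos Av (fun n _ => hAv1 n)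
  rw [one_mul] at h2
  simp_rw [← hAv]
  refine le_trans ?_ h2
  have e1 : ∀ n ∈ Icc 1 N, Av n ^ 2 = ∑ k ∈ Ioc y x, 1 / ((x - y : ℕ) : ℝ) *
      (Av n * gI G₀ ((n : ℤ) + ((c : ℤ) + (κ : ℤ) * (val g k : ℕ)))) := by
    intro n hn
    rw [mem_Icc] at hn
    have e2 : ∀ k, gI G₀ ((n : ℤ) + ((c : ℤ) + (κ : ℤ) * (val g k : ℕ))) = G₀ (n + c + κ * val g k) := by
      intro k
      have e3 : (n : ℤ) + ((c : ℤ) + (κ : ℤ) * (val g k : ℕ)) = ((n + c + κ * val g k : ℕ) : ℤ) := by push_cast; ring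
      rw [e3]
      unfold gI
      rw [if_pos (by omega), Int.toNat_natCast]
    simp_rw [e2]
    have e4 : ∀ k ∈ Ioc y x, 1 / ((x - y : ℕ) : ℝ) * (Av n * G₀ (n + c + κ * val g k)) =
        Av n / ((x - y : ℕ) : ℝ) * G₀ (n + c + κ * val g k) := by
      intro k _
      ring
    rw [sum_congr rfl e4, ← mul_sum, sq]
    nth_rewrite 2 [hAv n]
    ring
  rw [sum_congr rfl e1, sum_comm]
  refine sum_le_sum fun k _ => ?_
  rw [← mul_sum]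
  exact mul_le_mul_of_nonneg_left (le_abs_self _) (by positivity)

/-- **sup norms along random sequences of values of rapid functions** -/
theorem Fast.sup {G₀ : ℕ → ℝ} (hG₀ : ∀ n, |G₀ n| ≤ 1) (hlaw : S_LAWg G₀) (h : Fast g δ C L₀) (a A T U : ℕ) :
    ∃ C' N₀ : ℕ, ∃ K : ℝ, 0 < K ∧ ∀ N : ℕ, N₀ ≤ N → ∀ x y : ℕ, Rgt g a C' N x y → ∀ c : ℕ, c ≤ N →
    ∀ M : ℕ, (M : ℝ) ≤ Real.log N ^ U →
    ∃ Bad ⊆ Fintype.piFinset (fun _ : Fin M => Ioc y x), (Bad.card : ℝ) ≤ ((x - y : ℕ) : ℝ) ^ M / Real.log N ^ A ∧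
      ∀ i ∈ Fintype.piFinset (fun _ : Fin M => Ioc y x), i ∉ Bad →
      ∃ E ⊆ Icc 1 N, (E.card : ℝ) ≤ N / Real.log N ^ A ∧ ∀ n ∈ Icc 1 N, n ∉ E →
      ∀ κ : ℕ, 1 ≤ κ → (κ : ℝ) ≤ Real.log N ^ T → ∀ m ≤ M, ∀ t : ℝ,
      ‖Pol G₀ (fun l => n + c + κ * val g (i l)) m t‖ ≤ K * √(m * Real.log (Real.log N)) := by
  obtain ⟨N₀, K, hK, h1⟩ := sup_gen hG₀ A T U
  obtain ⟨C', N₁, h2⟩ := h.msq hG₀ hlaw a T (T + 2 * U + A + 1)
  refine ⟨C', N₀ + N₁, K, hK, fun N hN x y hr c hc M hM => ?_⟩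
  have hyx := hr.1
  have h3 := h1 N (by omega) (Ioc y x) (fun k => val g k) ⟨x, mem_Ioc.2 ⟨hyx, le_rfl⟩⟩ c
    (fun κ hκ hκT => h2 N (by omega) x y hr c hc κ hκ hκT) M hM
  rw [Nat.card_Ioc] at h3
  exact h3

end Pool.Agent.Run7.h673.SP
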