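import Pool.Agent.Run7.h673.SP.Sup

/-!
# Sums with polynomial phases along random sequences of values of rapid functions
-/

set_option autoImplicit false

namespace Pool.Agent.Run7.h673.SP

open Finset Filter
open Pool.Agent.Run7.h794.MK
open Pool.Agent.H807R2.Dav (ee norm_ee ee_add ee_int)
open Pool.Agent.N384.MQ (ev_log_ge)

/-- the phase -/
noncomputable def ph {d : ℕ} (α : Fin d → ℝ) (l : ℕ) : ℝ := ∑ j : Fin d, α j * (l : ℝ) ^ ((j : ℕ) + 1)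

/-- the sum of the first `m` values with a polynomial phase -/
noncomputable def PP {d : ℕ} (g : ℕ → ℝ) {M : ℕ} (Y : Fin M → ℕ) (m : ℕ) (α : Fin d → ℝ) : ℂ :=
  ∑ l : Fin M, if (l : ℕ) < m then (g (Y l) : ℂ) * ee (ph α l) else 0

lemma PP_fract {d : ℕ} (g : ℕ → ℝ) {M : ℕ} (Y : Fin M → ℕ) (m : ℕ) (α : Fin d → ℝ) :
    PP g Y m α = PP g Y m (fun j => Int.fract (α j)) := by
  unfold PP
  apply sum_congr rfl
  intro l _
  split_ifs
  · congr 1
    have h1 : ph α l = ph (fun j => Int.fract (α j)) l + ((∑ j : Fin d, ⌊α j⌋ * ((l : ℕ) : ℤ) ^ ((j : ℕ) + 1) : ℤ) : ℝ) := by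
      unfold ph
      push_cast
      rw [← sum_add_distrib]
      apply sum_congr rfl
      intro j _
      rw [← add_mul, Int.fract_add_floor]
    rw [h1, ee_add, ee_int, mul_one]
  · rfl

lemma PP_lip {d : ℕ} {g : ℕ → ℝ} (hg1 : ∀ n, |g n| ≤ 1) {M : ℕ} (Y : Fin M → ℕ) (m : ℕ) (hm : m ≤ M) (α β : Fin d → ℝ)
    (e : ℝ) (he : ∀ j, |α j - β j| ≤ e) :
    ‖PP g Y m α - PP g Y m β‖ ≤ m * (2 * Real.pi * (d * (e * ((M : ℝ) + 1) ^ d))) := by
  rcases Nat.eq_zero_or_pos d with h0 | h0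
  · subst h0
    have : PP g Y m α = PP g Y m β := by
      unfold PP ph
      simp
    rw [this, sub_self, norm_zero]
    simp
  have he0 : 0 ≤ e := (abs_nonneg _).trans (he ⟨0, h0⟩)
  unfold PP
  rw [← sum_sub_distrib]
  refine (norm_sum_le _ _).trans ?_
  have h1 : ∀ l : Fin M, ‖(if (l : ℕ) < m then (g (Y l) : ℂ) * ee (ph α l) else 0) -
      (if (l : ℕ) < m then (g (Y l) : ℂ) * ee (ph β l) else 0)‖ ≤
      if (l : ℕ) < m then (2 * Real.pi * (d * (e * ((M : ℝ) + 1) ^ d))) else 0 := by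
    intro l
    by_cases hl : (l : ℕ) < m
    · rw [if_pos hl, if_pos hl, if_pos hl, ← mul_sub, norm_mul, Complex.norm_real, Real.norm_eq_abs]
      have h2 := ee_diff (ph α l) (ph β l)
      have h3 : |ph α l - ph β l| ≤ d * (e * ((M : ℝ) + 1) ^ d) := by
        unfold ph
        rw [← sum_sub_distrib]
        refine (abs_sum_le_sum_abs _ _).trans ?_
        have h4 : ∀ j ∈ (univ : Finset (Fin d)), |α j * ((l : ℕ) : ℝ) ^ ((j : ℕ) + 1) - β j * ((l : ℕ) : ℝ) ^ ((j : ℕ) + 1)| ≤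
            e * ((M : ℝ) + 1) ^ d := by
          intro j _
          rw [← sub_mul, abs_mul]
          have h5 : |((l : ℕ) : ℝ) ^ ((j : ℕ) + 1)| ≤ ((M : ℝ) + 1) ^ d := by
            rw [abs_of_nonneg (by positivity)]
            have h6 : ((l : ℕ) : ℝ) ≤ (M : ℝ) + 1 := by
              have : ((l : ℕ) : ℝ) ≤ M := by exact_mod_cast l.2.le
              linarith
            calc ((l : ℕ) : ℝ) ^ ((j : ℕ) + 1) ≤ ((M : ℝ) + 1) ^ ((j : ℕ) + 1) := pow_le_pow_left₀ (Nat.cast_nonneg _) h6 _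
              _ ≤ ((M : ℝ) + 1) ^ d := pow_le_pow_right₀ (by have : (0 : ℝ) ≤ M := Nat.cast_nonneg M; linarith) j.2
          exact mul_le_mul (he j) h5 (abs_nonneg _) he0
        refine (sum_le_sum h4).trans ?_
        rw [sum_const, card_univ, Fintype.card_fin, nsmul_eq_mul]
      calc |g (Y l)| * ‖ee (ph α l) - ee (ph β l)‖ ≤ 1 * (2 * Real.pi * |ph α l - ph β l|) :=
            mul_le_mul (hg1 _) h2 (norm_nonneg _) zero_le_one
        _ ≤ 2 * Real.pi * (d * (e * ((M : ℝ) + 1) ^ d)) := by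
            rw [one_mul]
            exact mul_le_mul_of_nonneg_left h3 (by positivity)
    · rw [if_neg hl, if_neg hl, if_neg hl, sub_zero, norm_zero]
  refine (sum_le_sum fun l _ => h1 l).trans ?_
  rw [← sum_filter, sum_const, card_lt hm, nsmul_eq_mul]

/-- a vector of the grid -/
lemma PP_grid {d : ℕ} {g : ℕ → ℝ} (hg1 : ∀ n, |g n| ≤ 1) {M : ℕ} (Y : Fin M → ℕ) (m : ℕ) (hm : m ≤ M) (G : ℕ)
    (hG : 7 * (d + 1) * (M + 1) ^ (d + 1) ≤ G) (α : Fin d → ℝ) :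
    ∃ a ∈ Fintype.piFinset (fun _ : Fin d => range G), ‖PP g Y m α‖ ≤ ‖PP g Y m (fun j => (a j : ℝ) / G)‖ + 1 := by
  have hG0 : (0 : ℝ) < G := by
    have : 0 < G := lt_of_lt_of_le (by positivity) hG
    exact_mod_cast this
  refine ⟨fun j => ⌊Int.fract (α j) * G⌋₊, ?_, ?_⟩
  · rw [Fintype.mem_piFinset]
    intro j
    have h1 : 0 ≤ Int.fract (α j) := Int.fract_nonneg _
    have h2 : Int.fract (α j) < 1 := Int.fract_lt_one _
    rw [mem_range, Nat.floor_lt (by positivity)]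
    nlinarith
  · rw [PP_fract]
    have h4 : ∀ j : Fin d, |Int.fract (α j) - ((⌊Int.fract (α j) * G⌋₊ : ℕ) : ℝ) / G| ≤ 1 / G := by
      intro j
      have h1 : 0 ≤ Int.fract (α j) := Int.fract_nonneg _
      obtain ⟨a, ha⟩ : ∃ a : ℕ, a = ⌊Int.fract (α j) * G⌋₊ := ⟨_, rfl⟩
      rw [← ha]
      have h5 : (a : ℝ) ≤ Int.fract (α j) * G := by rw [ha]; exact Nat.floor_le (by positivity)
      have h6 : Int.fract (α j) * G < a + 1 := by rw [ha]; exact Nat.lt_floor_add_one _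
      rw [abs_le]
      constructor
      · rw [neg_le_sub_iff_le_add, div_le_iff₀ hG0]
        have : (Int.fract (α j) + 1 / G) * G = Int.fract (α j) * G + 1 := by field_simp
        linarith
      · rw [sub_le_iff_le_add, ← add_div, le_div_iff₀ hG0]
        linarith
    have h7 := PP_lip hg1 Y m hm (fun j => Int.fract (α j)) (fun j => ((⌊Int.fract (α j) * G⌋₊ : ℕ) : ℝ) / G) (1 / G) h4
    have h8 : (m : ℝ) * (2 * Real.pi * (d * (1 / G * ((M : ℝ) + 1) ^ d))) ≤ 1 := by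
      have hpi : Real.pi ≤ 3.5 := by have := Real.pi_lt_d2; linarith
      have hmM : (m : ℝ) ≤ M := by exact_mod_cast hm
      have hM0 : (0 : ℝ) ≤ M := Nat.cast_nonneg _
      have hGr : 7 * ((d : ℝ) + 1) * ((M : ℝ) + 1) ^ (d + 1) ≤ G := by exact_mod_cast hG
      calc (m : ℝ) * (2 * Real.pi * (d * (1 / G * ((M : ℝ) + 1) ^ d))) ≤
          ((M : ℝ) + 1) * (2 * 3.5 * (((d : ℝ) + 1) * (1 / G * ((M : ℝ) + 1) ^ d))) := by
            gcongr
            · linarith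
            · linarith
        _ = 7 * ((d : ℝ) + 1) * ((M : ℝ) + 1) ^ (d + 1) / G := by rw [pow_succ]; ring
        _ ≤ 1 := by rw [div_le_one hG0]; exact hGr
    have h9 := norm_add_le (PP g Y m (fun j => ((⌊Int.fract (α j) * G⌋₊ : ℕ) : ℝ) / G))
      (PP g Y m (fun j => Int.fract (α j)) - PP g Y m (fun j => ((⌊Int.fract (α j) * G⌋₊ : ℕ) : ℝ) / G))
    rw [add_sub_cancel] at h9
    linarith

/-- the coefficient vectors -/
noncomputable def cvp {d : ℕ} (M m : ℕ) (a : Fin d → ℕ) (G : ℕ) (j : Bool) : Fin M → ℝ := fun l =>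
  if (l : ℕ) < m then (if j then Real.cos (2 * Real.pi * ph (fun j => (a j : ℝ) / G) l) else
    Real.sin (2 * Real.pi * ph (fun j => (a j : ℝ) / G) l)) else 0

lemma cvp_sq {d : ℕ} (M m : ℕ) (a : Fin d → ℕ) (G : ℕ) (hm : m ≤ M) (j : Bool) : √(∑ l, cvp M m a G j l ^ 2) ≤ √m := by
  apply Real.sqrt_le_sqrt
  have h1 : ∀ l : Fin M, cvp M m a G j l ^ 2 ≤ if (l : ℕ) < m then 1 else 0 := by
    intro l
    unfold cvp
    by_cases hl : (l : ℕ) < m
    · rw [if_pos hl, if_pos hl]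
      cases j
      · simp only [Bool.false_eq_true, if_false]
        exact Real.sin_sq_le_one _
      · simp only [if_true]
        exact Real.cos_sq_le_one _
    · rw [if_neg hl, if_neg hl]
      norm_num
  refine (sum_le_sum fun l _ => h1 l).trans ?_
  rw [← sum_filter, sum_const, card_lt hm, nsmul_eq_mul, mul_one]

lemma PP_re_im {d : ℕ} (g : ℕ → ℝ) {M : ℕ} (Y : Fin M → ℕ) (m : ℕ) (a : Fin d → ℕ) (G : ℕ) :
    (PP g Y m (fun j => (a j : ℝ) / G)).re = ∑ l, cvp M m a G true l * g (Y l) ∧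
    (PP g Y m (fun j => (a j : ℝ) / G)).im = ∑ l, cvp M m a G false l * g (Y l) := by
  have hee : ∀ t : ℝ, (ee t).re = Real.cos (2 * Real.pi * t) ∧ (ee t).im = Real.sin (2 * Real.pi * t) := by
    intro t
    rw [Pool.Agent.H807R2.Dav.ee_eq]
    exact ⟨Complex.exp_ofReal_mul_I_re _, Complex.exp_ofReal_mul_I_im _⟩
  unfold PP
  constructor
  · rw [Complex.re_sum]
    apply sum_congr rfl
    intro l _
    unfold cvp
    by_cases hl : (l : ℕ) < m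
    · rw [if_pos hl, if_pos hl, Complex.re_ofReal_mul, (hee _).1]
      simp only [if_true]
      ring
    · rw [if_neg hl, if_neg hl, Complex.zero_re, zero_mul]
  · rw [Complex.im_sum]
    apply sum_congr rfl
    intro l _
    unfold cvp
    by_cases hl : (l : ℕ) < m
    · rw [if_pos hl, if_pos hl, Complex.im_ofReal_mul, (hee _).2]
      simp only [Bool.false_eq_true, if_false]
      ring
    · rw [if_neg hl, if_neg hl, Complex.zero_im, zero_mul]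

/-- **all polynomial phases** -/
theorem supp_gen {g : ℕ → ℝ} (hg1 : ∀ n, |g n| ≤ 1) (d A T U : ℕ) :
    ∃ N₀ : ℕ, ∃ K : ℝ, 0 < K ∧ ∀ N : ℕ, N₀ ≤ N → ∀ (s : Finset ℕ) (v : ℕ → ℕ), s.Nonempty → ∀ cc : ℕ,
    (∀ κ : ℕ, 1 ≤ κ → (κ : ℝ) ≤ Real.log N ^ T →
      ∑ n ∈ Icc 1 N, ((∑ b ∈ s, g (n + cc + κ * v b)) / s.card) ^ 2 ≤ N / Real.log N ^ (T + 2 * U + A + 1)) →
    ∀ M : ℕ, (M : ℝ) ≤ Real.log N ^ U →
    ∃ Bad ⊆ Fintype.piFinset (fun _ : Fin M => s), (Bad.card : ℝ) ≤ (s.card : ℝ) ^ M / Real.log N ^ A ∧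
      ∀ i ∈ Fintype.piFinset (fun _ : Fin M => s), i ∉ Bad →
      ∃ E ⊆ Icc 1 N, (E.card : ℝ) ≤ N / Real.log N ^ A ∧ ∀ n ∈ Icc 1 N, n ∉ E →
      ∀ κ : ℕ, 1 ≤ κ → (κ : ℝ) ≤ Real.log N ^ T → ∀ m ≤ M, ∀ α : Fin d → ℝ,
      ‖PP g (fun l => n + cc + κ * v (i l)) m α‖ ≤ K * √(m * Real.log (Real.log N)) := by
  classical
  obtain ⟨S, hS⟩ : ∃ S, S = U * ((d + 1) * d + 1) + 1 := ⟨_, rfl⟩
  obtain ⟨N₁, hcl⟩ := class_gen hg1 A T U S
  obtain ⟨N₂, hev⟩ := ev_sup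
  obtain ⟨cd, hcd⟩ : ∃ cd : ℝ, cd = 2 * (7 * ((d : ℝ) + 1)) ^ d * 2 ^ ((d + 1) * d + 1) := ⟨_, rfl⟩
  obtain ⟨N₃, hev3⟩ := eventually_atTop.1 (ev_log_ge cd)
  obtain ⟨R, hR⟩ : ∃ R, R = T + S + 2 * A + 1 := ⟨_, rfl⟩
  rw [← hR] at hcl
  refine ⟨N₁ + N₂ + N₃ + 3, 2 * √(2 * R) + 1, by positivity, fun N hN s v hs cc hsum M hM => ?_⟩
  obtain ⟨a1, a2⟩ := hev N (by omega)
  have a3 := hev3 N (by omega)
  obtain ⟨G, hG⟩ : ∃ G, G = 7 * (d + 1) * (M + 1) ^ (d + 1) := ⟨_, rfl⟩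
  obtain ⟨𝒞, h𝒞⟩ : ∃ 𝒞 : Finset (Fin M → ℝ), 𝒞 = (range (M + 1) ×ˢ ((Fintype.piFinset (fun _ : Fin d => range G)) ×ˢ
    (univ : Finset Bool))).image (fun p => cvp M p.1 p.2.1 G p.2.2) := ⟨_, rfl⟩
  have hcard : (𝒞.card : ℝ) ≤ Real.log N ^ S := by
    have h1 : 𝒞.card ≤ (M + 1) * (G ^ d * 2) := by
      rw [h𝒞]
      refine card_image_le.trans ?_
      rw [card_product, card_product, card_range, Fintype.card_piFinset, prod_const, card_range, card_univ, card_univ,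
        Fintype.card_bool, Fintype.card_fin]
    have hL1 : 1 ≤ Real.log (N : ℝ) ^ U := one_le_pow₀ (by linarith)
    have h2 : (M : ℝ) + 1 ≤ 2 * Real.log N ^ U := by linarith
    have hM0 : (0 : ℝ) ≤ M := Nat.cast_nonneg M
    calc (𝒞.card : ℝ) ≤ ((M : ℝ) + 1) * ((7 * ((d : ℝ) + 1) * ((M : ℝ) + 1) ^ (d + 1)) ^ d * 2) := by
          have : (𝒞.card : ℝ) ≤ ((M + 1) * (G ^ d * 2) : ℕ) := by exact_mod_cast h1
          refine this.trans (le_of_eq ?_)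
          rw [hG]
          push_cast
          ring
      _ = 2 * (7 * ((d : ℝ) + 1)) ^ d * ((M : ℝ) + 1) ^ ((d + 1) * d + 1) := by
          rw [mul_pow, ← pow_mul, pow_succ ((M : ℝ) + 1) ((d + 1) * d)]
          ring
      _ ≤ 2 * (7 * ((d : ℝ) + 1)) ^ d * (2 * Real.log N ^ U) ^ ((d + 1) * d + 1) := by gcongr
      _ = cd * Real.log N ^ (U * ((d + 1) * d + 1)) := by
          rw [hcd, mul_pow (2 : ℝ) (Real.log N ^ U), ← pow_mul]
          ring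
      _ ≤ Real.log N * Real.log N ^ (U * ((d + 1) * d + 1)) := by
          apply mul_le_mul_of_nonneg_right a3 (by positivity)
      _ = Real.log N ^ S := by rw [hS, pow_succ]; ring
  obtain ⟨Bad, hB1, hB2, hB3⟩ := hcl N (by omega) s v hs cc hsum M hM 𝒞 hcard
  refine ⟨Bad, hB1, hB2, fun i hi hbad => ?_⟩
  obtain ⟨E, hE1, hE2, hE3⟩ := hB3 i hi hbad
  refine ⟨E, hE1, hE2, fun n hn hnE κ hκ1 hκ2 m hm α => ?_⟩
  have hE3 := hE3 n hn hnE κ hκ1 hκ2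
  rcases Nat.eq_zero_or_pos m with h0 | h0
  · have : PP g (fun l => n + cc + κ * v (i l)) m α = 0 := by
      unfold PP
      rw [h0]
      simp
    rw [this, norm_zero]
    positivity
  obtain ⟨a, ha, hx⟩ := PP_grid hg1 (fun l => n + cc + κ * v (i l)) m hm G (by rw [hG]) α
  refine hx.trans ?_
  have hmem : ∀ j : Bool, cvp M m a G j ∈ 𝒞 := by
    intro j
    rw [h𝒞, mem_image]
    exact ⟨(m, a, j), by simp only [mem_product, mem_range, mem_univ, and_true]; exact ⟨by omega, ha⟩, rfl⟩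
  have hb : ∀ j : Bool, |∑ l, cvp M m a G j l * g (n + cc + κ * v (i l))| ≤ √(2 * R) * √(m * Real.log (Real.log N)) := by
    intro j
    refine (hE3 _ (hmem j)).trans ?_
    have hl0 : 0 ≤ Real.log (Real.log (N : ℝ)) := by linarith
    calc √(2 * ((R : ℕ) * Real.log (Real.log N))) * √(∑ l, cvp M m a G j l ^ 2) ≤
        √(2 * ((R : ℕ) * Real.log (Real.log N))) * √m := mul_le_mul_of_nonneg_left (cvp_sq M m a G hm j) (Real.sqrt_nonneg _)
      _ = √(2 * R) * √(m * Real.log (Real.log N)) := by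
          rw [← Real.sqrt_mul (by positivity), ← Real.sqrt_mul (by positivity)]
          congr 1
          ring
  obtain ⟨hre, him⟩ := PP_re_im g (fun l => n + cc + κ * v (i l)) m a G
  have h1 := hb true
  have h2 := hb false
  rw [← hre] at h1
  rw [← him] at h2
  have h3 := Complex.norm_le_abs_re_add_abs_im (PP g (fun l => n + cc + κ * v (i l)) m (fun j => (a j : ℝ) / G))
  have h4 : 1 ≤ √(m * Real.log (Real.log N)) := by
    rw [Real.one_le_sqrt]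
    have : (1 : ℝ) ≤ m := by exact_mod_cast h0
    nlinarith
  calc ‖PP g (fun l => n + cc + κ * v (i l)) m (fun j => (a j : ℝ) / G)‖ + 1 ≤
      (√(2 * R) * √(m * Real.log (Real.log N)) + √(2 * R) * √(m * Real.log (Real.log N))) + √(m * Real.log (Real.log N)) := by
        linarith
    _ = _ := by ring

/-- polynomials -/
lemma poly_PP {d : ℕ} (g : ℕ → ℝ) {M : ℕ} (Y : Fin M → ℕ) (m : ℕ) (P : Polynomial ℝ) (hP : P.natDegree ≤ d) :
    ‖∑ l : Fin M, (if (l : ℕ) < m then (g (Y l) : ℂ) * ee (P.eval ((l : ℕ) : ℝ)) else 0)‖ =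
      ‖PP g Y m (fun j : Fin d => P.coeff ((j : ℕ) + 1))‖ := by
  have h1 : ∀ l : ℕ, P.eval (l : ℝ) = P.coeff 0 + ph (fun j : Fin d => P.coeff ((j : ℕ) + 1)) l := by
    intro l
    rw [Polynomial.eval_eq_sum_range' (Nat.lt_succ_of_le hP), sum_range_succ']
    unfold ph
    rw [Fin.sum_univ_eq_sum_range (fun j => P.coeff (j + 1) * (l : ℝ) ^ (j + 1)) d]
    ring
  have h2 : ∑ l : Fin M, (if (l : ℕ) < m then (g (Y l) : ℂ) * ee (P.eval ((l : ℕ) : ℝ)) else 0) =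
      ee (P.coeff 0) * PP g Y m (fun j : Fin d => P.coeff ((j : ℕ) + 1)) := by
    unfold PP
    rw [mul_sum]
    apply sum_congr rfl
    intro l _
    split_ifs
    · rw [h1, ee_add]
      ring
    · rw [mul_zero]
  rw [h2, norm_mul, norm_ee, one_mul]

variable {g : ℝ → ℝ} {δ C L₀ : ℝ}

/-- **polynomial phases along random sequences of values of rapid functions** -/
theorem Fast.supp {G₀ : ℕ → ℝ} (hG₀ : ∀ n, |G₀ n| ≤ 1) (hlaw : S_LAWg G₀) (h : Fast g δ C L₀) (d a A T U : ℕ) :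
    ∃ C' N₀ : ℕ, ∃ K : ℝ, 0 < K ∧ ∀ N : ℕ, N₀ ≤ N → ∀ x y : ℕ, Rgt g a C' N x y → ∀ c : ℕ, c ≤ N →
    ∀ M : ℕ, (M : ℝ) ≤ Real.log N ^ U →
    ∃ Bad ⊆ Fintype.piFinset (fun _ : Fin M => Ioc y x), (Bad.card : ℝ) ≤ ((x - y : ℕ) : ℝ) ^ M / Real.log N ^ A ∧
      ∀ i ∈ Fintype.piFinset (fun _ : Fin M => Ioc y x), i ∉ Bad →
      ∃ E ⊆ Icc 1 N, (E.card : ℝ) ≤ N / Real.log N ^ A ∧ ∀ n ∈ Icc 1 N, n ∉ E →
      ∀ κ : ℕ, 1 ≤ κ → (κ : ℝ) ≤ Real.log N ^ T → ∀ m ≤ M, ∀ P : Polynomial ℝ, P.natDegree ≤ d →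
      ‖∑ l : Fin M, (if (l : ℕ) < m then (G₀ (n + c + κ * val g (i l)) : ℂ) * ee (P.eval ((l : ℕ) : ℝ)) else 0)‖ ≤
        K * √(m * Real.log (Real.log N)) := by
  obtain ⟨N₀, K, hK, h1⟩ := supp_gen hG₀ d A T U
  obtain ⟨C', N₁, h2⟩ := h.msq hG₀ hlaw a T (T + 2 * U + A + 1)
  refine ⟨C', N₀ + N₁, K, hK, fun N hN x y hr c hc M hM => ?_⟩
  have hyx := hr.1
  obtain ⟨Bad, b1, b2, b3⟩ := h1 N (by omega) (Ioc y x) (fun k => val g k) ⟨x, mem_Ioc.2 ⟨hyx, le_rfl⟩⟩ c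
    (fun κ hκ hκT => h2 N (by omega) x y hr c hc κ hκ hκT) M hM
  rw [Nat.card_Ioc] at b2
  refine ⟨Bad, b1, b2, fun i hi hib => ?_⟩
  obtain ⟨E, e1, e2, e3⟩ := b3 i hi hib
  refine ⟨E, e1, e2, fun n hn hnE κ hκ hκT m hm P hP => ?_⟩
  rw [poly_PP G₀ (fun l => n + c + κ * val g (i l)) m P hP]
  exact e3 n hn hnE κ hκ hκT m hm _

end Pool.Agent.Run7.h673.SP
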