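import Pool.Agent.Run7.h673.SP.Off
import Pool.Agent.Run7.h337.MK.Pow
import Pool.Agent.Run7.h880.MK.Maj1
import Pool.Agent.Run7.h794.MK.SiaAll

/-!
# Sparse windows for almost all integers and for every shift
-/

set_option autoImplicit false

namespace Pool.Agent.Run7.h673.SP

open Finset Filter
open Pool.Agent.H807R2.Dav (ee)
open Pool.Agent.N384.MQ (ev_log_pow ev_log_ge)
open Run7.h337.MK (cnt conv ev_sub)

lemma Off.mono {Q q : ℕ} {p : ℕ → ℝ} {a e a' e' : ℝ} (h : Off Q q p a e) (ha : a ≤ a') (he : e ≤ e') : Off Q q p a' e' := by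
  refine ⟨h.1, h.2.1, fun α hα => (h.2.2 α fun m => le_trans ?_ (hα m)).trans he⟩
  exact div_le_div_of_nonneg_right ha (by positivity)

theorem t_maj : Pool.Agent.Run7.h794.MK.S_MAJ1 :=
  Pool.Agent.Run7.h880.MK.t_MAJ1 Pool.Agent.Run7.h794.MK.sia_all

/-- sparse windows, for almost all integers, for every shift -/
theorem win (T U : ℕ) (ε : ℝ) (hε : 0 < ε) (hε1 : ε ≤ 1) : ∃ V : ℕ, ∀ D : ℕ, ∃ C W N₀ : ℕ, ∀ N : ℕ, N₀ ≤ N →
    ∀ (q Q : ℕ) (p : ℕ → ℝ), (N : ℝ) ^ (1 / 3 : ℝ) * Real.log N ^ C ≤ q → q ≤ Q → (Q : ℝ) * Real.log N ^ W ≤ N →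
    Off Q q p (Real.log N ^ D) (1 / Real.log N ^ V) → ∀ κ : ℤ, κ ≠ 0 → (κ.natAbs : ℝ) ≤ Real.log N ^ T →
    ∀ cc : ℤ, |(cc : ℝ)| ≤ N * Real.log N ^ T → ∃ E : Finset ℕ, (E.card : ℝ) ≤ N / Real.log N ^ U ∧
      ∀ n : ℕ, 1 ≤ n → n ≤ N → n ∉ E → 0 < (n : ℤ) + cc → IsCoprime ((n : ℤ) + cc) κ →
        |cnt Q p κ cc n - κ.natAbs / (Nat.totient κ.natAbs : ℝ) / Real.log N| ≤
          ε * (κ.natAbs / (Nat.totient κ.natAbs : ℝ) / Real.log N) := by
  classical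
  obtain ⟨T₁, hT₁⟩ : ∃ T₁, T₁ = 2 * T + U + 4 := ⟨_, rfl⟩
  obtain ⟨U₁, hU₁⟩ : ∃ U₁, U₁ = T + U + 3 := ⟨_, rfl⟩
  obtain ⟨V₁, hV⟩ := aa_off t_maj T₁ U₁ (ε / 4) (by positivity)
  refine ⟨V₁ + 1, fun D => ?_⟩
  obtain ⟨C₁, W₁, X₀, h⟩ := hV D
  obtain ⟨N₁, hev⟩ := eventually_atTop.1 (((ev_log_ge (2 ^ (C₁ + V₁ + W₁ + 3))).and (ev_log_pow (T + 1) 1)).and
    ((ev_log_pow (U + 3) 4).and (ev_sub T (Real.log 4) (ε / 8) (by positivity))))
  refine ⟨C₁ + T + 2, W₁ + 1, max X₀ (max N₁ 1), fun N hN q Q p hq hqQ hQ hoff κ hκ hκT cc hcc => ?_⟩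
  obtain ⟨⟨l1, l2⟩, l3, l4⟩ := hev N (le_trans (le_trans (le_max_left _ _) (le_max_right _ _)) hN)
  have hNX₀ : X₀ ≤ N := le_trans (le_max_left _ _) hN
  have hN1 : 1 ≤ N := le_trans (le_trans (le_max_right _ _) (le_max_right _ _)) hN
  have hN1r : (1 : ℝ) ≤ N := by exact_mod_cast hN1
  have hN0 : (0 : ℝ) < N := by linarith
  obtain ⟨L, hL⟩ : ∃ L, L = Real.log N := ⟨_, rfl⟩
  rw [← hL] at l1 l2 l3 l4 hq hQ hoff hκT hcc ⊢
  rw [one_mul] at l2
  have h2p : ∀ e : ℕ, e ≤ C₁ + V₁ + W₁ + 3 → (2 : ℝ) ^ e ≤ L := fun e he =>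
    le_trans (pow_le_pow_right₀ (by norm_num) he) l1
  have hL8 : 8 ≤ L := by
    have := h2p 3 (by omega)
    norm_num at this
    exact this
  have hL0 : 0 < L := by linarith
  have hL1 : 1 ≤ L := by linarith
  have hpow : ∀ e : ℕ, 1 ≤ L ^ e := fun e => one_le_pow₀ hL1
  -- the scale
  obtain ⟨K, hK⟩ : ∃ K : ℕ, K = ⌈L ^ T⌉₊ := ⟨_, rfl⟩
  have hK1 : L ^ T ≤ K := by rw [hK]; exact Nat.le_ceil _
  have hK2 : (K : ℝ) ≤ 2 * L ^ T := by
    rw [hK]
    have := (Nat.ceil_lt_add_one (by positivity : 0 ≤ L ^ T)).le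
    have := hpow T
    linarith
  have hKr : (1 : ℝ) ≤ K := (hpow T).trans hK1
  have hKn : 1 ≤ K := by exact_mod_cast hKr
  obtain ⟨X, hX⟩ : ∃ X : ℕ, X = 2 * K * N := ⟨_, rfl⟩
  have hXr : (X : ℝ) = 2 * K * N := by rw [hX]; push_cast; ring
  have h2N : 2 * N ≤ X := by rw [hX]; nlinarith
  have h2Nr : 2 * (N : ℝ) ≤ X := by exact_mod_cast h2N
  have hNX : N ≤ X := by omega
  have hX0 : (0 : ℝ) < X := by linarith
  have hXle : (X : ℝ) ≤ N * L ^ (T + 1) := by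
    rw [hXr]
    calc 2 * (K : ℝ) * N ≤ 2 * (2 * L ^ T) * N := by gcongr
      _ = N * (L ^ T * 4) := by ring
      _ ≤ N * (L ^ T * L) := by
          apply mul_le_mul_of_nonneg_left _ hN0.le
          exact mul_le_mul_of_nonneg_left (by linarith) (by positivity)
      _ = N * L ^ (T + 1) := by rw [pow_succ]
  obtain ⟨M, hM⟩ : ∃ M, M = Real.log X := ⟨_, rfl⟩
  have hLM : L ≤ M := by
    rw [hL, hM]
    exact Real.log_le_log hN0 (by exact_mod_cast hNX)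
  have hML : M ≤ 2 * L := by
    rw [hM]
    have h1 : (X : ℝ) ≤ N * N := hXle.trans (mul_le_mul_of_nonneg_left l2 hN0.le)
    refine (Real.log_le_log hX0 h1).trans (le_of_eq ?_)
    rw [Real.log_mul hN0.ne' hN0.ne', ← hL]
    ring
  have hML' : (1 - ε / 4) * M ≤ L := by
    have h1 : (X : ℝ) ≤ N * (4 * L ^ T) := by
      rw [hXr]
      calc 2 * (K : ℝ) * N ≤ 2 * (2 * L ^ T) * N := by gcongr
        _ = _ := by ring
    have h2 : M ≤ L + (Real.log 4 + T * Real.log L) := by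
      rw [hM]
      refine (Real.log_le_log hX0 h1).trans (le_of_eq ?_)
      rw [Real.log_mul hN0.ne' (by positivity), Real.log_mul (by norm_num) (by positivity), Real.log_pow, ← hL]
    have h3 : M ≤ (1 + ε / 8) * L := by linarith
    have h4 : (1 - ε / 4) * M ≤ (1 - ε / 4) * ((1 + ε / 8) * L) := mul_le_mul_of_nonneg_left h3 (by linarith)
    have h5 : (1 - ε / 4) * ((1 + ε / 8) * L) ≤ L := by
      have : (1 - ε / 4) * (1 + ε / 8) ≤ 1 := by nlinarith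
      calc (1 - ε / 4) * ((1 + ε / 8) * L) = ((1 - ε / 4) * (1 + ε / 8)) * L := by ring
        _ ≤ 1 * L := mul_le_mul_of_nonneg_right this hL0.le
        _ = L := one_mul L
    linarith
  have hM0 : 0 < M := by linarith
  have hM1 : 1 ≤ M := by linarith
  have hLMp : ∀ e : ℕ, L ^ e ≤ M ^ e := fun e => pow_le_pow_left₀ hL0.le hLM e
  have hMp : ∀ e : ℕ, e ≤ C₁ + V₁ + W₁ + 3 → M ^ e ≤ L ^ (e + 1) := by
    intro e he
    calc M ^ e ≤ (2 * L) ^ e := pow_le_pow_left₀ hM0.le hML e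
      _ = 2 ^ e * L ^ e := mul_pow _ _ _
      _ ≤ L * L ^ e := mul_le_mul_of_nonneg_right (h2p e he) (by positivity)
      _ = L ^ (e + 1) := by rw [pow_succ, mul_comm]
  -- the block
  obtain ⟨u₀, hu₀⟩ : ∃ u₀ : ℕ, u₀ = ⌈(N : ℝ) / L ^ (U + 2)⌉₊ := ⟨_, rfl⟩
  have hu1 : (N : ℝ) / L ^ (U + 2) ≤ u₀ := by rw [hu₀]; exact Nat.le_ceil _
  have hNL : (1 : ℝ) ≤ N / L ^ (U + 2) := by
    rw [le_div_iff₀ (by positivity), one_mul]
    have : L ^ (U + 2) ≤ 4 * L ^ (U + 3) := by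
      rw [pow_succ L (U + 2)]
      have := hpow (U + 2)
      nlinarith
    linarith
  have hu2 : (u₀ : ℝ) ≤ 2 * (N / L ^ (U + 2)) := by
    rw [hu₀]
    have := (Nat.ceil_lt_add_one (by positivity : 0 ≤ (N : ℝ) / L ^ (U + 2))).le
    linarith
  have hNL2 : (N : ℝ) / L ^ (U + 2) ≤ N / (L ^ U * 8 * 8) := by
    apply div_le_div_of_nonneg_left hN0.le (by positivity)
    rw [pow_add, sq, mul_assoc]
    apply mul_le_mul_of_nonneg_left _ (by positivity)
    nlinarith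
  have hNL3 : (N : ℝ) / (L ^ U * 8 * 8) = N / L ^ U / 64 := by
    rw [div_div]
    congr 1
    ring
  rw [hNL3] at hNL2
  have hNU : (N : ℝ) / L ^ U ≤ N := div_le_self hN0.le (hpow U)
  have hu3 : (u₀ : ℝ) ≤ N := by linarith
  have hu4 : u₀ ≤ N := by exact_mod_cast hu3
  obtain ⟨ℓ, hℓ⟩ : ∃ ℓ, ℓ = X - u₀ := ⟨_, rfl⟩
  have huℓ : u₀ + ℓ = X := by omega
  have hNℓ : N ≤ ℓ := by omega
  obtain ⟨Bad, hBJ, hBs, hgood⟩ := h X (hNX₀.trans hNX) (univ : Finset Unit) (fun _ => u₀) (fun _ => ℓ)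
    (fun _ _ => huℓ.le) (fun _ _ => by
      rw [← hM]
      have e1 : (N : ℝ) ≤ u₀ * L ^ (U + 2) := by
        rw [div_le_iff₀ (by positivity)] at hu1
        exact hu1
      calc (X : ℝ) ≤ N * L ^ (T + 1) := hXle
        _ ≤ (u₀ * L ^ (U + 2)) * L ^ (T + 1) := mul_le_mul_of_nonneg_right e1 (by positivity)
        _ = u₀ * L ^ (U + 2 + (T + 1)) := by rw [pow_add L (U + 2) (T + 1)]; ring
        _ ≤ u₀ * M ^ T₁ := by
            apply mul_le_mul_of_nonneg_left _ (Nat.cast_nonneg _)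
            refine (hLMp _).trans ?_
            exact pow_le_pow_right₀ hM1 (by omega))
    (fun m => by
      rw [← hM]
      have h2 : (1 : ℝ) ≤ M ^ T₁ := one_le_pow₀ hM1
      have h3 : (((univ : Finset Unit).filter fun _ => u₀ < m ∧ m ≤ u₀ + ℓ).card : ℝ) ≤ 1 := by
        exact_mod_cast (card_filter_le _ _).trans (by simp)
      exact h3.trans h2)
  rw [← hM] at hBs hgood
  have hnB : () ∉ Bad := by
    intro hmem
    have e1 : (ℓ : ℝ) ≤ ∑ j ∈ Bad, (ℓ : ℝ) := single_le_sum (f := fun _ => (ℓ : ℝ)) (fun _ _ => Nat.cast_nonneg _) hmem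
    have e2 := e1.trans hBs
    have e3 : (X : ℝ) / M ^ U₁ ≤ X / 8 := by
      apply div_le_div_of_nonneg_left hX0.le (by norm_num)
      calc (8 : ℝ) ≤ M := by linarith
        _ = M ^ 1 := (pow_one M).symm
        _ ≤ M ^ U₁ := pow_le_pow_right₀ hM1 (by omega)
    have e4 : (u₀ : ℝ) + ℓ = X := by exact_mod_cast huℓ
    linarith
  have hg := hgood () (mem_univ _) hnB q Q p
    (by
      refine le_trans ?_ hq
      have h1 : (X : ℝ) ^ (1 / 3 : ℝ) ≤ (N : ℝ) ^ (1 / 3 : ℝ) * L ^ (T + 1) := by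
        refine (Real.rpow_le_rpow hX0.le hXle (by norm_num)).trans ?_
        rw [Real.mul_rpow hN0.le (by positivity)]
        apply mul_le_mul_of_nonneg_left _ (by positivity)
        calc (L ^ (T + 1)) ^ (1 / 3 : ℝ) ≤ (L ^ (T + 1)) ^ (1 : ℝ) :=
              Real.rpow_le_rpow_of_exponent_le (hpow _) (by norm_num)
          _ = _ := Real.rpow_one _
      calc (X : ℝ) ^ (1 / 3 : ℝ) * M ^ C₁ ≤ ((N : ℝ) ^ (1 / 3 : ℝ) * L ^ (T + 1)) * L ^ (C₁ + 1) :=
            mul_le_mul h1 (hMp C₁ (by omega)) (by positivity) (by positivity)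
        _ = (N : ℝ) ^ (1 / 3 : ℝ) * L ^ (C₁ + T + 2) := by
            rw [mul_assoc, ← pow_add, show T + 1 + (C₁ + 1) = C₁ + T + 2 by ring])
    hqQ
    (by
      calc (Q : ℝ) * M ^ W₁ ≤ Q * L ^ (W₁ + 1) := mul_le_mul_of_nonneg_left (hMp W₁ (by omega)) (Nat.cast_nonneg _)
        _ ≤ N := hQ
        _ ≤ ℓ := by exact_mod_cast hNℓ)
    (hoff.mono (hLMp D) (one_div_le_one_div_of_le (by positivity) (hMp V₁ (by omega))))
    κ hκ (hκT.trans ((hLMp T).trans (pow_le_pow_right₀ hM1 (by omega))))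
  obtain ⟨E', hE1, hE2⟩ := hg
  obtain ⟨E, hE⟩ : ∃ E : Finset ℕ, E = (Icc 1 N).filter (fun n : ℕ => 0 < (n : ℤ) + cc ∧
    (((n : ℤ) + cc).toNat ≤ u₀ ∨ ((n : ℤ) + cc).toNat ∈ E')) := ⟨_, rfl⟩
  refine ⟨E, ?_, fun n hn1 hnN hnE hpos hcop => ?_⟩
  · have h1 : E.card ≤ (Icc 1 u₀ ∪ E').card := by
      apply card_le_card_of_injOn (fun n : ℕ => ((n : ℤ) + cc).toNat)
      · intro n hn
        rw [mem_coe, hE, mem_filter] at hn
        rw [mem_coe, mem_union, mem_Icc]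
        simp only
        rcases hn.2.2 with h2 | h2
        · left
          have := hn.2.1
          omega
        · right
          exact h2
      · intro a ha b hb hab
        rw [mem_coe, hE, mem_filter] at ha hb
        have := ha.2.1
        have := hb.2.1
        simp only at hab
        omega
    have h2 : (E.card : ℝ) ≤ u₀ + E'.card := by
      have h3 := card_union_le (Icc 1 u₀) E'
      rw [Nat.card_Icc, Nat.add_sub_cancel] at h3
      exact_mod_cast h1.trans h3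
    have h4 : (E'.card : ℝ) ≤ N / L ^ (U + 2) := by
      refine hE1.trans ?_
      calc (ℓ : ℝ) / M ^ U₁ ≤ X / L ^ U₁ := by
            apply div_le_div₀ hX0.le _ (by positivity) (hLMp _)
            exact_mod_cast (by omega : ℓ ≤ X)
        _ ≤ N * L ^ (T + 1) / L ^ U₁ := div_le_div_of_nonneg_right hXle (by positivity)
        _ = N / L ^ (U + 2) := by
            have e : L ^ U₁ = L ^ (T + 1) * L ^ (U + 2) := by
              rw [hU₁, ← pow_add]
              congr 1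
              ring
            rw [e]
            field_simp
    have h5 : 0 ≤ (N : ℝ) / L ^ U := by positivity
    linarith
  · obtain ⟨m, hm⟩ : ∃ m : ℕ, m = ((n : ℤ) + cc).toNat := ⟨_, rfl⟩
    have hmz : (m : ℤ) = (n : ℤ) + cc := by
      rw [hm]
      exact Int.toNat_of_nonneg hpos.le
    have hnE' : ¬ (((n : ℤ) + cc).toNat ≤ u₀ ∨ ((n : ℤ) + cc).toNat ∈ E') := by
      intro h1
      apply hnE
      rw [hE, mem_filter, mem_Icc]
      exact ⟨⟨hn1, hnN⟩, hpos, h1⟩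
    rw [not_or, ← hm] at hnE'
    have hmX : m ≤ u₀ + ℓ := by
      rw [huℓ]
      have h1 : (m : ℝ) ≤ X := by
        have h2 : (m : ℝ) = (n : ℝ) + cc := by exact_mod_cast hmz
        rw [h2, hXr]
        have h3 := (abs_le.1 hcc).2
        have h4 : (n : ℝ) ≤ N := by exact_mod_cast hnN
        have h5 : (N : ℝ) * L ^ T ≤ N * K := mul_le_mul_of_nonneg_left hK1 hN0.le
        have h6 : (N : ℝ) * 1 ≤ N * K := mul_le_mul_of_nonneg_left hKr hN0.le
        linarith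
      exact_mod_cast h1
    have h7 := (hE2 m (by omega) hmX hnE'.2).2 (by rw [hmz]; exact hcop)
    have hcn : cnt Q p κ 0 m = cnt Q p κ cc n := by
      unfold cnt
      apply sum_congr rfl
      intro v _
      have : (m : ℤ) + (0 + κ * (v : ℕ)) = (n : ℤ) + (cc + κ * (v : ℕ)) := by rw [hmz]; ring
      rw [this]
    rw [hcn] at h7
    exact conv _ _ M L ε hL0 hLM hML' (by positivity) hε h7

end Pool.Agent.Run7.h673.SP
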