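import Pool.Agent.Run7.h673.SP.OffF
import Pool.Agent.Run7.h673.SP.Win
import Pool.Agent.Run7.h337.MK.Tuples
import Pool.Agent.Run7.h931.MK.Ev2

/-!
# Primes in sparse windows formed by the values of functions of rapid growth, for every shift; tuples
-/

set_option autoImplicit false

namespace Pool.Agent.Run7.h673.SP

open Finset Filter Topology
open Pool.Agent.N384.MQ (ev_log_pow ev_log_ge)
open Run7.h337.MK (cnt prod_approx delta_exists g_ge_one)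

variable {g : ℝ → ℝ} {δ C L₀ : ℝ}

/-- `(y, x]` is a range of length at least `x / log ^ a N` with `N ^ (1/3) log ^ C N ≤ f y` and `f x ≤ N / log ^ W N` -/
def Rgw (g : ℝ → ℝ) (a C W N x y : ℕ) : Prop :=
  y < x ∧ (x : ℝ) ≤ Real.log N ^ a * ((x - y : ℕ) : ℝ) ∧ (N : ℝ) ^ (1 / 3 : ℝ) * Real.log N ^ C ≤ ff g y ∧
    ff g x * Real.log N ^ W ≤ N

lemma Rgw.mono {a C C' W W' N x y : ℕ} (hL : 1 ≤ Real.log N) (hC : C ≤ C') (hW : W ≤ W') (h : Rgw g a C' W' N x y) :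
    Rgw g a C W N x y := by
  obtain ⟨h1, h2, h3, h4⟩ := h
  refine ⟨h1, h2, le_trans ?_ h3, le_trans ?_ h4⟩
  · apply mul_le_mul_of_nonneg_left _ (by positivity)
    exact pow_le_pow_right₀ hL hC
  · apply mul_le_mul_of_nonneg_left _ (ff_pos g x).le
    exact pow_le_pow_right₀ hL hW

/-- the number of the `k` in `(y, x]` for which `n + cc + κ ⌊f k⌋` is a prime -/
noncomputable def npr (g : ℝ → ℝ) (x y : ℕ) (κ cc : ℤ) (n : ℕ) : ℕ :=
  ((Ioc y x).filter fun k => ((n : ℤ) + (cc + κ * (val g k : ℕ))).toNat.Prime).card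

theorem Fast.win (h : Fast g δ C L₀) (T U a : ℕ) (ε : ℝ) (hε : 0 < ε) (hε1 : ε ≤ 1) : ∃ C' W N₀ : ℕ, ∀ N : ℕ, N₀ ≤ N →
    ∀ x y : ℕ, Rgw g a C' W N x y → ∀ κ : ℤ, κ ≠ 0 → (κ.natAbs : ℝ) ≤ Real.log N ^ T →
    ∀ cc : ℤ, |(cc : ℝ)| ≤ N * Real.log N ^ T → ∃ E : Finset ℕ, (E.card : ℝ) ≤ N / Real.log N ^ U ∧
      ∀ n : ℕ, 1 ≤ n → n ≤ N → n ∉ E → 0 < (n : ℤ) + cc → IsCoprime ((n : ℤ) + cc) κ →
        |(npr g x y κ cc n : ℝ) - κ.natAbs / (Nat.totient κ.natAbs : ℝ) * (((x - y : ℕ) : ℝ) / Real.log N)| ≤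
          ε * (κ.natAbs / (Nat.totient κ.natAbs : ℝ) * (((x - y : ℕ) : ℝ) / Real.log N)) := by
  obtain ⟨V, hV⟩ := Pool.Agent.Run7.h673.SP.win T U ε hε hε1
  obtain ⟨D, N₁, h1⟩ := h.off a 1 V
  obtain ⟨C₁, W₁, N₂, h2⟩ := hV D
  obtain ⟨N₃, hev⟩ := eventually_atTop.1 ((ev_log_ge 2).and (ev_log_pow (W₁ + 1) 4))
  refine ⟨C₁ + 1, W₁ + 1, N₁ + N₂ + N₃ + 3, fun N hN x y hr κ hκ hκT cc hcc => ?_⟩
  obtain ⟨l1, l2⟩ := hev N (by omega)
  obtain ⟨r1, r2, r3, r4⟩ := hr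
  have hN1 : (1 : ℝ) ≤ N := by exact_mod_cast (by omega : 1 ≤ N)
  have hN0 : (0 : ℝ) < N := by linarith
  obtain ⟨L, hL⟩ : ∃ L, L = Real.log (N : ℝ) := ⟨_, rfl⟩
  have hL2 : 2 ≤ L := by rw [hL]; exact l1
  have hL0 : 0 < L := by linarith
  have hL1 : 1 ≤ L := by linarith
  have hpow : ∀ e : ℕ, 1 ≤ L ^ e := fun e => one_le_pow₀ hL1
  have hN3 : 1 ≤ (N : ℝ) ^ (1 / 3 : ℝ) := Real.one_le_rpow hN1 (by norm_num)
  have hffx : ff g x ≤ N := by
    refine le_trans ?_ r4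
    rw [← hL]
    exact le_mul_of_one_le_right (ff_pos g x).le (hpow _)
  obtain ⟨o1, o2, o3⟩ := h1 N (by omega) x y r1 r2 (le_trans (by
    rw [← hL]
    exact le_mul_of_one_le_right (by linarith) (hpow _)) r3) (by rw [Nat.cast_one, one_mul]; exact hffx)
  have hq : (N : ℝ) ^ (1 / 3 : ℝ) * L ^ C₁ ≤ val g y := by
    have e1 : ff g y < val g y + 1 := by
      unfold val
      exact Nat.lt_floor_add_one _
    rw [← hL, pow_succ] at r3
    have e2 : 1 ≤ (N : ℝ) ^ (1 / 3 : ℝ) * L ^ C₁ := by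
      have := hpow C₁
      nlinarith
    nlinarith
  have hQ : ((val g x + 1 : ℕ) : ℝ) * L ^ W₁ ≤ N := by
    push_cast
    have e1 : (val g x : ℝ) ≤ ff g x := by
      unfold val
      exact Nat.floor_le (ff_pos g x).le
    rw [← hL] at l2 r4
    have e2 : ff g x * L ^ W₁ * 2 ≤ N := by
      calc ff g x * L ^ W₁ * 2 ≤ ff g x * L ^ W₁ * L :=
            mul_le_mul_of_nonneg_left hL2 (mul_nonneg (ff_pos g x).le (by positivity))
        _ = ff g x * L ^ (W₁ + 1) := by rw [pow_succ]; ring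
        _ ≤ N := r4
    have e3 : L ^ W₁ * 2 ≤ N := by
      rw [pow_succ] at l2
      have := hpow W₁
      nlinarith
    have e4 : (val g x : ℝ) * L ^ W₁ ≤ ff g x * L ^ W₁ := mul_le_mul_of_nonneg_right e1 (by positivity)
    linarith
  obtain ⟨E, hE1, hE2⟩ := h2 N (by omega) (val g y) (val g x + 1) (dis g x y) (by rw [← hL]; exact hq) o2
    (by rw [← hL]; exact hQ) o3 κ hκ hκT cc hcc
  refine ⟨E, hE1, fun n hn1 hnN hnE hpos hcop => ?_⟩
  have h3 := hE2 n hn1 hnN hnE hpos hcop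
  rw [cnt_dis g x y _ o1] at h3
  have hK0 : (0 : ℝ) < ((x - y : ℕ) : ℝ) := by exact_mod_cast (by omega : 0 < x - y)
  have e1 : (npr g x y κ cc n : ℝ) = ((x - y : ℕ) : ℝ) *
      ((((Ioc y x).filter fun k => ((n : ℤ) + (cc + κ * (val g k : ℕ))).toNat.Prime).card : ℝ) / ((x - y : ℕ) : ℝ)) := by
    unfold npr
    field_simp
  rw [e1]
  have e2 : ∀ A G : ℝ, |A - G / Real.log N| ≤ ε * (G / Real.log N) →
      |((x - y : ℕ) : ℝ) * A - G * (((x - y : ℕ) : ℝ) / Real.log N)| ≤ ε * (G * (((x - y : ℕ) : ℝ) / Real.log N)) := by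
    intro A G hA
    have e3 : ((x - y : ℕ) : ℝ) * A - G * (((x - y : ℕ) : ℝ) / Real.log N) = ((x - y : ℕ) : ℝ) * (A - G / Real.log N) := by
      ring
    rw [e3, abs_mul, abs_of_pos hK0]
    refine (mul_le_mul_of_nonneg_left hA hK0.le).trans (le_of_eq ?_)
    ring
  exact e2 _ _ h3

lemma npr_le (g : ℝ → ℝ) (x y : ℕ) (κ cc : ℤ) (n : ℕ) : npr g x y κ cc n ≤ x - y := by
  unfold npr
  refine (card_filter_le _ _).trans ?_
  rw [Nat.card_Ioc]

open Classical in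
/-- tuples, for every shift and the first members in an arbitrary dense set -/
theorem win_tuples (r : ℕ) (g : Fin r → ℝ → ℝ) (hg : ∀ i, Rapid (g i)) (T a : ℕ) (ε : ℝ) (hε : 0 < ε) (hε1 : ε ≤ 1) :
    ∃ C W N₀ : ℕ, ∀ N : ℕ, N₀ ≤ N → ∀ x y : Fin r → ℕ, (∀ i, Rgw (g i) a C W N (x i) (y i)) →
    ∀ κ : Fin r → ℤ, (∀ i, κ i ≠ 0 ∧ ((κ i).natAbs : ℝ) ≤ Real.log N ^ T) →
    ∀ cc : Fin r → ℤ, (∀ i, |(cc i : ℝ)| ≤ N * Real.log N ^ T) →
    ∀ P : Finset ℕ, (∀ n ∈ P, 1 ≤ n ∧ n ≤ N ∧ ∀ i, 0 < (n : ℤ) + cc i ∧ IsCoprime ((n : ℤ) + cc i) (κ i)) →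
      (N : ℝ) ≤ P.card * Real.log N ^ T →
    |∑ n ∈ P, ∏ i, (npr (g i) (x i) (y i) (κ i) (cc i) n : ℝ) -
      P.card * ∏ i, ((κ i).natAbs / (Nat.totient (κ i).natAbs : ℝ) * (((x i - y i : ℕ) : ℝ) / Real.log N))| ≤
      ε * (P.card * ∏ i, ((κ i).natAbs / (Nat.totient (κ i).natAbs : ℝ) * (((x i - y i : ℕ) : ℝ) / Real.log N))) := by
  choose δ Cf L₀ hf using fun i => (hg i).fast
  obtain ⟨η, hη0, hη1, hη2, hη3⟩ := delta_exists r (ε / 2) (by positivity)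
  obtain ⟨U, hU⟩ : ∃ U, U = T + r + 2 := ⟨_, rfl⟩
  choose C' W' N' hw using fun i => (hf i).win T U a η hη0 hη1
  obtain ⟨Ct, hCt⟩ : ∃ Ct, Ct = ∑ i, C' i := ⟨_, rfl⟩
  obtain ⟨Wt, hWt⟩ : ∃ Wt, Wt = ∑ i, W' i := ⟨_, rfl⟩
  obtain ⟨Nt, hNt⟩ : ∃ Nt, Nt = ∑ i, N' i := ⟨_, rfl⟩
  have hCi : ∀ i, C' i ≤ Ct := fun i => by rw [hCt]; exact single_le_sum (fun _ _ => Nat.zero_le _) (mem_univ i)
  have hWi : ∀ i, W' i ≤ Wt := fun i => by rw [hWt]; exact single_le_sum (fun _ _ => Nat.zero_le _) (mem_univ i)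
  have hNi : ∀ i, N' i ≤ Nt := fun i => by rw [hNt]; exact single_le_sum (fun _ _ => Nat.zero_le _) (mem_univ i)
  obtain ⟨N₁, hev⟩ := eventually_atTop.1 ((ev_log_ge 2).and (ev_log_ge (4 * (r + 1) / ε)))
  refine ⟨Ct, Wt, Nt + N₁ + 3, fun N hN x y hr κ hκ cc hcc P hP hPN => ?_⟩
  obtain ⟨l1, l2⟩ := hev N (by omega)
  have hN0 : (0 : ℝ) < N := by exact_mod_cast (by omega : 0 < N)
  have hE := fun i => hw i N (by have := hNi i; omega) (x i) (y i) ((hr i).mono (by linarith) (hCi i) (hWi i))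
    (κ i) (hκ i).1 (hκ i).2 (cc i) (hcc i)
  choose E hE1 hE2 using hE
  obtain ⟨L, hL⟩ : ∃ L, L = Real.log (N : ℝ) := ⟨_, rfl⟩
  rw [← hL] at l1 l2 hPN
  simp only [← hL] at hE1 hE2 ⊢
  have hL0 : 0 < L := by linarith
  have hL1 : 1 ≤ L := by linarith
  obtain ⟨G, hG⟩ : ∃ G : Fin r → ℝ, G = fun i => (κ i).natAbs / (Nat.totient (κ i).natAbs : ℝ) * (((x i - y i : ℕ) : ℝ) / L) :=
    ⟨_, rfl⟩
  have hGi : ∀ i, (κ i).natAbs / (Nat.totient (κ i).natAbs : ℝ) * (((x i - y i : ℕ) : ℝ) / L) = G i := fun i => by rw [hG]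
  simp only [hGi] at hE2 ⊢
  have hKi : ∀ i, (0 : ℝ) < ((x i - y i : ℕ) : ℝ) := fun i => by
    have := (hr i).1
    exact_mod_cast (by omega : 0 < x i - y i)
  have hG1 : ∀ i, ((x i - y i : ℕ) : ℝ) / L ≤ G i := fun i => by
    rw [← hGi i]
    exact le_mul_of_one_le_left (div_nonneg (hKi i).le hL0.le) (g_ge_one (κ i) (hκ i).1)
  have hG0 : ∀ i, 0 ≤ G i := fun i => le_trans (div_nonneg (hKi i).le hL0.le) (hG1 i)
  obtain ⟨Pr, hPr⟩ : ∃ Pr, Pr = ∏ i, G i := ⟨_, rfl⟩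
  have hPr0 : 0 ≤ Pr := by rw [hPr]; exact prod_nonneg fun i _ => hG0 i
  rw [← hPr]
  have hKPr : ∏ i, ((x i - y i : ℕ) : ℝ) ≤ L ^ r * Pr := by
    rw [hPr]
    calc ∏ i, ((x i - y i : ℕ) : ℝ) ≤ ∏ i, (L * G i) := by
          apply Finset.prod_le_prod
          · intro i _
            exact (hKi i).le
          · intro i _
            have := hG1 i
            rw [div_le_iff₀ hL0] at this
            linarith
      _ = L ^ r * ∏ i, G i := by rw [prod_mul_distrib, prod_const, card_univ, Fintype.card_fin]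
  obtain ⟨E', hE'⟩ : ∃ E' : Finset ℕ, E' = univ.biUnion E := ⟨_, rfl⟩
  have hE'c : (E'.card : ℝ) ≤ r * (N / L ^ U) := by
    have h1 : (E'.card : ℝ) ≤ ∑ i, ((E i).card : ℝ) := by
      rw [hE']
      exact_mod_cast card_biUnion_le
    refine h1.trans ((sum_le_sum fun i _ => hE1 i).trans ?_)
    rw [sum_const, card_univ, Fintype.card_fin, nsmul_eq_mul]
  have e1 : (P.card : ℝ) * Pr = ∑ n ∈ P, Pr := by rw [sum_const, nsmul_eq_mul]
  have e2 : ∀ n ∈ P, |∏ i, (npr (g i) (x i) (y i) (κ i) (cc i) n : ℝ) - Pr| ≤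
      ε / 2 * Pr + (if n ∈ E' then (L ^ r + 1) * Pr else 0) := by
    intro n hn
    obtain ⟨b1, b2, b3⟩ := hP n hn
    by_cases hnE : n ∈ E'
    · rw [if_pos hnE]
      have h3 : ∏ i, (npr (g i) (x i) (y i) (κ i) (cc i) n : ℝ) ≤ L ^ r * Pr := by
        refine le_trans ?_ hKPr
        apply Finset.prod_le_prod
        · intro i _
          exact Nat.cast_nonneg _
        · intro i _
          exact_mod_cast npr_le (g i) (x i) (y i) (κ i) (cc i) n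
      have h4 : 0 ≤ ∏ i, (npr (g i) (x i) (y i) (κ i) (cc i) n : ℝ) := prod_nonneg fun i _ => Nat.cast_nonneg _
      have h5 : 0 ≤ ε / 2 * Pr := by positivity
      have h6 : 0 ≤ L ^ r * Pr := by positivity
      rw [abs_le]
      constructor <;> linarith
    · rw [if_neg hnE, add_zero, hPr]
      apply prod_approx _ _ η (ε / 2) hη0.le hη1 hG0 hη2 hη3
      intro i
      have hnEi : n ∉ E i := by
        intro h
        apply hnE
        rw [hE']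
        exact mem_biUnion.2 ⟨i, mem_univ _, h⟩
      exact hE2 i n b1 b2 hnEi (b3 i).1 (b3 i).2
  rw [e1, ← sum_sub_distrib]
  have h6 : ∑ n ∈ P, (if n ∈ E' then (L ^ r + 1) * Pr else 0) ≤ E'.card * ((L ^ r + 1) * Pr) := by
    rw [← sum_filter, sum_const, nsmul_eq_mul]
    apply mul_le_mul_of_nonneg_right _ (by positivity)
    have : (P.filter fun n => n ∈ E').card ≤ E'.card := by
      apply card_le_card
      intro n hn
      exact (mem_filter.1 hn).2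
    exact_mod_cast this
  have h7 : (E'.card : ℝ) * ((L ^ r + 1) * Pr) ≤ ε / 2 * (P.card * Pr) := by
    obtain ⟨ec, hec⟩ : ∃ ec : ℝ, ec = E'.card := ⟨_, rfl⟩
    obtain ⟨pc, hpc⟩ : ∃ pc : ℝ, pc = P.card := ⟨_, rfl⟩
    have hpc0 : 0 ≤ pc := by rw [hpc]; exact Nat.cast_nonneg _
    have hr0 : (0 : ℝ) ≤ r := Nat.cast_nonneg _
    have hLr : 0 < L ^ r := pow_pos hL0 r
    rw [← hpc] at hPN
    rw [← hec] at hE'c
    rw [← hec, ← hpc]
    clear h6 e2 e1 hec hpc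
    have h8 : (N : ℝ) / L ^ U ≤ pc / L ^ (r + 2) := by
      rw [div_le_div_iff₀ (by positivity) (by positivity)]
      calc (N : ℝ) * L ^ (r + 2) ≤ (pc * L ^ T) * L ^ (r + 2) := mul_le_mul_of_nonneg_right hPN (by positivity)
        _ = pc * L ^ U := by
            rw [hU, mul_assoc, ← pow_add]
            congr 2
    have h9 : (L ^ r + 1) ≤ 2 * L ^ r := by
      have : (1 : ℝ) ≤ L ^ r := one_le_pow₀ hL1
      linarith
    have h10 : 2 * (r : ℝ) / L ≤ ε / 2 := by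
      rw [div_le_iff₀ hL0]
      rw [div_le_iff₀ hε] at l2
      have : (0 : ℝ) ≤ r := Nat.cast_nonneg _
      linarith
    calc ec * ((L ^ r + 1) * Pr) ≤ (r * (pc / L ^ (r + 2))) * ((2 * L ^ r) * Pr) := by
          apply mul_le_mul _ (mul_le_mul_of_nonneg_right h9 hPr0) (by positivity) (by positivity)
          exact hE'c.trans (mul_le_mul_of_nonneg_left h8 (Nat.cast_nonneg _))
      _ = (pc * Pr) * (2 * r / L ^ 2) := by
          rw [pow_add]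
          field_simp
      _ ≤ (pc * Pr) * (ε / 2) := by
          apply mul_le_mul_of_nonneg_left _ (by positivity)
          refine le_trans ?_ h10
          apply div_le_div_of_nonneg_left (by positivity) hL0
          rw [sq]
          nlinarith
      _ = ε / 2 * (pc * Pr) := by ring
  calc |∑ n ∈ P, (∏ i, (npr (g i) (x i) (y i) (κ i) (cc i) n : ℝ) - Pr)|
      ≤ ∑ n ∈ P, |∏ i, (npr (g i) (x i) (y i) (κ i) (cc i) n : ℝ) - Pr| := abs_sum_le_sum_abs _ _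
    _ ≤ ∑ n ∈ P, (ε / 2 * Pr + (if n ∈ E' then (L ^ r + 1) * Pr else 0)) := sum_le_sum e2
    _ = ε / 2 * (P.card * Pr) + ∑ n ∈ P, (if n ∈ E' then (L ^ r + 1) * Pr else 0) := by
        rw [sum_add_distrib, sum_const, nsmul_eq_mul]
        ring
    _ ≤ ε / 2 * (P.card * Pr) + ε / 2 * (P.card * Pr) := by linarith
    _ = ε * (∑ n ∈ P, Pr) := by
        rw [sum_const, nsmul_eq_mul]
        ring

/-- the number of the tuples as a sum -/
lemma tuple_sum (r : ℕ) (g : Fin r → ℝ → ℝ) (x y : Fin r → ℕ) (κ cc : Fin r → ℤ) (P : Finset ℕ) :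
    (((P ×ˢ Fintype.piFinset fun i => Ioc (y i) (x i)).filter fun w => ∀ i,
      ((w.1 : ℤ) + (cc i + κ i * (val (g i) (w.2 i) : ℕ))).toNat.Prime).card : ℝ) =
    ∑ n ∈ P, ∏ i, (npr (g i) (x i) (y i) (κ i) (cc i) n : ℝ) := by
  classical
  rw [card_filter, sum_product]
  push_cast
  refine sum_congr rfl fun n _ => ?_
  have h1 : ((Fintype.piFinset fun i => Ioc (y i) (x i)).filter fun k => ∀ i,
      ((n : ℤ) + (cc i + κ i * (val (g i) (k i) : ℕ))).toNat.Prime).card = ∏ i, npr (g i) (x i) (y i) (κ i) (cc i) n := by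
    unfold npr
    rw [← Fintype.card_piFinset]
    congr 1
    ext f
    simp only [mem_filter, Fintype.mem_piFinset]
    constructor
    · exact fun h j => ⟨h.1 j, h.2 j⟩
    · exact fun h => ⟨fun j => (h j).1, fun j => (h j).2⟩
  have h2 : (∏ i, (npr (g i) (x i) (y i) (κ i) (cc i) n : ℝ)) = ((∏ i, npr (g i) (x i) (y i) (κ i) (cc i) n : ℕ) : ℝ) := by
    push_cast
    rfl
  rw [h2, ← h1, card_filter]
  push_cast
  rfl

end Pool.Agent.Run7.h673.SP
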